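import Pool.Agent.J4H76.LB.Main

/-! Algebraic identities for the averaged functional. -/
set_option autoImplicit false
open Filter Topology

namespace Pool.Agent.J4H76.AP

noncomputable section

open Pool.Agent.J4H76.TP
open AddMonoidAlgebra (single)
open Polynomial (aeval)

/-- constant sequences -/
def kst (ρ0 : ℝ) : BS := algebraMap ℝ BS ρ0

lemma kst_ap (ρ0 : ℝ) (n : ℕ) : (kst ρ0).1 n = ρ0 := rfl

lemma cs_kst {G : Type} [AddCommGroup G] (ρ0 : ℝ) :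
    (cs (kst ρ0) : AA G) = algebraMap ℝ (AA G) ρ0 := rfl

/-- the polynomial `p(r)² + p(r')²` of `x` -/
def Sp (ρ0 : ℝ) (p : Polynomial ℝ) : Polynomial ℝ :=
  KK (Polynomial.C (2 * (1 + ρ0 ^ 2)) - Polynomial.X) (Polynomial.C ((1 - ρ0 ^ 2) ^ 2)) (p ^ 2)

/-- `2 cos (j θ)` as a polynomial of `2 + 2 cos θ` -/
def tt (j : ℕ) : Polynomial ℝ := kap (Polynomial.X - 2) 1 j

/-- functions of `w₁ / w₂` -/
def yy (ρ0 : ℝ) (P : Polynomial ℝ) : AA Z4 := io (dir 0 0 1 (-1)) (aeval (xw (kst ρ0)) P)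

section root
variable {A : Type} [CommRing A] [Algebra ℝ A]

lemma Sp_eq {ρ0 : ℝ} {x r1 r2 : A} (hs : r1 + r2 = algebraMap ℝ A (2 * (1 + ρ0 ^ 2)) - x)
    (hp : r1 * r2 = algebraMap ℝ A ((1 - ρ0 ^ 2) ^ 2)) (p : Polynomial ℝ) :
    aeval x (Sp ρ0 p) = aeval r1 p ^ 2 + aeval r2 p ^ 2 := by
  unfold Sp
  rw [KK_map]
  have h1 : (aeval x) (Polynomial.C (2 * (1 + ρ0 ^ 2)) - Polynomial.X) =
      algebraMap ℝ A (2 * (1 + ρ0 ^ 2)) - x := by
    rw [map_sub, Polynomial.aeval_C, Polynomial.aeval_X]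
  have h2 : (aeval x) (Polynomial.C ((1 - ρ0 ^ 2) ^ 2)) =
      algebraMap ℝ A ((1 - ρ0 ^ 2) ^ 2) := by rw [Polynomial.aeval_C]
  rw [h1, h2, KK_eq hs hp]
  simp only [map_pow]

lemma tt_eq {x r1 r2 : A} (hs : r1 + r2 = x - 2) (hp : r1 * r2 = 1) (j : ℕ) :
    aeval x (tt j) = r1 ^ j + r2 ^ j := by
  unfold tt
  have h := kap_map (aeval x : Polynomial ℝ →ₐ[ℝ] A).toRingHom (Polynomial.X - 2) 1 j
  have h' : (aeval x) (kap (Polynomial.X - 2 : Polynomial ℝ) 1 j) =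
      kap ((aeval x) (Polynomial.X - 2 : Polynomial ℝ)) ((aeval x) (1 : Polynomial ℝ)) j := h
  rw [h', map_sub, Polynomial.aeval_X, map_one, map_ofNat, kap_eq hs hp]

end root

/-- **the identities** -/
theorem ids {ρ0 : ℝ} {J : Z4 → ℕ → ℂ} (H : QS (kst ρ0) J) :
    (∀ p : Polynomial ℝ, Tendsto (fun n => 2 * EE J (io (dir 1 0 (-1) 0) (aeval (rr (kst ρ0)) p) *
      io (dir 0 (-1) 0 1) (aeval (rr (kst ρ0)) p)) n - EE J (yy ρ0 (Sp ρ0 p)) n) atTop (𝓝 0)) ∧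
    (∀ (d : ℤ) (j : ℕ) (B : Polynomial ℝ), Tendsto (fun n =>
      EE J (mn (d + j) (d - j) (-d) (-d) * yy ρ0 (Polynomial.X * B)) n +
      EE J (mn (d - j) (d + j) (-d) (-d) * yy ρ0 (Polynomial.X * B)) n -
      EE J (yy ρ0 (Polynomial.X * B * tt j)) n) atTop (𝓝 0)) := by
  obtain ⟨ρ, hρ⟩ : ∃ ρ : BS, ρ = kst ρ0 := ⟨_, rfl⟩
  have qt : Ideal.Quotient.mkₐ ℝ (NI J) (TT ρ) = 0 := by
    rw [hρ]; exact Ideal.Quotient.eq_zero_iff_mem.2 H.t
  have qt' : Ideal.Quotient.mkₐ ℝ (NI J) (TT' ρ) = 0 := by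
    rw [hρ]; exact Ideal.Quotient.eq_zero_iff_mem.2 H.t'
  have qn : Ideal.Quotient.mkₐ ℝ (NI J) NF = 0 := Ideal.Quotient.eq_zero_iff_mem.2 H.nf
  have mq : ∀ f : AA Z4, Ideal.Quotient.mkₐ ℝ (NI J) f = 0 → Tendsto (EE J f) atTop (𝓝 0) :=
    fun f h => mem_of_quot h
  obtain ⟨Q, hQ⟩ : ∃ Q : AA Z4 →ₐ[ℝ] (AA Z4 ⧸ NI J), Q = Ideal.Quotient.mkₐ ℝ (NI J) := ⟨_, rfl⟩
  rw [← hQ] at qt qt' qn mq
  obtain ⟨c, hc⟩ : ∃ c, c = Q (cs ρ) := ⟨_, rfl⟩
  have hcc : c = algebraMap ℝ (AA Z4 ⧸ NI J) ρ0 := by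
    rw [hc, hρ, cs_kst, AlgHom.commutes]
  obtain ⟨z1, hz1⟩ : ∃ c, c = Q (mn 1 0 0 0) := ⟨_, rfl⟩
  obtain ⟨z2, hz2⟩ : ∃ c, c = Q (mn 0 1 0 0) := ⟨_, rfl⟩
  obtain ⟨w1, hw1⟩ : ∃ c, c = Q (mn 0 0 1 0) := ⟨_, rfl⟩
  obtain ⟨w2, hw2⟩ : ∃ c, c = Q (mn 0 0 0 1) := ⟨_, rfl⟩
  obtain ⟨z1', hz1'⟩ : ∃ c, c = Q (mn (-1) 0 0 0) := ⟨_, rfl⟩
  obtain ⟨z2', hz2'⟩ : ∃ c, c = Q (mn 0 (-1) 0 0) := ⟨_, rfl⟩
  obtain ⟨w1', hw1'⟩ : ∃ c, c = Q (mn 0 0 (-1) 0) := ⟨_, rfl⟩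
  obtain ⟨w2', hw2'⟩ : ∃ c, c = Q (mn 0 0 0 (-1)) := ⟨_, rfl⟩
  have i1 : z1 * z1' = 1 := by rw [hz1, hz1', ← map_mul, mn_mul]; exact map_one Q
  have i2 : z2 * z2' = 1 := by rw [hz2, hz2', ← map_mul, mn_mul]; exact map_one Q
  have i3 : w1 * w1' = 1 := by rw [hw1, hw1', ← map_mul, mn_mul]; exact map_one Q
  have i4 : w2 * w2' = 1 := by rw [hw2, hw2', ← map_mul, mn_mul]; exact map_one Q
  have t : z1 + z2 + c * (w1 + w2) = 0 := by
    rw [← qt, TT, hz1, hz2, hw1, hw2, hc]; simp only [map_add, map_mul]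
  have t' : z1' + z2' + c * (w1' + w2') = 0 := by
    rw [← qt', TT', hz1', hz2', hw1', hw2', hc]; simp only [map_add, map_mul]
  have nf : z1 * z2 * (w1' * w2') + z1' * z2' * (w1 * w2) - 2 = 0 := by
    rw [← qn, NF, hz1, hz2, hw1, hw2, hz1', hz2', hw1', hw2']
    simp only [map_add, map_sub, ← map_mul, mn_mul, map_ofNat]
    rfl
  obtain ⟨r1, hr1⟩ : ∃ r, r = (z1 + c * w1) * (z1' + c * w1') := ⟨_, rfl⟩
  obtain ⟨r2, hr2⟩ : ∃ r, r = (z1 + c * w2) * (z1' + c * w2') := ⟨_, rfl⟩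
  obtain ⟨x, hx⟩ : ∃ r, r = (z1 + z2) * (z1' + z2') := ⟨_, rfl⟩
  have hs : r1 + r2 = 2 * (1 + c ^ 2) - x := by
    have := id_sum (ρ := c) i1 i2 i3 i4
    rw [t, t', mul_zero, mul_zero, add_zero, ← hr1, ← hr2, ← hx, sub_eq_zero] at this
    exact this
  have hp : r1 * r2 = (1 - c ^ 2) ^ 2 := by
    have := id_prod (ρ := c) i1 i2 i3 i4
    rw [t, t', nf, zero_mul, zero_mul, zero_mul, add_zero, sub_zero, ← hr1, ← hr2,
      sub_eq_zero] at this
    exact this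
  have hr : (z2 + c * w2) * (z2' + c * w2') = r1 := by
    have := id_r (ρ := c) (z1 := z1) (z2 := z2) (w1 := w1) (w2 := w2) (z1' := z1') (z2' := z2')
      (w1' := w1') (w2' := w2') trivial
    rw [t, t', zero_mul, zero_mul, sub_zero, ← hr1, sub_eq_zero] at this
    exact this.symm
  have hxw : c ^ 2 * ((w1 + w2) * (w1' + w2')) = x := by
    have := id_x (ρ := c) (z1 := z1) (z2 := z2) (w1 := w1) (w2 := w2) (z1' := z1') (z2' := z2')
      (w1' := w1') (w2' := w2') trivial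
    rw [t, t', zero_mul, zero_mul, sub_zero, ← hx, sub_eq_zero] at this
    exact this.symm
  have e13 : Q (io (dir 1 0 (-1) 0) (rr ρ)) = r1 := by
    have h1 : Q (mn 1 0 (-1) 0) = z1 * w1' := by rw [hz1, hw1', ← map_mul, mn_mul]; rfl
    have h2 : Q (mn (-1) (-0) (- -1) (-0)) = z1' * w1 := by rw [hz1', hw1, ← map_mul, mn_mul]; rfl
    rw [io_rr]
    simp only [map_add, map_mul, map_one, map_pow]
    rw [h1, h2, ← hc, hr1]
    linear_combination (-1 : AA Z4 ⧸ NI J) * i1 - c ^ 2 * i3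
  have e14 : Q (io (dir 1 0 0 (-1)) (rr ρ)) = r2 := by
    have h1 : Q (mn 1 0 0 (-1)) = z1 * w2' := by rw [hz1, hw2', ← map_mul, mn_mul]; rfl
    have h2 : Q (mn (-1) (-0) (-0) (- -1)) = z1' * w2 := by rw [hz1', hw2, ← map_mul, mn_mul]; rfl
    rw [io_rr]
    simp only [map_add, map_mul, map_one, map_pow]
    rw [h1, h2, ← hc, hr2]
    linear_combination (-1 : AA Z4 ⧸ NI J) * i1 - c ^ 2 * i4
  have e24 : Q (io (dir 0 (-1) 0 1) (rr ρ)) = r1 := by
    have h1 : Q (mn 0 (-1) 0 1) = z2' * w2 := by rw [hz2', hw2, ← map_mul, mn_mul]; rfl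
    have h2 : Q (mn (-0) (- -1) (-0) (-1)) = z2 * w2' := by rw [hz2, hw2', ← map_mul, mn_mul]; rfl
    rw [io_rr]
    simp only [map_add, map_mul, map_one, map_pow]
    rw [h1, h2, ← hc, ← hr]
    linear_combination (-1 : AA Z4 ⧸ NI J) * i2 - c ^ 2 * i4
  have eX : Q (io (dir 0 0 1 (-1)) (xw ρ)) = x := by
    have h1 : Q (mn 0 0 1 (-1)) = w1 * w2' := by rw [hw1, hw2', ← map_mul, mn_mul]; rfl
    have h2 : Q (mn (-0) (-0) (-1) (- -1)) = w1' * w2 := by rw [hw1', hw2, ← map_mul, mn_mul]; rfl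
    unfold xw
    simp only [map_add, map_mul, map_pow, map_ofNat, io_xx, io_xx', io_cs]
    rw [h1, h2, ← hc, ← hxw]
    linear_combination (-c ^ 2) * i3 - c ^ 2 * i4
  have qy : ∀ P : Polynomial ℝ, Q (yy ρ0 P) = aeval x P := by
    intro P
    unfold yy
    rw [← hρ, ← Polynomial.aeval_algHom_apply, ← Polynomial.aeval_algHom_apply, eX]
  have qp : ∀ (a b c' d : ℤ) (r : AA Z4 ⧸ NI J) (p : Polynomial ℝ),
      Q (io (dir a b c' d) (rr ρ)) = r → Q (io (dir a b c' d) (aeval (rr ρ) p)) = aeval r p := by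
    intro a b c' d r p h
    rw [← Polynomial.aeval_algHom_apply, ← Polynomial.aeval_algHom_apply, h]
  rw [← hρ]
  constructor
  · intro p
    have hs' : r1 + r2 = algebraMap ℝ (AA Z4 ⧸ NI J) (2 * (1 + ρ0 ^ 2)) - x := by
      rw [hs, hcc]; simp only [map_mul, map_add, map_pow, map_one, map_ofNat]
    have hp' : r1 * r2 = algebraMap ℝ (AA Z4 ⧸ NI J) ((1 - ρ0 ^ 2) ^ 2) := by
      rw [hp, hcc]; simp only [map_sub, map_pow, map_one]
    have tr := Sp_eq hs' hp' p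
    have p1 : Tendsto (EE J (io (dir 1 0 (-1) 0) (aeval (rr ρ) p) *
        io (dir 1 0 (-1) 0) (aeval (rr ρ) p) + io (dir 1 0 0 (-1)) (aeval (rr ρ) p) *
        io (dir 1 0 0 (-1)) (aeval (rr ρ) p) - yy ρ0 (Sp ρ0 p))) atTop (𝓝 0) := by
      refine mq _ ?_
      rw [map_sub, map_add, map_mul, map_mul, qp _ _ _ _ _ _ e13, qp _ _ _ _ _ _ e14, qy, tr]
      ring
    have p2 : Tendsto (EE J (io (dir 1 0 (-1) 0) (aeval (rr ρ) p) *
        io (dir 0 (-1) 0 1) (aeval (rr ρ) p) - io (dir 1 0 (-1) 0) (aeval (rr ρ) p) *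
        io (dir 1 0 (-1) 0) (aeval (rr ρ) p))) atTop (𝓝 0) := by
      refine mq _ ?_
      rw [map_sub, map_mul, map_mul, qp _ _ _ _ _ _ e13, qp _ _ _ _ _ _ e24]
      ring
    have p3 : ∀ n, EE J (io (dir 1 0 (-1) 0) (aeval (rr ρ) p) *
        io (dir 1 0 (-1) 0) (aeval (rr ρ) p)) n = EE J (io (dir 1 0 0 (-1)) (aeval (rr ρ) p) *
        io (dir 1 0 0 (-1)) (aeval (rr ρ) p)) n := by
      intro n
      rw [← map_mul (io (dir 1 0 (-1) 0)), ← map_mul (io (dir 1 0 0 (-1))), EE_io, EE_io]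
      congr 1
      funext k n
      simp only [dir, AddMonoidHom.coe_mk, ZeroHom.coe_mk]
      exact H.sw _ _ _ _ n
    have p4 := (p2.const_mul 2).add p1
    rw [mul_zero, add_zero] at p4
    refine p4.congr fun n => ?_
    rw [EE_sub, EE_sub, EE_add, ← p3 n]
    ring
  · intro d j B
    have xu : x * (z1 * z2 * (w1' * w2')) = x := by
      have g1 : (z1' + z2') * (z1 * z2 - w1 * w2) = 0 := by
        linear_combination z2 * i1 + z1 * i2 - w1 * w2 * t' + t + c * w2 * i3 + c * w1 * i4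
      have g2 : (z1' + z2') * (z1 * z2 * (w1' * w2')) = z1' + z2' := by
        linear_combination (w1' * w2') * g1 + (z1' + z2') * (w2 * w2') * i3 + (z1' + z2') * i4
      rw [hx]
      linear_combination (z1 + z2) * g2
    have xu' : x * (z1' * z2' * (w1 * w2)) = x := by
      have g3 : (z1 * z2 * (w1' * w2')) * (z1' * z2' * (w1 * w2)) = 1 := by
        linear_combination (z2 * z2' * (w1 * w1') * (w2 * w2')) * i1 +
          ((w1 * w1') * (w2 * w2')) * i2 + (w2 * w2') * i3 + i4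
      linear_combination (-(z1' * z2' * (w1 * w2))) * xu + x * g3
    have stp : ∀ a b c d : ℤ, x * Q (mn (a + 1) (b + 1) (c - 1) (d - 1)) = x * Q (mn a b c d) := by
      intro a b c d
      have e : mn (a + 1) (b + 1) (c - 1) (d - 1) =
          mn 1 0 0 0 * mn 0 1 0 0 * (mn 0 0 (-1) 0 * mn 0 0 0 (-1)) * mn a b c d := by
        rw [mn_mul, mn_mul, mn_mul, mn_mul]; congr 1 <;> ring
      rw [e, map_mul, map_mul, map_mul, map_mul, ← hz1, ← hz2, ← hw1', ← hw2']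
      linear_combination (Q (mn a b c d)) * xu
    have stp' : ∀ a b c d : ℤ, x * Q (mn (a - 1) (b - 1) (c + 1) (d + 1)) = x * Q (mn a b c d) := by
      intro a b c d
      have := stp (a - 1) (b - 1) (c + 1) (d + 1)
      rw [sub_add_cancel, sub_add_cancel, add_sub_cancel_right, add_sub_cancel_right] at this
      exact this.symm
    have all : ∀ (d a b : ℤ), x * Q (mn (d + a) (d + b) (-d) (-d)) = x * Q (mn a b 0 0) := by
      intro d a b
      induction d using Int.induction_on with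
      | zero => simp
      | succ i ih =>
        rw [← ih, ← stp (i + a) (i + b) (-i) (-i)]
        congr 3 <;> ring
      | pred i ih =>
        rw [← ih, ← stp' (-i + a) (-i + b) (-(-i)) (-(-i))]
        congr 3 <;> ring
    have zj : ∀ j : ℕ, Q (mn (j : ℤ) (-(j : ℤ)) 0 0) = (z1 * z2') ^ j := by
      intro j
      induction j with
      | zero => rw [pow_zero]; exact map_one Q
      | succ i ih =>
        rw [pow_succ, ← ih, hz1, hz2', ← map_mul, ← map_mul, mn_mul, mn_mul]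
        congr 2 <;> push_cast <;> ring
    have zj' : ∀ j : ℕ, Q (mn (-(j : ℤ)) (j : ℤ) 0 0) = (z1' * z2) ^ j := by
      intro j
      induction j with
      | zero => rw [pow_zero]; exact map_one Q
      | succ i ih =>
        rw [pow_succ, ← ih, hz1', hz2, ← map_mul, ← map_mul, mn_mul, mn_mul]
        congr 2 <;> push_cast <;> ring
    have k1 : z1 * z2' + z1' * z2 = x - 2 := by
      rw [hx]; linear_combination (-1 : AA Z4 ⧸ NI J) * i1 - i2
    have k2 : z1 * z2' * (z1' * z2) = 1 := by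
      linear_combination (z2 * z2') * i1 + i2
    have tj := tt_eq k1 k2 j
    have fin : Tendsto (EE J (mn (d + j) (d - j) (-d) (-d) * yy ρ0 (Polynomial.X * B) +
        mn (d - j) (d + j) (-d) (-d) * yy ρ0 (Polynomial.X * B) -
        yy ρ0 (Polynomial.X * B * tt j))) atTop (𝓝 0) := by
      refine mq _ ?_
      have a1 := all d j (-j)
      have a2 := all d (-j) j
      rw [← sub_eq_add_neg, zj] at a1
      rw [← sub_eq_add_neg, zj'] at a2
      rw [map_sub, map_add, map_mul, map_mul, qy, qy]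
      simp only [map_mul, Polynomial.aeval_X, tj]
      linear_combination (aeval x B) * a1 + (aeval x B) * a2
    refine fin.congr fun n => ?_
    rw [EE_sub, EE_add]

end

end Pool.Agent.J4H76.AP
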