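import Pool.Agent.J4H76.AP.Sup

/-! Real analysis of the symbols. -/
set_option autoImplicit false
open Filter Topology MeasureTheory

namespace Pool.Agent.J4H76.AP

noncomputable section

open Pool.Agent.J4H76.TP
open Polynomial (aeval)

/-- dominated convergence with a countable exceptional set -/
lemma ms_dom' {g : ℕ → ℝ → ℝ} (hg : ∀ N, Continuous (g N)) {M : ℝ} {S : Set ℝ}
    (hS : S.Countable) (hb : ∀ N θ, |g N θ| ≤ M)
    (h : ∀ θ, θ ∉ S → Tendsto (fun N => g N θ) atTop (𝓝 0)) :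
    Tendsto (fun N => ms (g N)) atTop (𝓝 0) := by
  have key : Tendsto (fun N : ℕ => ∫ θ in (0 : ℝ)..(2 * Real.pi), g N θ ^ 2) atTop
      (𝓝 (∫ _θ in (0 : ℝ)..(2 * Real.pi), (0 : ℝ))) := by
    refine intervalIntegral.tendsto_integral_filter_of_dominated_convergence
      (fun _ => M ^ 2)
      (Eventually.of_forall fun N => ((hg N).pow 2).aestronglyMeasurable)
      (Eventually.of_forall fun N => ae_of_all _ fun θ _ => ?_)
      (intervalIntegrable_const) ?_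
    · rw [Real.norm_eq_abs, abs_of_nonneg (sq_nonneg _), ← sq_abs]
      exact pow_le_pow_left₀ (abs_nonneg _) (hb N θ) 2
    · have h6 : ∀ᵐ θ : ℝ, θ ∉ S := measure_eq_zero_iff_ae_notMem.1 (hS.measure_zero volume)
      filter_upwards [h6] with θ hθ _
      have := (h θ hθ).pow 2
      rwa [zero_pow two_ne_zero] at this
  have k2 := key.const_mul (1 / (2 * Real.pi))
  simpa [ms] using k2

/-- a polynomial with small mean square and value `1` at three points -/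
lemma ex_p {ρ : ℝ} (h0 : 0 < ρ) (h1 : ρ < 1) {ε : ℝ} (hε : 0 < ε) : ∃ p : Polynomial ℝ,
    ms (fun θ => p.eval (Rf ρ θ)) < ε ∧ p.eval ((1 - ρ) ^ 2) = 1 ∧ p.eval ((1 + ρ) ^ 2) = 1 ∧
      p.eval (1 - ρ ^ 2) = 1 := by
  obtain ⟨Z, hZ⟩ : ∃ Z : ℝ → ℝ, Z = fun r => (r - (1 - ρ) ^ 2) * (r - (1 + ρ) ^ 2) *
      (r - (1 - ρ ^ 2)) := ⟨_, rfl⟩
  obtain ⟨q, hq⟩ : ∃ q : Polynomial ℝ, ∀ r, q.eval r = 1 - Z r ^ 2 / 4096 := by
    refine ⟨1 - Polynomial.C (1 / 4096) * ((Polynomial.X - Polynomial.C ((1 - ρ) ^ 2)) *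
      (Polynomial.X - Polynomial.C ((1 + ρ) ^ 2)) *
      (Polynomial.X - Polynomial.C (1 - ρ ^ 2))) ^ 2, fun r => ?_⟩
    rw [hZ]
    simp only [Polynomial.eval_sub, Polynomial.eval_one, Polynomial.eval_mul, Polynomial.eval_C,
      Polynomial.eval_X, Polynomial.eval_pow]
    ring
  have a4 : ∀ r s : ℝ, 0 ≤ r → r ≤ 4 → 0 ≤ s → s ≤ 4 → |r - s| ≤ 4 := by
    intro r s a b c d
    rw [abs_le]; constructor <;> linarith
  have hZb : ∀ r, 0 ≤ r → r ≤ 4 → Z r ^ 2 ≤ 4096 := by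
    intro r a b
    have b1 := a4 r ((1 - ρ) ^ 2) a b (sq_nonneg _) (by nlinarith)
    have b2 := a4 r ((1 + ρ) ^ 2) a b (sq_nonneg _) (by nlinarith)
    have b3 := a4 r (1 - ρ ^ 2) a b (by nlinarith) (by nlinarith)
    have b4 : |Z r| ≤ 64 := by
      rw [hZ]
      simp only [abs_mul]
      calc |r - (1 - ρ) ^ 2| * |r - (1 + ρ) ^ 2| * |r - (1 - ρ ^ 2)| ≤ (4 * 4) * 4 :=
            mul_le_mul (mul_le_mul b1 b2 (abs_nonneg _) (by norm_num)) b3 (abs_nonneg _)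
              (by norm_num)
        _ = 64 := by norm_num
    rw [← sq_abs]
    calc |Z r| ^ 2 ≤ 64 ^ 2 := pow_le_pow_left₀ (abs_nonneg _) b4 2
      _ = 4096 := by norm_num
  have hq1 : ∀ r, 0 ≤ r → r ≤ 4 → 0 ≤ q.eval r ∧ q.eval r ≤ 1 := by
    intro r a b
    rw [hq]
    have := hZb r a b
    have := sq_nonneg (Z r)
    constructor <;> linarith
  have lim : Tendsto (fun N : ℕ => ms (fun θ => (q ^ N).eval (Rf ρ θ))) atTop (𝓝 0) := by
    refine ms_dom' (M := 1) (S := {θ | Real.cos θ = -1} ∪ {θ | Real.cos θ = 1} ∪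
      {θ | Real.cos θ = -ρ}) (fun N => ?_) (((cnt _).union (cnt _)).union (cnt _))
      (fun N θ => ?_) (fun θ hθ => ?_)
    · exact (q ^ N).continuous.comp (Rf_cont.comp (continuous_const.prodMk continuous_id))
    · obtain ⟨a, b⟩ := Rf_bd h0.le h1.le θ
      obtain ⟨c, d⟩ := hq1 _ a b
      rw [Polynomial.eval_pow, abs_pow, abs_of_nonneg c]
      exact pow_le_one₀ c d
    · obtain ⟨a, b⟩ := Rf_bd h0.le h1.le θ
      obtain ⟨c, d⟩ := hq1 _ a b
      simp only [Set.mem_union, Set.mem_ofPred_eq, not_or] at hθ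
      obtain ⟨⟨t1, t2⟩, t3⟩ := hθ
      have lt : q.eval (Rf ρ θ) < 1 := by
        rw [hq]
        have : Z (Rf ρ θ) ≠ 0 := by
          rw [hZ]
          unfold Rf
          refine mul_ne_zero (mul_ne_zero ?_ ?_) ?_
          · have e : 1 + ρ ^ 2 + 2 * ρ * Real.cos θ - (1 - ρ) ^ 2 =
                2 * ρ * (Real.cos θ + 1) := by ring
            rw [e]
            refine mul_ne_zero (by positivity) fun h => t1 (by linarith)
          · have e : 1 + ρ ^ 2 + 2 * ρ * Real.cos θ - (1 + ρ) ^ 2 =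
                2 * ρ * (Real.cos θ - 1) := by ring
            rw [e]
            refine mul_ne_zero (by positivity) fun h => t2 (by linarith)
          · have e : 1 + ρ ^ 2 + 2 * ρ * Real.cos θ - (1 - ρ ^ 2) =
                2 * ρ * (Real.cos θ + ρ) := by ring
            rw [e]
            refine mul_ne_zero (by positivity) fun h => t3 (by linarith)
        have : 0 < Z (Rf ρ θ) ^ 2 := by positivity
        linarith
      simp only [Polynomial.eval_pow]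
      exact tendsto_pow_atTop_nhds_zero_of_lt_one c lt
  obtain ⟨N, hN⟩ := (lim.eventually (gt_mem_nhds hε)).exists
  refine ⟨q ^ N, hN, ?_, ?_, ?_⟩ <;>
  · rw [Polynomial.eval_pow, hq, hZ]
    simp

/-- the polynomial `A = 1 - Sp / 2` -/
lemma ex_A {ρ : ℝ} (h0 : 0 < ρ) {p : Polynomial ℝ} (h1 : p.eval ((1 - ρ) ^ 2) = 1)
    (h2 : p.eval ((1 + ρ) ^ 2) = 1) (h3 : p.eval (1 - ρ ^ 2) = 1) : ∃ A2 : Polynomial ℝ,
    1 - Polynomial.C (1 / 2) * Sp ρ p = Polynomial.X * ((Polynomial.C (4 * ρ ^ 2) - Polynomial.X) *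
      A2) := by
  have v : ∀ x r1 r2 : ℝ, r1 + r2 = 2 * (1 + ρ ^ 2) - x → r1 * r2 = (1 - ρ ^ 2) ^ 2 →
      (Sp ρ p).eval x = p.eval r1 ^ 2 + p.eval r2 ^ 2 := by
    intro x r1 r2 a b
    have := Sp_eq (A := ℝ) (ρ0 := ρ) (x := x) (r1 := r1) (r2 := r2) a b p
    simpa only [Polynomial.coe_aeval_eq_eval] using this
  have v0 := v 0 ((1 - ρ) ^ 2) ((1 + ρ) ^ 2) (by ring) (by ring)
  have v1 := v (4 * ρ ^ 2) (1 - ρ ^ 2) (1 - ρ ^ 2) (by ring) (by ring)
  rw [h1, h2] at v0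
  rw [h3] at v1
  obtain ⟨A, hA⟩ : ∃ A : Polynomial ℝ, A = 1 - Polynomial.C (1 / 2) * Sp ρ p := ⟨_, rfl⟩
  have A0 : A.eval 0 = 0 := by
    rw [hA, Polynomial.eval_sub, Polynomial.eval_one, Polynomial.eval_mul, Polynomial.eval_C, v0]
    norm_num
  have A4 : A.eval (4 * ρ ^ 2) = 0 := by
    rw [hA, Polynomial.eval_sub, Polynomial.eval_one, Polynomial.eval_mul, Polynomial.eval_C, v1]
    norm_num
  rw [← hA]
  obtain ⟨A1, hA1⟩ := Polynomial.dvd_iff_isRoot.2 A0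
  rw [Polynomial.C_0, sub_zero] at hA1
  have A14 : A1.eval (4 * ρ ^ 2) = 0 := by
    rw [hA1, Polynomial.eval_mul, Polynomial.eval_X] at A4
    rcases mul_eq_zero.1 A4 with h | h
    · exact absurd h (by positivity)
    · exact h
  obtain ⟨A2, hA2⟩ := Polynomial.dvd_iff_isRoot.2 A14
  refine ⟨-A2, ?_⟩
  rw [hA1, hA2]; ring

/-- `2 cos (j θ)` -/
lemma tt_cos (j : ℕ) (t : ℝ) : (tt j).eval (2 + 2 * Real.cos t) = 2 * Real.cos (j * t) := by
  have h := tt_eq (A := ℂ) (x := ((2 + 2 * Real.cos t : ℝ) : ℂ)) (r1 := Complex.exp (t * Complex.I))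
    (r2 := Complex.exp (-t * Complex.I)) ?_ ?_ j
  · have h2 := Polynomial.aeval_algHom_apply Complex.ofRealAm (2 + 2 * Real.cos t) (tt j)
    simp only [Complex.ofRealAm_coe] at h2
    rw [h2, Polynomial.coe_aeval_eq_eval, ← Complex.exp_nat_mul, ← Complex.exp_nat_mul] at h
    have h3 : (((2 * Real.cos (j * t) : ℝ)) : ℂ) = Complex.exp (j * (t * Complex.I)) +
        Complex.exp (j * (-t * Complex.I)) := by
      push_cast
      rw [Complex.two_cos]
      congr 2 <;> ring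
    rw [← h3] at h
    exact_mod_cast h
  · push_cast
    have := Complex.two_cos (t : ℂ)
    rw [← this]; ring
  · rw [← Complex.exp_add]
    have : (t : ℂ) * Complex.I + -t * Complex.I = 0 := by ring
    rw [this, Complex.exp_zero]

/-- the angle -/
def vt (ρ y : ℝ) : ℝ := 2 * Real.arccos (ρ * Real.cos (y / 2))

lemma rc_bd {ρ : ℝ} (h0 : 0 < ρ) (h1 : ρ < 1) (y : ℝ) :
    |ρ * Real.cos (y / 2)| ≤ ρ := by
  rw [abs_mul, abs_of_pos h0]
  have := mul_le_mul_of_nonneg_left (Real.abs_cos_le_one (y / 2)) h0.le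
  linarith

lemma vt_cos {ρ : ℝ} (h0 : 0 < ρ) (h1 : ρ < 1) (y : ℝ) :
    Xf ρ y = 2 + 2 * Real.cos (vt ρ y) := by
  obtain ⟨a, b⟩ := abs_le.1 (rc_bd h0 h1 y)
  unfold vt Xf
  rw [Real.cos_two_mul, Real.cos_arccos (by linarith) (by linarith)]
  have : Real.cos y = 2 * Real.cos (y / 2) ^ 2 - 1 := by
    rw [← Real.cos_two_mul]; congr 1; ring
  rw [this]; ring

/-- the derivative of the angle -/
def vd (ρ y : ℝ) : ℝ := ρ * Real.sin (y / 2) / √(1 - (ρ * Real.cos (y / 2)) ^ 2)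

lemma rad_pos {ρ : ℝ} (h0 : 0 < ρ) (h1 : ρ < 1) (y : ℝ) :
    1 - ρ ^ 2 ≤ 1 - (ρ * Real.cos (y / 2)) ^ 2 := by
  have := rc_bd h0 h1 y
  have h2 : |ρ * Real.cos (y / 2)| ^ 2 ≤ ρ ^ 2 := pow_le_pow_left₀ (abs_nonneg _) this 2
  rw [sq_abs] at h2
  linarith

lemma vt_der {ρ : ℝ} (h0 : 0 < ρ) (h1 : ρ < 1) (y : ℝ) : HasDerivAt (vt ρ) (vd ρ y) y := by
  obtain ⟨a, b⟩ := abs_le.1 (rc_bd h0 h1 y)
  have d1 : HasDerivAt (fun y : ℝ => y / 2) (1 / 2) y := (hasDerivAt_id y).div_const 2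
  have d2 := (Real.hasDerivAt_cos (y / 2)).comp y d1
  have d3 := d2.const_mul ρ
  have d4 := (Real.hasDerivAt_arccos (x := ρ * Real.cos (y / 2)) (by linarith)
    (by linarith)).comp y d3
  have d5 := d4.const_mul 2
  have e : vd ρ y = 2 * (-(1 / √(1 - (ρ * Real.cos (y / 2)) ^ 2)) *
      (ρ * (-Real.sin (y / 2) * (1 / 2)))) := by
    unfold vd; ring
  rw [e]
  exact d5

lemma vd_cont {ρ : ℝ} (h0 : 0 < ρ) (h1 : ρ < 1) : Continuous (vd ρ) := by
  unfold vd
  refine Continuous.div (by fun_prop) (by fun_prop) fun y => ?_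
  have h2 := rad_pos h0 h1 y
  have h3 : 0 < 1 - ρ ^ 2 := by nlinarith
  exact (Real.sqrt_pos.2 (by linarith)).ne'

lemma vd_ge {ρ : ℝ} (h0 : 0 < ρ) (h1 : ρ < 1) {y : ℝ} (hy : 0 ≤ Real.sin (y / 2)) :
    ρ * Real.sin (y / 2) ≤ vd ρ y := by
  unfold vd
  have h2 := rad_pos h0 h1 y
  have h3 : 0 < 1 - ρ ^ 2 := by nlinarith
  have h4 : 0 < √(1 - (ρ * Real.cos (y / 2)) ^ 2) := Real.sqrt_pos.2 (by linarith)
  rw [le_div_iff₀ h4]
  have h5 : √(1 - (ρ * Real.cos (y / 2)) ^ 2) ≤ 1 := by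
    rw [Real.sqrt_le_one]
    nlinarith [sq_nonneg (ρ * Real.cos (y / 2))]
  have h6 : 0 ≤ ρ * Real.sin (y / 2) := by positivity
  nlinarith

lemma icos {m : ℤ} (hm : m ≠ 0) : ∫ t in (0 : ℝ)..(2 * Real.pi), Real.cos (m * t) = 0 := by
  have hm' : (m : ℝ) ≠ 0 := by exact_mod_cast hm
  rw [intervalIntegral.integral_comp_mul_left (fun x => Real.cos x) hm', integral_cos]
  have e : (m : ℝ) * (2 * Real.pi) = ((2 * m : ℤ) : ℝ) * Real.pi := by push_cast; ring
  rw [e, Real.sin_int_mul_pi]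
  simp

/-- Bessel's inequality for the cosines -/
lemma cos_bes (K : ℕ) (c : ℕ → ℝ) : ∫ t in (0 : ℝ)..(2 * Real.pi),
    (∑ j ∈ Finset.range K, c j * (2 * Real.cos (j * t))) ^ 2 ≤
      8 * Real.pi * ∑ j ∈ Finset.range K, c j ^ 2 := by
  have pp := Real.pi_pos
  have e1 : ∀ t : ℝ, (∑ j ∈ Finset.range K, c j * (2 * Real.cos (j * t))) ^ 2 =
      ∑ j ∈ Finset.range K, ∑ k ∈ Finset.range K, 2 * (c j * c k) *
        (Real.cos (((j : ℤ) - k : ℤ) * t) + Real.cos (((j : ℤ) + k : ℤ) * t)) := by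
    intro t
    rw [sq, Finset.sum_mul_sum]
    refine Finset.sum_congr rfl fun j _ => Finset.sum_congr rfl fun k _ => ?_
    have a1 := Real.cos_add (j * t) (k * t)
    have a2 := Real.cos_sub (j * t) (k * t)
    have e2 : (((j : ℤ) - k : ℤ) : ℝ) * t = j * t - k * t := by push_cast; ring
    have e3 : (((j : ℤ) + k : ℤ) : ℝ) * t = j * t + k * t := by push_cast; ring
    rw [e2, e3, a1, a2]; ring
  simp only [e1]
  have ii : ∀ (j k : ℕ), IntervalIntegrable (fun t => 2 * (c j * c k) *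
      (Real.cos (((j : ℤ) - k : ℤ) * t) + Real.cos (((j : ℤ) + k : ℤ) * t))) volume 0
      (2 * Real.pi) := fun j k => Continuous.intervalIntegrable (by fun_prop) _ _
  have e4 : ∀ j k : ℕ, ∫ t in (0 : ℝ)..(2 * Real.pi), 2 * (c j * c k) *
      (Real.cos (((j : ℤ) - k : ℤ) * t) + Real.cos (((j : ℤ) + k : ℤ) * t)) =
      2 * (c j * c k) * ((if k = j then 2 * Real.pi else 0) +
        (if j = 0 ∧ k = 0 then 2 * Real.pi else 0)) := by
    intro j k
    rw [intervalIntegral.integral_const_mul, intervalIntegral.integral_add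
      (Continuous.intervalIntegrable (by fun_prop) _ _)
      (Continuous.intervalIntegrable (by fun_prop) _ _)]
    congr 2
    · by_cases h : k = j
      · subst h; rw [if_pos rfl]; simp
      · rw [if_neg h, icos (by omega)]
    · by_cases h : j = 0 ∧ k = 0
      · obtain ⟨rfl, rfl⟩ := h; simp
      · rw [if_neg h, icos (by omega)]
  rw [intervalIntegral.integral_finsetSum fun j _ => by
    have := fun k (_ : k ∈ Finset.range K) => ii j k
    exact Continuous.intervalIntegrable (by fun_prop) _ _]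
  have e5 : ∀ j ∈ Finset.range K, ∫ t in (0 : ℝ)..(2 * Real.pi), ∑ k ∈ Finset.range K,
      2 * (c j * c k) * (Real.cos (((j : ℤ) - k : ℤ) * t) + Real.cos (((j : ℤ) + k : ℤ) * t)) ≤
      8 * Real.pi * c j ^ 2 := by
    intro j hj
    rw [intervalIntegral.integral_finsetSum fun k _ => ii j k]
    simp only [e4]
    rw [Finset.sum_eq_single j]
    · rw [if_pos rfl]
      have : (if j = 0 ∧ j = 0 then 2 * Real.pi else 0) ≤ 2 * Real.pi := by
        split_ifs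
        · exact le_rfl
        · positivity
      nlinarith [sq_nonneg (c j)]
    · intro k _ hk
      rw [if_neg hk, if_neg]
      · ring
      · rintro ⟨rfl, rfl⟩; exact hk rfl
    · intro h; exact absurd hj h
  calc _ ≤ ∑ j ∈ Finset.range K, 8 * Real.pi * c j ^ 2 := Finset.sum_le_sum e5
    _ = _ := by rw [Finset.mul_sum]

end

end Pool.Agent.J4H76.AP
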