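import Pool.Agent.J4H76.AP.Ana

/-! The Bessel bound and the error term. -/
set_option autoImplicit false
open Filter Topology MeasureTheory

namespace Pool.Agent.J4H76.AP

noncomputable section

open Pool.Agent.J4H76.TP
open Polynomial (aeval)

/-- the polynomial `A` -/
def Ap (ρ : ℝ) (A2 : Polynomial ℝ) : Polynomial ℝ :=
  Polynomial.X * ((Polynomial.C (4 * ρ ^ 2) - Polynomial.X) * A2)

lemma Ap_eval (ρ : ℝ) (A2 : Polynomial ℝ) (x : ℝ) :
    (Ap ρ A2).eval x = x * ((4 * ρ ^ 2 - x) * A2.eval x) := by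
  unfold Ap
  simp only [Polynomial.eval_mul, Polynomial.eval_sub, Polynomial.eval_C, Polynomial.eval_X]

lemma Xf_half (ρ y : ℝ) : Xf ρ y = 4 * ρ ^ 2 * Real.cos (y / 2) ^ 2 := by
  unfold Xf
  have : Real.cos y = 2 * Real.cos (y / 2) ^ 2 - 1 := by
    rw [← Real.cos_two_mul]; congr 1; ring
  rw [this]; ring

lemma Xf_mem {ρ : ℝ} (h0 : 0 < ρ) (h1 : ρ < 1) (y : ℝ) : 0 ≤ Xf ρ y ∧ Xf ρ y ≤ 4 := by
  rw [Xf_half]
  have a := Real.cos_sq_le_one (y / 2)
  have b := sq_nonneg (Real.cos (y / 2))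
  have c : ρ ^ 2 ≤ 1 := by nlinarith
  have d := sq_nonneg ρ
  constructor
  · positivity
  · nlinarith

lemma ex_M (A2 : Polynomial ℝ) : ∃ M : ℝ, 0 ≤ M ∧ ∀ x, 0 ≤ x → x ≤ 4 → |A2.eval x| ≤ M := by
  obtain ⟨M, hM⟩ := isCompact_Icc.exists_bound_of_continuousOn (s := Set.Icc (0 : ℝ) 4)
    (f := fun x => A2.eval x) A2.continuous.continuousOn
  refine ⟨M, (norm_nonneg _).trans (hM 0 ⟨le_rfl, by norm_num⟩), fun x a b => ?_⟩
  rw [← Real.norm_eq_abs]; exact hM x ⟨a, b⟩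

lemma ms_le {g : ℝ → ℝ} (hg : Continuous g) {M : ℝ} (h : ∀ θ, |g θ| ≤ M) : ms g ≤ M ^ 2 := by
  have pp := Real.pi_pos
  unfold ms
  have h1 : ∫ θ in (0 : ℝ)..(2 * Real.pi), g θ ^ 2 ≤
      ∫ _θ in (0 : ℝ)..(2 * Real.pi), M ^ 2 := by
    refine intervalIntegral.integral_mono_on (by positivity)
      ((hg.pow 2).intervalIntegrable _ _) (continuous_const.intervalIntegrable _ _) fun θ _ => ?_
    rw [← sq_abs]
    exact pow_le_pow_left₀ (abs_nonneg _) (h θ) 2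
  rw [intervalIntegral.integral_const, smul_eq_mul, sub_zero] at h1
  have h2 : 1 / (2 * Real.pi) * (∫ θ in (0 : ℝ)..(2 * Real.pi), g θ ^ 2) ≤
      1 / (2 * Real.pi) * (2 * Real.pi * M ^ 2) := mul_le_mul_of_nonneg_left h1 (by positivity)
  have h3 : 1 / (2 * Real.pi) * (2 * Real.pi * M ^ 2) = M ^ 2 := by field_simp
  rwa [h3] at h2

/-- **the Bessel bound** -/
lemma lam {ρ : ℝ} (h0 : 0 < ρ) (h1 : ρ < 1) (A2 : Polynomial ℝ) : ∃ Λ : ℝ, 0 ≤ Λ ∧
    ∀ (K : ℕ) (c : ℕ → ℝ), ms (fun y => (∑ j ∈ Finset.range K, Polynomial.C (c j) *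
      (Ap ρ A2 * tt j)).eval (Xf ρ y)) ≤ Λ * ∑ j ∈ Finset.range K, c j ^ 2 := by
  have pp := Real.pi_pos
  obtain ⟨M, hM0, hM⟩ := ex_M A2
  refine ⟨256 * M ^ 2 / ρ * 4, by positivity, fun K c => ?_⟩
  obtain ⟨F, hF⟩ : ∃ F : ℝ → ℝ, F = fun t => ∑ j ∈ Finset.range K, c j * (2 * Real.cos (j * t)) :=
    ⟨_, rfl⟩
  have Fc : Continuous F := by rw [hF]; fun_prop
  have ev : ∀ y, (∑ j ∈ Finset.range K, Polynomial.C (c j) * (Ap ρ A2 * tt j)).eval (Xf ρ y) =
      (Ap ρ A2).eval (Xf ρ y) * F (vt ρ y) := by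
    intro y
    rw [Polynomial.eval_finsetSum, hF]
    simp only
    rw [Finset.mul_sum]
    refine Finset.sum_congr rfl fun j _ => ?_
    rw [Polynomial.eval_mul, Polynomial.eval_mul, Polynomial.eval_C]
    have : (tt j).eval (Xf ρ y) = 2 * Real.cos (j * vt ρ y) := by
      rw [vt_cos h0 h1 y, tt_cos]
    rw [this]; ring
  simp only [ev]
  have bd : ∀ y ∈ Set.Icc (0 : ℝ) (2 * Real.pi), ((Ap ρ A2).eval (Xf ρ y) * F (vt ρ y)) ^ 2 ≤
      256 * M ^ 2 / ρ * (((fun t => F t ^ 2) ∘ vt ρ) y * vd ρ y) := by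
    intro y hy
    have s0 : 0 ≤ Real.sin (y / 2) :=
      Real.sin_nonneg_of_nonneg_of_le_pi (by linarith [hy.1]) (by linarith [hy.2])
    have s1 := Real.sin_le_one (y / 2)
    obtain ⟨S, hS⟩ : ∃ S, S = Real.sin (y / 2) := ⟨_, rfl⟩
    have v1 := vd_ge h0 h1 s0
    obtain ⟨x0, x4⟩ := Xf_mem h0 h1 y
    have xs : 4 * ρ ^ 2 - Xf ρ y = 4 * ρ ^ 2 * S ^ 2 := by
      rw [Xf_half, hS, Real.sin_sq]; ring
    have b1 := hM _ x0 x4
    have b2 : |(Ap ρ A2).eval (Xf ρ y)| ≤ 16 * M * S ^ 2 := by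
      rw [Ap_eval, xs, abs_mul, abs_mul, abs_of_nonneg x0,
        abs_of_nonneg (by positivity : 0 ≤ 4 * ρ ^ 2 * S ^ 2)]
      have c1 : 4 * ρ ^ 2 * S ^ 2 ≤ 4 * S ^ 2 := by
        have : ρ ^ 2 ≤ 1 := by nlinarith
        nlinarith [sq_nonneg S]
      calc Xf ρ y * (4 * ρ ^ 2 * S ^ 2 * |A2.eval (Xf ρ y)|) ≤ 4 * ((4 * S ^ 2) * M) :=
            mul_le_mul x4 (mul_le_mul c1 b1 (abs_nonneg _) (by positivity)) (by positivity)
              (by norm_num)
        _ = _ := by ring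
    have b3 : (Ap ρ A2).eval (Xf ρ y) ^ 2 ≤ 256 * M ^ 2 / ρ * vd ρ y := by
      have c1 : (Ap ρ A2).eval (Xf ρ y) ^ 2 ≤ (16 * M * S ^ 2) ^ 2 := by
        rw [← sq_abs]; exact pow_le_pow_left₀ (abs_nonneg _) b2 2
      rw [← hS] at s0 s1 v1
      have c2 : S ^ 4 ≤ S := by
        have : S ^ 3 ≤ 1 := pow_le_one₀ s0 s1
        calc S ^ 4 = S * S ^ 3 := by ring
          _ ≤ S * 1 := mul_le_mul_of_nonneg_left this s0
          _ = S := by ring
      have c3 : S ≤ vd ρ y / ρ := by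
        rw [le_div_iff₀ h0]; linarith
      calc (Ap ρ A2).eval (Xf ρ y) ^ 2 ≤ (16 * M * S ^ 2) ^ 2 := c1
        _ = 256 * M ^ 2 * S ^ 4 := by ring
        _ ≤ 256 * M ^ 2 * (vd ρ y / ρ) :=
            mul_le_mul_of_nonneg_left (c2.trans c3) (by positivity)
        _ = _ := by ring
    calc ((Ap ρ A2).eval (Xf ρ y) * F (vt ρ y)) ^ 2 =
          (Ap ρ A2).eval (Xf ρ y) ^ 2 * F (vt ρ y) ^ 2 := by ring
      _ ≤ (256 * M ^ 2 / ρ * vd ρ y) * F (vt ρ y) ^ 2 :=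
          mul_le_mul_of_nonneg_right b3 (sq_nonneg _)
      _ = _ := by simp only [Function.comp_apply]; ring
  have vtc : Continuous (vt ρ) := by unfold vt; fun_prop
  have xfc : Continuous (fun y => Xf ρ y) := Xf_cont.comp (continuous_const.prodMk continuous_id)
  have m1 : ∫ y in (0 : ℝ)..(2 * Real.pi), ((Ap ρ A2).eval (Xf ρ y) * F (vt ρ y)) ^ 2 ≤
      ∫ y in (0 : ℝ)..(2 * Real.pi), 256 * M ^ 2 / ρ *
        (((fun t => F t ^ 2) ∘ vt ρ) y * vd ρ y) := by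
    refine intervalIntegral.integral_mono_on (by positivity) ?_ ?_ bd
    · exact ((((Ap ρ A2).continuous.comp xfc).mul (Fc.comp vtc)).pow 2).intervalIntegrable _ _
    · exact (continuous_const.mul ((((Fc.pow 2).comp vtc)).mul
        (vd_cont h0 h1))).intervalIntegrable _ _
  have Fc2 : Continuous (fun t => F t ^ 2) := Fc.pow 2
  rw [intervalIntegral.integral_const_mul, intervalIntegral.integral_comp_mul_deriv
    (fun x _ => vt_der h0 h1 x) (vd_cont h0 h1).continuousOn Fc2] at m1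
  have m2 : ∫ t in vt ρ 0..vt ρ (2 * Real.pi), F t ^ 2 ≤
      ∫ t in (0 : ℝ)..(2 * Real.pi), F t ^ 2 := by
    refine intervalIntegral.integral_mono_interval ?_ ?_ ?_
      (Eventually.of_forall fun t => sq_nonneg _) ((Fc.pow 2).intervalIntegrable _ _)
    · unfold vt; have := Real.arccos_nonneg (ρ * Real.cos (0 / 2)); positivity
    · unfold vt
      have e1 : (2 * Real.pi) / 2 = Real.pi := by ring
      rw [e1, Real.cos_pi, zero_div, Real.cos_zero, mul_one]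
      have : Real.arccos ρ ≤ Real.arccos (ρ * -1) := Real.antitone_arccos (by linarith)
      linarith
    · unfold vt
      have := Real.arccos_le_pi (ρ * Real.cos (2 * Real.pi / 2))
      linarith
  have m3 := cos_bes K c
  have m4 : ∫ t in (0 : ℝ)..(2 * Real.pi), F t ^ 2 ≤
      8 * Real.pi * ∑ j ∈ Finset.range K, c j ^ 2 := by rw [hF]; exact m3
  unfold ms
  have m5 : ∫ y in (0 : ℝ)..(2 * Real.pi), ((Ap ρ A2).eval (Xf ρ y) * F (vt ρ y)) ^ 2 ≤
      256 * M ^ 2 / ρ * (8 * Real.pi * ∑ j ∈ Finset.range K, c j ^ 2) :=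
    m1.trans (mul_le_mul_of_nonneg_left (m2.trans m4) (by positivity))
  calc _ ≤ 1 / (2 * Real.pi) * (256 * M ^ 2 / ρ * (8 * Real.pi *
        ∑ j ∈ Finset.range K, c j ^ 2)) := mul_le_mul_of_nonneg_left m5 (by positivity)
    _ = _ := by field_simp; ring

/-- the error polynomial -/
def EK (A : Polynomial ℝ) (K : ℕ) : Polynomial ℝ :=
  (∑ j ∈ Finset.range K, A * tt j * tt j) - Polynomial.C (2 * (K : ℝ)) * A

lemma tel (K : ℕ) (t : ℝ) : 2 * Real.sin t * ∑ j ∈ Finset.range K, Real.cos (2 * (j * t)) =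
    Real.sin ((2 * K - 1) * t) + Real.sin t := by
  induction K with
  | zero =>
    simp only [Finset.range_zero, Finset.sum_empty, mul_zero, Nat.cast_zero, zero_sub]
    rw [neg_one_mul, Real.sin_neg]; ring
  | succ k ih =>
    rw [Finset.sum_range_succ, mul_add, ih]
    have a1 := Real.sin_add (2 * (k * t)) t
    have a2 := Real.sin_sub (2 * (k * t)) t
    have e1 : (2 * ((k + 1 : ℕ) : ℝ) - 1) * t = 2 * (k * t) + t := by push_cast; ring
    have e2 : (2 * (k : ℝ) - 1) * t = 2 * (k * t) - t := by ring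
    rw [e1, e2, a1, a2]; ring

/-- the error is bounded -/
lemma EKb {ρ : ℝ} (h0 : 0 < ρ) (h1 : ρ < 1) (A2 : Polynomial ℝ) : ∃ C : ℝ, 0 ≤ C ∧
    ∀ K : ℕ, ms (fun y => (EK (Ap ρ A2) K).eval (Xf ρ y)) ≤ C := by
  obtain ⟨M, hM0, hM⟩ := ex_M A2
  have r0 : 0 < 1 - ρ ^ 2 := by nlinarith
  obtain ⟨s, hs⟩ : ∃ s, s = √(1 - ρ ^ 2) := ⟨_, rfl⟩
  have s0 : 0 < s := by rw [hs]; exact Real.sqrt_pos.2 r0
  refine ⟨(16 * M / s) ^ 2, by positivity, fun K => ms_le ?_ fun y => ?_⟩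
  · exact (EK (Ap ρ A2) K).continuous.comp (Xf_cont.comp (continuous_const.prodMk continuous_id))
  · obtain ⟨t, ht⟩ : ∃ t, t = vt ρ y := ⟨_, rfl⟩
    have xe : Xf ρ y = 2 + 2 * Real.cos t := by rw [ht]; exact vt_cos h0 h1 y
    have ev : (EK (Ap ρ A2) K).eval (Xf ρ y) = (Ap ρ A2).eval (Xf ρ y) *
        (2 * ∑ j ∈ Finset.range K, Real.cos (2 * (j * t))) := by
      unfold EK
      rw [Polynomial.eval_sub, Polynomial.eval_finsetSum, Polynomial.eval_mul,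
        Polynomial.eval_C]
      have e1 : ∀ j ∈ Finset.range K, (Ap ρ A2 * tt j * tt j).eval (Xf ρ y) =
          (Ap ρ A2).eval (Xf ρ y) * (2 * Real.cos (2 * (j * t)) + 2) := by
        intro j _
        rw [Polynomial.eval_mul, Polynomial.eval_mul]
        have : (tt j).eval (Xf ρ y) = 2 * Real.cos (j * t) := by rw [xe, tt_cos]
        rw [this, Real.cos_two_mul]; ring
      rw [Finset.sum_congr rfl e1, ← Finset.mul_sum, Finset.sum_add_distrib, Finset.sum_const,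
        Finset.card_range, nsmul_eq_mul, ← Finset.mul_sum]
      ring
    obtain ⟨a, b⟩ := abs_le.1 (rc_bd h0 h1 y)
    have ct : Real.cos (t / 2) = ρ * Real.cos (y / 2) := by
      rw [ht]; unfold vt
      rw [mul_div_cancel_left₀ _ (by norm_num : (2 : ℝ) ≠ 0),
        Real.cos_arccos (by linarith) (by linarith)]
    have st : s ≤ |Real.sin (t / 2)| := by
      have e1 : |Real.sin (t / 2)| = √(1 - (ρ * Real.cos (y / 2)) ^ 2) := by
        rw [← ct, ← Real.sin_sq, Real.sqrt_sq_eq_abs]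
      rw [e1, hs]
      exact Real.sqrt_le_sqrt (rad_pos h0 h1 y)
    have sn : Real.sin t = 2 * Real.sin (t / 2) * Real.cos (t / 2) := by
      rw [← Real.sin_two_mul]; congr 1; ring
    obtain ⟨x0, x4⟩ := Xf_mem h0 h1 y
    have xb : Xf ρ y ≤ 2 / s * |Real.sin t| := by
      rw [sn, abs_mul, abs_mul, abs_of_pos (by norm_num : (0 : ℝ) < 2), Xf_half]
      have e1 : 4 * ρ ^ 2 * Real.cos (y / 2) ^ 2 = 4 * |Real.cos (t / 2)| ^ 2 := by
        rw [sq_abs, ct]; ring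
      rw [e1]
      have c0 := abs_nonneg (Real.cos (t / 2))
      have c1 := Real.abs_cos_le_one (t / 2)
      obtain ⟨C, hC⟩ : ∃ C, C = |Real.cos (t / 2)| := ⟨_, rfl⟩
      rw [← hC] at c0 c1 ⊢
      have e2 : 2 / s * (2 * |Real.sin (t / 2)| * C) = 4 * C * (|Real.sin (t / 2)| / s) := by
        field_simp; ring
      rw [e2]
      have e3 : 1 ≤ |Real.sin (t / 2)| / s := by rw [le_div_iff₀ s0]; linarith
      have e4 : C ^ 2 ≤ C := by nlinarith
      nlinarith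
    have tl := tel K t
    obtain ⟨Sg, hSg⟩ : ∃ Sg, Sg = ∑ j ∈ Finset.range K, Real.cos (2 * (j * t)) := ⟨_, rfl⟩
    rw [← hSg] at tl ev
    have sb : |Real.sin t| * |2 * Sg| ≤ 2 := by
      rw [← abs_mul]
      have : Real.sin t * (2 * Sg) = Real.sin ((2 * K - 1) * t) + Real.sin t := by
        rw [← tl]; ring
      rw [this]
      have u1 := abs_add_le (Real.sin ((2 * K - 1) * t)) (Real.sin t)
      have u2 := Real.abs_sin_le_one ((2 * K - 1) * t)
      have u3 := Real.abs_sin_le_one t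
      linarith
    rw [ev, Ap_eval, abs_mul, abs_mul, abs_mul, abs_of_nonneg x0]
    have c2 : |4 * ρ ^ 2 - Xf ρ y| ≤ 4 := by
      have : ρ ^ 2 ≤ 1 := by nlinarith
      rw [abs_le]; constructor <;> nlinarith [sq_nonneg ρ]
    have c3 := hM _ x0 x4
    have c4 : |4 * ρ ^ 2 - Xf ρ y| * |A2.eval (Xf ρ y)| ≤ 4 * M :=
      mul_le_mul c2 c3 (abs_nonneg _) (by norm_num)
    have c5 : 0 ≤ |4 * ρ ^ 2 - Xf ρ y| * |A2.eval (Xf ρ y)| := by positivity
    calc Xf ρ y * (|4 * ρ ^ 2 - Xf ρ y| * |A2.eval (Xf ρ y)|) * |2 * Sg| ≤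
          (2 / s * |Real.sin t|) * (4 * M) * |2 * Sg| := by
            refine mul_le_mul_of_nonneg_right ?_ (abs_nonneg _)
            exact mul_le_mul xb c4 c5 (by positivity)
      _ = 8 * M / s * (|Real.sin t| * |2 * Sg|) := by ring
      _ ≤ 8 * M / s * 2 := mul_le_mul_of_nonneg_left sb (by positivity)
      _ = 16 * M / s := by ring

end

end Pool.Agent.J4H76.AP
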