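import Pool.Agent.J4H76.AP.Dom3

/-! The averaged functionals satisfy the hypotheses of the abstract theorem. -/
set_option autoImplicit false
open MeasureTheory Filter Topology Complex Set
open scoped ContDiff Real Manifold

namespace Pool.Agent.J4H76.AP

noncomputable section

open Pool.Agent.W745.RW Pool.Agent.TH294.RS Pool.Agent.Y265.HY Pool.Agent.R314.JN
open Pool.Agent.J4H76.TP
open AddMonoidAlgebra (single)

/-- the relations of a quartic system -/
lemma QSrel {ρ : BS} {J : Z4 → ℕ → ℂ} (H : QS ρ J) (a b c d : ℤ) :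
    Tendsto (fun n => J (1 + a, b, c, d) n + J (a, 1 + b, c, d) n +
      ((ρ.1 n : ℝ) : ℂ) * (J (a, b, 1 + c, d) n + J (a, b, c, 1 + d) n)) atTop (𝓝 0) ∧
    Tendsto (fun n => J (-1 + a, b, c, d) n + J (a, -1 + b, c, d) n +
      ((ρ.1 n : ℝ) : ℂ) * (J (a, b, -1 + c, d) n + J (a, b, c, -1 + d) n)) atTop (𝓝 0) ∧
    Tendsto (fun n => J (1 + a, 1 + b, -1 + c, -1 + d) n +
      J (-1 + a, -1 + b, 1 + c, 1 + d) n - (J (a, b, c, d) n + J (a, b, c, d) n)) atTop (𝓝 0) := by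
  refine ⟨(H.t (single (a, b, c, d) 1)).congr fun n => ?_,
    (H.t' (single (a, b, c, d) 1)).congr fun n => ?_,
    (H.nf (single (a, b, c, d) 1)).congr fun n => ?_⟩
  · rw [Pool.Agent.J4H76.TP.TT, add_mul, add_mul, mul_assoc, add_mul, EE_add, EE_add, EE_cs, EE_add, EE_mn, EE_mn,
      EE_mn, EE_mn]
    simp only [zero_add]
  · rw [Pool.Agent.J4H76.TP.TT', add_mul, add_mul, mul_assoc, add_mul, EE_add, EE_add, EE_cs, EE_add, EE_mn, EE_mn,
      EE_mn, EE_mn]
    simp only [zero_add]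
  · have e2 : NF * single (a, b, c, d) (1 : BS) = mn 1 1 (-1) (-1) * single (a, b, c, d) 1 +
        mn (-1) (-1) 1 1 * single (a, b, c, d) 1 -
        (mn 0 0 0 0 * single (a, b, c, d) 1 + mn 0 0 0 0 * single (a, b, c, d) 1) := by
      rw [NF, mn_one]; ring
    rw [e2, EE_sub, EE_add, EE_add, EE_mn, EE_mn, EE_mn]
    simp only [zero_add]

variable {B : Set ℂ} {h κ : ℕ → ℝ} {W V : ℤ → ℕ → ℂ → ℂ} {F : ℕ → Finset ℕ} {e : ℕ → ℕ → ℝ}

lemma JI_sw {φ : ℂ → ℝ} (i n : ℕ) (a b c d : ℤ) :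
    JI W V φ i n (a, b, c, d) = JI W V φ i n (a, b, d, c) := by
  simp only [JI, MI]
  rw [CC_symm c d]
  congr 2; funext z; ring

lemma JI_sw1 {φ : ℂ → ℝ} (i n : ℕ) (a b c d : ℤ) :
    JI W V φ i n (a, b, c, d) = JI W V φ i n (b, a, c, d) := by
  simp only [JI, MI]
  rw [CC_symm a b]
  congr 2; funext z; ring

section
variable (H : SY B Complex.im h W) (H' : SY B Complex.im κ V) (k0 : EX B κ V (V 0))
  (hBU : B ⊆ UH) {φ : ℂ → ℝ} (hφ : TF B φ)
  (hφ0 : ∀ z, 0 ≤ φ z) (hF : ∀ n, (F n).Nonempty)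
  (hW : WY (tsupport φ) W F) {C : ℝ} (hC : ∀ n, ∀ i ∈ F n, h i ≤ C * κ n ∧ κ n ≤ C * h i)
  (hθ : ∀ θ : ℕ → ℕ, (∀ n, θ n ∈ F n) →
    SY B Complex.im (fun n => h (θ n)) (fun k n => W k (θ n)) ∧
    EX B (fun n => h (θ n)) (fun k n => W k (θ n)) (fun n => W 0 (θ n)))
include H H' k0 hBU hφ hφ0 hF hW hC hθ

omit k0 hBU hC hθ in
/-- the averages of the norms -/
lemma JI_avg (a : Z4) : ∀ᶠ n in atTop, (∑ i ∈ F n, ‖JI W V φ i n a‖) / (F n).card ≤
    6 * ((∫ z, φ z) + 1) := by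
  have sg : ∀ x : ℝ, |Real.sign x| ≤ 1 := by
    intro x
    rcases Real.sign_apply_eq x with h | h | h <;> rw [h] <;> norm_num
  have sm : ∀ x : ℝ, Real.sign x * x = |x| := by
    intro x
    rcases lt_trichotomy x 0 with h | h | h
    · rw [Real.sign_of_neg h, abs_of_neg h]; ring
    · rw [h]; simp
    · rw [Real.sign_of_pos h, abs_of_pos h]; ring
  have g1 := JA_d1 (e := fun n i => Real.sign (JI W V φ i n a).re) H H' hφ hφ0 hF
    (fun n i => sg _) hW a
  have g2 := JA_d1 (e := fun n i => Real.sign (JI W V φ i n a).im) H H' hφ hφ0 hF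
    (fun n i => sg _) hW a
  filter_upwards [g1, g2] with n h1 h2
  have cp : (0 : ℝ) < (F n).card := by exact_mod_cast (hF n).card_pos
  have e1 : (JA W V φ F (fun n i => Real.sign (JI W V φ i n a).re) a n).re =
      (∑ i ∈ F n, |(JI W V φ i n a).re|) / (F n).card := by
    unfold JA av
    rw [Complex.div_natCast_re, Complex.re_sum]
    congr 1
    refine Finset.sum_congr rfl fun i _ => ?_
    rw [Complex.re_ofReal_mul, sm]
  have e2 : (JA W V φ F (fun n i => Real.sign (JI W V φ i n a).im) a n).im =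
      (∑ i ∈ F n, |(JI W V φ i n a).im|) / (F n).card := by
    unfold JA av
    rw [Complex.div_natCast_im, Complex.im_sum]
    congr 1
    refine Finset.sum_congr rfl fun i _ => ?_
    rw [Complex.im_ofReal_mul, sm]
  have b1 := (Complex.abs_re_le_norm _).trans h1
  have b2 := (Complex.abs_im_le_norm _).trans h2
  rw [e1] at b1
  rw [e2] at b2
  have c1 := (le_abs_self _).trans b1
  have c2 := (le_abs_self _).trans b2
  have c3 : (∑ i ∈ F n, ‖JI W V φ i n a‖) / (F n).card ≤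
      (∑ i ∈ F n, |(JI W V φ i n a).re|) / (F n).card +
        (∑ i ∈ F n, |(JI W V φ i n a).im|) / (F n).card := by
    rw [← add_div, ← Finset.sum_add_distrib]
    exact div_le_div_of_nonneg_right (Finset.sum_le_sum fun i _ =>
      Complex.norm_le_abs_re_add_abs_im _) (Nat.cast_nonneg _)
  linarith

/-- **case A**: the averaged form is the faster one -/
theorem avA (he : ∀ n i, |e n i| ≤ 1) {ρ0 : ℝ} (hρ : ∀ η : ℝ, 0 < η → ∀ᶠ n in atTop, ∀ i ∈ F n,
    |h i / κ n - ρ0| ≤ η) : AV ρ0 (JA W V φ F e) where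
  qs := by
    have rel : ∀ θ : ℕ → ℕ, (∀ n, θ n ∈ F n) → ∃ ρ : BS, (∀ n, ρ.1 n = h (θ n) / κ n) ∧
        QS ρ (JD (fun k n => W k (θ n)) V φ) := by
      intro θ h1
      obtain ⟨S, E⟩ := hθ θ h1
      have bd : ∀ n, |h (θ n) / κ n| ≤ C := by
        intro n
        rw [abs_of_pos (div_pos (S.hpos n) (H'.hpos n)), div_le_iff₀ (H'.hpos n)]
        exact (hC n _ (h1 n)).1
      exact ⟨⟨fun n => h (θ n) / κ n, C, bd⟩, fun _ => rfl,
        Pool.Agent.J4H76.TP.qs S H' hBU (fun n => (hC n _ (h1 n)).1)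
          (fun n => (hC n _ (h1 n)).2) E k0 hφ _ fun _ => rfl⟩
    refine avQS he (Ji := fun i n a => JI W V φ i n a) (ρi := fun i n => h i / κ n)
      (fun a b c d => ?_) (fun a b c d => ?_) (fun a b c d => ?_)
      (fun a => ⟨_, JI_avg H H' hφ hφ0 hF hW a⟩) hρ (fun i n a b c d => JI_sw i n a b c d)
    · refine worst hF fun θ h1 => ?_
      obtain ⟨ρ, h2, h3⟩ := rel θ h1
      refine (QSrel h3 a b c d).1.congr fun n => ?_
      rw [h2]; rfl
    · refine worst hF fun θ h1 => ?_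
      obtain ⟨ρ, h2, h3⟩ := rel θ h1
      refine (QSrel h3 a b c d).2.1.congr fun n => ?_
      rw [h2]; rfl
    · refine worst hF fun θ h1 => ?_
      obtain ⟨ρ, h2, h3⟩ := rel θ h1
      exact (QSrel h3 a b c d).2.2
  sw1 a b c d n := by
    unfold JA
    simp only [JI_sw1 _ _ a b c d]
  d1 := ⟨_, mul_nonneg (by norm_num) (add_nonneg (integral_nonneg hφ0) zero_le_one),
    fun a b c d => JA_d1 H H' hφ hφ0 hF he hW (a, b, c, d)⟩
  d2 := by
    have m0 : 0 ≤ ∫ z, φ z := integral_nonneg hφ0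
    refine ⟨3 * ((∫ z, φ z) + 1), by positivity, fun S hS ε hε => ?_⟩
    filter_upwards [JA_d2 H H' hφ hφ0 hF he hW 1 (Or.inl rfl) S.coeff.support
      (fun k => (S.coeff k).1 0)] with n hn
    rw [EE_mul_io]
    have e1 : ∑ k ∈ S.coeff.support, ∑ l ∈ S.coeff.support, (((S.coeff k).1 n : ℝ) : ℂ) *
        ((((S.coeff l).1 n : ℝ) : ℂ) * JA W V φ F e (dir 1 0 (-1) 0 k + dir 0 (-1) 0 1 l) n) =
        ∑ k ∈ S.coeff.support, ∑ l ∈ S.coeff.support, (((S.coeff k).1 0 : ℝ) : ℂ) *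
        ((((S.coeff l).1 0 : ℝ) : ℂ) * JA W V φ F e (1 * k, -(1 * l), -(1 * k), 1 * l) n) := by
      refine Finset.sum_congr rfl fun k _ => Finset.sum_congr rfl fun l _ => ?_
      rw [hS k n, hS l n]
      congr 3
      simp [dir]
    rw [e1]
    refine hn.trans ?_
    have e2 : N2 S n = ∑ k ∈ S.coeff.support, (S.coeff k).1 0 ^ 2 := by
      unfold N2
      exact Finset.sum_congr rfl fun k _ => by rw [hS k n]
    rw [e2]; linarith
  d3 := by
    have m0 : 0 ≤ ∫ z, φ z := integral_nonneg hφ0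
    refine ⟨2 * ((∫ z, φ z) + 1), by positivity, fun K R t Λ hΛ0 hΛ h0 => ?_⟩
    filter_upwards [JA_d3 H H' hφ hφ0 hF he hW hΛ0 hΛ h0] with n hn
    refine le_trans (le_of_eq ?_) hn.1
    rw [Finset.sum_product]
    congr 1
    refine Finset.sum_congr rfl fun d _ => ?_
    rw [Finset.sum_product]

/-- **case B**: the averaged form is the slower one -/
theorem avB (he : ∀ n i, |e n i| ≤ 1) {ρ0 : ℝ} (hρ : ∀ η : ℝ, 0 < η → ∀ᶠ n in atTop, ∀ i ∈ F n,
    |κ n / h i - ρ0| ≤ η) :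
    AV ρ0 (fun a n => JA W V φ F e (a.2.2.1, a.2.2.2, a.1, a.2.1) n) where
  qs := by
    have rel : ∀ θ : ℕ → ℕ, (∀ n, θ n ∈ F n) → ∃ ρ : BS, (∀ n, ρ.1 n = κ n / h (θ n)) ∧
        QS ρ (JD V (fun k n => W k (θ n)) φ) := by
      intro θ h1
      obtain ⟨S, E⟩ := hθ θ h1
      have bd : ∀ n, |κ n / h (θ n)| ≤ C := by
        intro n
        rw [abs_of_pos (div_pos (H'.hpos n) (S.hpos n)), div_le_iff₀ (S.hpos n)]
        exact (hC n _ (h1 n)).2
      exact ⟨⟨fun n => κ n / h (θ n), C, bd⟩, fun _ => rfl,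
        Pool.Agent.J4H76.TP.qs H' S hBU (fun n => (hC n _ (h1 n)).2)
          (fun n => (hC n _ (h1 n)).1) k0 E hφ _ fun _ => rfl⟩
    have ex : ∀ (θ : ℕ → ℕ) (a b c d : ℤ) (n : ℕ),
        JD V (fun k n => W k (θ n)) φ (a, b, c, d) n = JI W V φ (θ n) n (c, d, a, b) := by
      intro θ a b c d n
      simp only [JD, J4, JI, MI]
      rw [mul_comm (CC a b) (CC c d)]
      congr 2; funext z; ring
    refine avQS he (Ji := fun i n a => JI W V φ i n (a.2.2.1, a.2.2.2, a.1, a.2.1))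
      (ρi := fun i n => κ n / h i)
      (fun a b c d => ?_) (fun a b c d => ?_) (fun a b c d => ?_)
      (fun a => ⟨_, JI_avg H H' hφ hφ0 hF hW _⟩) hρ
      (fun i n a b c d => JI_sw1 i n c d a b)
    · refine worst hF fun θ h1 => ?_
      obtain ⟨ρ, h2, h3⟩ := rel θ h1
      refine (QSrel h3 a b c d).1.congr fun n => ?_
      rw [h2, ex, ex, ex, ex]
    · refine worst hF fun θ h1 => ?_
      obtain ⟨ρ, h2, h3⟩ := rel θ h1
      refine (QSrel h3 a b c d).2.1.congr fun n => ?_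
      rw [h2, ex, ex, ex, ex]
    · refine worst hF fun θ h1 => ?_
      obtain ⟨ρ, h2, h3⟩ := rel θ h1
      refine (QSrel h3 a b c d).2.2.congr fun n => ?_
      rw [ex, ex, ex]
  sw1 a b c d n := by
    unfold JA
    simp only [JI_sw _ _ c d a b]
  d1 := ⟨_, mul_nonneg (by norm_num) (add_nonneg (integral_nonneg hφ0) zero_le_one),
    fun a b c d => JA_d1 H H' hφ hφ0 hF he hW (c, d, a, b)⟩
  d2 := by
    have m0 : 0 ≤ ∫ z, φ z := integral_nonneg hφ0
    refine ⟨3 * ((∫ z, φ z) + 1), by positivity, fun S hS ε hε => ?_⟩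
    filter_upwards [JA_d2 H H' hφ hφ0 hF he hW (-1) (Or.inr rfl) S.coeff.support
      (fun k => (S.coeff k).1 0)] with n hn
    rw [EE_mul_io]
    have e1 : ∑ k ∈ S.coeff.support, ∑ l ∈ S.coeff.support, (((S.coeff k).1 n : ℝ) : ℂ) *
        ((((S.coeff l).1 n : ℝ) : ℂ) * JA W V φ F e
          ((dir 1 0 (-1) 0 k + dir 0 (-1) 0 1 l).2.2.1, (dir 1 0 (-1) 0 k + dir 0 (-1) 0 1 l).2.2.2,
          (dir 1 0 (-1) 0 k + dir 0 (-1) 0 1 l).1, (dir 1 0 (-1) 0 k + dir 0 (-1) 0 1 l).2.1) n) =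
        ∑ k ∈ S.coeff.support, ∑ l ∈ S.coeff.support, (((S.coeff k).1 0 : ℝ) : ℂ) *
        ((((S.coeff l).1 0 : ℝ) : ℂ) * JA W V φ F e
          (-1 * k, -(-1 * l), -(-1 * k), -1 * l) n) := by
      refine Finset.sum_congr rfl fun k _ => Finset.sum_congr rfl fun l _ => ?_
      rw [hS k n, hS l n]
      congr 3
      simp [dir]
    rw [e1]
    refine hn.trans ?_
    have e2 : N2 S n = ∑ k ∈ S.coeff.support, (S.coeff k).1 0 ^ 2 := by
      unfold N2
      exact Finset.sum_congr rfl fun k _ => by rw [hS k n]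
    rw [e2]; linarith
  d3 := by
    have m0 : 0 ≤ ∫ z, φ z := integral_nonneg hφ0
    refine ⟨2 * ((∫ z, φ z) + 1), by positivity, fun K R t Λ hΛ0 hΛ h0 => ?_⟩
    filter_upwards [JA_d3 H H' hφ hφ0 hF he hW hΛ0 hΛ h0] with n hn
    refine le_trans (le_of_eq ?_) hn.2
    rw [Finset.sum_product]
    congr 1
    refine Finset.sum_congr rfl fun d _ => ?_
    rw [Finset.sum_product]

/-- **the averages of the deviations tend to zero** -/
theorem avg_zero {ρ0 : ℝ} (h0 : 0 < ρ0) (h1 : ρ0 < 1)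
    (hρ : (∀ η : ℝ, 0 < η → ∀ᶠ n in atTop, ∀ i ∈ F n, |h i / κ n - ρ0| ≤ η) ∨
      (∀ η : ℝ, 0 < η → ∀ᶠ n in atTop, ∀ i ∈ F n, |κ n / h i - ρ0| ≤ η)) :
    Tendsto (fun n => (∑ i ∈ F n, |(JI W V φ i n (0, 0, 0, 0)).re|) / (F n).card) atTop
      (𝓝 0) := by
  have sg : ∀ x : ℝ, |Real.sign x| ≤ 1 := by
    intro x
    rcases Real.sign_apply_eq x with h | h | h <;> rw [h] <;> norm_num
  have sm : ∀ x : ℝ, Real.sign x * x = |x| := by
    intro x
    rcases lt_trichotomy x 0 with h | h | h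
    · rw [Real.sign_of_neg h, abs_of_neg h]; ring
    · rw [h]; simp
    · rw [Real.sign_of_pos h, abs_of_pos h]; ring
  obtain ⟨e, he'⟩ : ∃ e : ℕ → ℕ → ℝ, e = fun n i => Real.sign (JI W V φ i n (0, 0, 0, 0)).re :=
    ⟨_, rfl⟩
  have he : ∀ n i, |e n i| ≤ 1 := by intro n i; rw [he']; exact sg _
  have key : Tendsto (fun n => JA W V φ F e (0, 0, 0, 0) n) atTop (𝓝 0) := by
    rcases hρ with hρ | hρ
    · have k := (avA H H' k0 hBU hφ hφ0 hF hW hC hθ he hρ).fin h0 h1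
      exact k
    · have k := (avB H H' k0 hBU hφ hφ0 hF hW hC hθ he hρ).fin h0 h1
      exact k
  have k2 := (Complex.continuous_re.tendsto _).comp key
  rw [Complex.zero_re] at k2
  refine k2.congr fun n => ?_
  simp only [Function.comp_apply]
  unfold JA av
  rw [Complex.div_natCast_re, Complex.re_sum]
  congr 1
  refine Finset.sum_congr rfl fun i _ => ?_
  rw [Complex.re_ofReal_mul, he', sm]

end

end

end Pool.Agent.J4H76.AP
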