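import Pool.Agent.J4H76.AP.Ana2

/-! The abstract theorem. -/
set_option autoImplicit false
open Filter Topology

namespace Pool.Agent.J4H76.AP

noncomputable section

open Pool.Agent.J4H76.TP
open AddMonoidAlgebra (single)
open Polynomial (aeval)

/-- an averaged functional -/
structure AV (ρ0 : ℝ) (J : Z4 → ℕ → ℂ) : Prop where
  qs : QS (kst ρ0) J
  sw1 : ∀ a b c d n, J (a, b, c, d) n = J (b, a, c, d) n
  d1 : ∃ C : ℝ, 0 ≤ C ∧ ∀ a b c d, ∀ᶠ n in atTop, ‖J (a, b, c, d) n‖ ≤ C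
  d2 : ∃ C : ℝ, 0 ≤ C ∧ ∀ S : AA ℤ, Kc S → ∀ ε : ℝ, 0 < ε → ∀ᶠ n in atTop,
    ‖EE J (io (dir 1 0 (-1) 0) S * io (dir 0 (-1) 0 1) S) n‖ ≤ C * N2 S n + ε
  d3 : ∃ C : ℝ, 0 ≤ C ∧ ∀ (K R : ℕ) (t : ℕ → ℤ → ℝ) (Λ : ℝ), 0 ≤ Λ →
    (∀ y : ℤ → ℝ, ∑ j ∈ Finset.range K, (∑ r ∈ Finset.Icc (-(R : ℤ)) R, t j r * y r) ^ 2 ≤
      Λ * ∑ r ∈ Finset.Icc (-(R : ℤ)) R, y r ^ 2) →
    (∀ j, j < K → ∑ r ∈ Finset.Icc (-(R : ℤ)) R, t j r * (-1) ^ r.natAbs = 0) →
    ∀ᶠ n in atTop, ‖∑ d ∈ Finset.Icc (-(K : ℤ)) K, ∑ j ∈ Finset.range K,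
      ∑ r ∈ Finset.Icc (-(R : ℤ)) R,
        ((t j r : ℝ) : ℂ) * J (d + j, d - j, -d + r, -d - r) n‖ ≤
      C * (√(Λ * (2 * (2 * K + R) + 1)) * (2 * (2 * K + R) + 1))

variable {ρ0 : ℝ} {J : Z4 → ℕ → ℂ}

/-- the functional on functions of `x` -/
def YY (ρ0 : ℝ) (J : Z4 → ℕ → ℂ) (n : ℕ) (P : Polynomial ℝ) : ℂ := EE J (yy ρ0 P) n

lemma YY_add (n : ℕ) (P Q : Polynomial ℝ) :
    YY ρ0 J n (P + Q) = YY ρ0 J n P + YY ρ0 J n Q := by
  unfold YY yy
  rw [map_add, map_add, EE_add]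

lemma YY_C (n : ℕ) (a : ℝ) (P : Polynomial ℝ) :
    YY ρ0 J n (Polynomial.C a * P) = (a : ℂ) * YY ρ0 J n P := by
  unfold YY yy
  rw [map_mul, map_mul, Polynomial.aeval_C]
  have e : io (dir 0 0 1 (-1)) (algebraMap ℝ (AA ℤ) a) = single 0 (kst a) := by
    rw [AlgHom.commutes]; rfl
  rw [e, EE_smul, kst_ap]

/-- additive version -/
def YYh (ρ0 : ℝ) (J : Z4 → ℕ → ℂ) (n : ℕ) : Polynomial ℝ →+ ℂ where
  toFun P := YY ρ0 J n P
  map_zero' := by
    show EE J (yy ρ0 0) n = 0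
    unfold yy
    rw [map_zero, map_zero, EE_zero]
  map_add' P Q := YY_add n P Q

lemma YY_sum (n : ℕ) {ι : Type} (s : Finset ι) (P : ι → Polynomial ℝ) :
    YY ρ0 J n (∑ i ∈ s, P i) = ∑ i ∈ s, YY ρ0 J n (P i) := map_sum (YYh ρ0 J n) P s

lemma YY_sub (n : ℕ) (P Q : Polynomial ℝ) :
    YY ρ0 J n (P - Q) = YY ρ0 J n P - YY ρ0 J n Q := (YYh ρ0 J n).map_sub P Q

lemma YY_one (n : ℕ) : YY ρ0 J n 1 = J (0, 0, 0, 0) n := by
  unfold YY yy
  rw [map_one, map_one]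
  have : (1 : AA Z4) = single 0 1 := rfl
  rw [this, EE_single, BS.one_ap]
  simp only [Complex.ofReal_one, one_mul]; rfl

lemma natDegree_tt : ∀ j : ℕ, (tt j).natDegree ≤ j
  | 0 => by
    have : tt 0 = Polynomial.C 2 := by unfold tt kap; rw [map_ofNat]
    rw [this, Polynomial.natDegree_C]
  | 1 => by
    have : tt 1 = Polynomial.X - Polynomial.C 2 := by unfold tt kap; rw [map_ofNat]
    rw [this, Polynomial.natDegree_X_sub_C]
  | (j + 2) => by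
    have h1 := natDegree_tt (j + 1)
    have h2 := natDegree_tt j
    have e : tt (j + 2) = (Polynomial.X - Polynomial.C 2) * tt (j + 1) - tt j := by
      unfold tt
      rw [kap, map_ofNat]; ring
    rw [e]
    refine (Polynomial.natDegree_sub_le _ _).trans (max_le ?_ (h2.trans (by omega)))
    refine Polynomial.natDegree_mul_le.trans ?_
    rw [Polynomial.natDegree_X_sub_C]
    omega

lemma EE_mn_swap (H : AV ρ0 J) (P : Polynomial ℝ) (a b c d : ℤ) (n : ℕ) :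
    EE J (mn a b c d * yy ρ0 P) n = EE J (mn b a c d * yy ρ0 P) n := by
  rw [EE_mn_yy J ρ0 P le_rfl, EE_mn_yy J ρ0 P le_rfl]
  refine Finset.sum_congr rfl fun r _ => ?_
  rw [H.sw1]

/-- duality -/
lemma dual {K R : ℕ} {t : ℕ → ℤ → ℝ} {Λ : ℝ} (hΛ : 0 ≤ Λ)
    (h : ∀ c : ℕ → ℝ, ∑ r ∈ Finset.Icc (-(R : ℤ)) R, (∑ j ∈ Finset.range K, c j * t j r) ^ 2 ≤
      Λ * ∑ j ∈ Finset.range K, c j ^ 2) (y : ℤ → ℝ) :
    ∑ j ∈ Finset.range K, (∑ r ∈ Finset.Icc (-(R : ℤ)) R, t j r * y r) ^ 2 ≤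
      Λ * ∑ r ∈ Finset.Icc (-(R : ℤ)) R, y r ^ 2 := by
  obtain ⟨c, hc⟩ : ∃ c : ℕ → ℝ, c = fun j => ∑ r ∈ Finset.Icc (-(R : ℤ)) R, t j r * y r :=
    ⟨_, rfl⟩
  have e : ∑ j ∈ Finset.range K, (∑ r ∈ Finset.Icc (-(R : ℤ)) R, t j r * y r) ^ 2 =
      ∑ j ∈ Finset.range K, c j ^ 2 := by rw [hc]
  rw [e]
  obtain ⟨S, hS⟩ : ∃ S, S = ∑ j ∈ Finset.range K, c j ^ 2 := ⟨_, rfl⟩
  have S0 : 0 ≤ S := by rw [hS]; exact Finset.sum_nonneg fun _ _ => sq_nonneg _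
  have e2 : S = ∑ r ∈ Finset.Icc (-(R : ℤ)) R, (∑ j ∈ Finset.range K, c j * t j r) * y r := by
    simp only [Finset.sum_mul]
    rw [Finset.sum_comm, hS]
    refine Finset.sum_congr rfl fun j _ => ?_
    have : c j = ∑ r ∈ Finset.Icc (-(R : ℤ)) R, t j r * y r := by rw [hc]
    rw [sq]
    nth_rewrite 2 [this]
    rw [Finset.mul_sum]
    refine Finset.sum_congr rfl fun r _ => ?_
    ring
  have h1 := Finset.sum_mul_sq_le_sq_mul_sq (Finset.Icc (-(R : ℤ)) R)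
    (fun r => ∑ j ∈ Finset.range K, c j * t j r) y
  rw [← e2] at h1
  have h2 := h c
  rw [← hS] at h2 ⊢
  obtain ⟨Y, hY⟩ : ∃ Y, Y = ∑ r ∈ Finset.Icc (-(R : ℤ)) R, y r ^ 2 := ⟨_, rfl⟩
  have Y0 : 0 ≤ Y := by rw [hY]; exact Finset.sum_nonneg fun _ _ => sq_nonneg _
  rw [← hY] at h1 ⊢
  have h3 : S ^ 2 ≤ Λ * S * Y := h1.trans (mul_le_mul_of_nonneg_right h2 Y0)
  rcases S0.eq_or_lt with h4 | h4
  · rw [← h4]; positivity
  · have h5 : S * S ≤ S * (Λ * Y) := by nlinarith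
    exact le_of_mul_le_mul_left h5 h4

/-- **the abstract theorem** -/
theorem AV.fin (h0 : 0 < ρ0) (h1 : ρ0 < 1) (H : AV ρ0 J) :
    Tendsto (fun n => J (0, 0, 0, 0) n) atTop (𝓝 0) := by
  obtain ⟨C1, C10, hC1⟩ := H.d1
  obtain ⟨C2, C20, hC2⟩ := H.d2
  obtain ⟨C3, C30, hC3⟩ := H.d3
  obtain ⟨I1, I2⟩ := ids H.qs
  rw [Metric.tendsto_nhds]
  intro ε hε
  simp only [dist_zero_right]
  -- the polynomial p
  obtain ⟨p, hp1, hp2, hp3, hp4⟩ := ex_p h0 h1 (ε := ε / (8 * (C2 + 1))) (by positivity)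
  obtain ⟨A2, hA2⟩ := ex_A h0 hp2 hp3 hp4
  obtain ⟨A, hA⟩ : ∃ A, A = Ap ρ0 A2 := ⟨_, rfl⟩
  have hA' : 1 - Polynomial.C (1 / 2) * Sp ρ0 p = A := by rw [hA2, hA]; rfl
  have A0 : A.eval 0 = 0 := by rw [hA, Ap_eval]; ring
  -- constants
  obtain ⟨Λ, Λ0, hΛ⟩ := lam h0 h1 A2
  obtain ⟨CE, CE0, hCE⟩ := EKb h0 h1 A2
  rw [← hA] at hΛ hCE
  obtain ⟨a, ha⟩ : ∃ a, a = A.natDegree := ⟨_, rfl⟩
  obtain ⟨q, hq⟩ : ∃ q : ℝ, q = 2 * a + 7 := ⟨_, rfl⟩
  have q0 : 0 < q := by rw [hq]; positivity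
  obtain ⟨D, hD⟩ : ∃ D : ℝ, D = 2 * (C3 * (√(Λ * q) * q)) + C1 * √(q * CE) + 1 := ⟨_, rfl⟩
  have D0 : 0 < D := by rw [hD]; positivity
  -- the choice of K
  obtain ⟨K, hK0, hK⟩ : ∃ K : ℕ, 0 < K ∧ D / √(K : ℝ) < ε / 4 := by
    obtain ⟨K, hK⟩ := exists_nat_gt ((4 * D / ε) ^ 2)
    have K0 : (0 : ℝ) < K := lt_of_le_of_lt (sq_nonneg _) hK
    refine ⟨K, by exact_mod_cast K0, ?_⟩
    have h2 : 4 * D / ε < √(K : ℝ) := Real.lt_sqrt_of_sq_lt hK
    have h3 : 0 < √(K : ℝ) := Real.sqrt_pos.2 K0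
    rw [div_lt_iff₀ h3]
    rw [div_lt_iff₀ hε] at h2
    linarith
  have K1 : (1 : ℝ) ≤ K := by exact_mod_cast hK0
  -- degrees
  have dg1 : ∀ j, j < K → (A * tt j).natDegree ≤ a + K := by
    intro j hj
    refine Polynomial.natDegree_mul_le.trans ?_
    have := natDegree_tt j
    omega
  have dg2 : (EK A K).natDegree ≤ a + 2 * K := by
    unfold EK
    refine (Polynomial.natDegree_sub_le _ _).trans (max_le ?_ ?_)
    · refine Polynomial.natDegree_sum_le_of_forall_le _ _ fun j hj => ?_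
      rw [Finset.mem_range] at hj
      refine Polynomial.natDegree_mul_le.trans ?_
      have h2 : (A * tt j).natDegree ≤ a + j := by
        refine Polynomial.natDegree_mul_le.trans ?_
        have := natDegree_tt j
        omega
      have := natDegree_tt j
      omega
    · refine (Polynomial.natDegree_C_mul_le _ _).trans ?_
      omega
  -- the main sum
  obtain ⟨Mn, hMn⟩ : ∃ Mn : ℕ → ℂ, Mn = fun n => ∑ d ∈ Finset.Icc (-(K : ℤ)) K,
      ∑ j ∈ Finset.range K, EE J (mn (d + j) (d - j) (-d) (-d) * yy ρ0 (A * tt j)) n :=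
    ⟨_, rfl⟩
  have b1 : ∀ᶠ n in atTop, ‖Mn n‖ ≤ C3 * (√(Λ * (2 * (2 * K + (a + K : ℕ)) + 1)) *
      (2 * (2 * K + (a + K : ℕ)) + 1)) := by
    have := hC3 K (a + K) (fun j r => cf ρ0 (A * tt j) r) Λ Λ0 ?_ ?_
    · filter_upwards [this] with n hn
      refine le_trans (le_of_eq ?_) hn
      rw [hMn]
      congr 1
      refine Finset.sum_congr rfl fun d _ => Finset.sum_congr rfl fun j hj => ?_
      rw [Finset.mem_range] at hj
      rw [EE_mn_yy J ρ0 _ (dg1 j hj)]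
    · refine dual Λ0 fun c => ?_
      have h2 := hΛ K c
      have dd : (∑ j ∈ Finset.range K, Polynomial.C (c j) * (A * tt j)).natDegree ≤ a + K := by
        refine Polynomial.natDegree_sum_le_of_forall_le _ _ fun j hj => ?_
        rw [Finset.mem_range] at hj
        exact (Polynomial.natDegree_C_mul_le _ _).trans (dg1 j hj)
      rw [← cf_sq ρ0 _ dd] at h2
      refine le_trans (le_of_eq ?_) h2
      refine Finset.sum_congr rfl fun r _ => ?_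
      rw [cf_sum]
    · intro j hj
      refine cf_pi ρ0 _ (dg1 j hj) ?_
      rw [Polynomial.eval_mul, A0, zero_mul]
  -- the error term
  have b2 : ∀ᶠ n in atTop, ‖YY ρ0 J n (EK A K)‖ ≤
      C1 * √((2 * (a + 2 * K : ℕ) + 1) * CE) := by
    have ev : ∀ᶠ n in atTop, ∀ r ∈ Finset.Icc (-((a + 2 * K : ℕ) : ℤ)) (a + 2 * K : ℕ),
        ‖J (0, 0, 0 + r, 0 - r) n‖ ≤ C1 := by
      rw [Filter.eventually_all_finset]
      exact fun r _ => hC1 _ _ _ _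
    filter_upwards [ev] with n hn
    have e1 : YY ρ0 J n (EK A K) = EE J (mn 0 0 0 0 * yy ρ0 (EK A K)) n := by
      rw [mn_one, one_mul]; rfl
    rw [e1, EE_mn_yy J ρ0 _ dg2]
    refine (norm_sum_le _ _).trans ?_
    have e2 : ∀ r ∈ Finset.Icc (-((a + 2 * K : ℕ) : ℤ)) (a + 2 * K : ℕ),
        ‖((cf ρ0 (EK A K) r : ℝ) : ℂ) * J (0, 0, 0 + r, 0 - r) n‖ ≤
          |cf ρ0 (EK A K) r| * C1 := by
      intro r hr
      rw [norm_mul, Complex.norm_real, Real.norm_eq_abs]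
      exact mul_le_mul_of_nonneg_left (hn r hr) (abs_nonneg _)
    refine (Finset.sum_le_sum e2).trans ?_
    rw [← Finset.sum_mul, mul_comm]
    refine mul_le_mul_of_nonneg_left ?_ C10
    have h2 := Finset.sum_mul_sq_le_sq_mul_sq (Finset.Icc (-((a + 2 * K : ℕ) : ℤ))
      (a + 2 * K : ℕ)) (fun _ => (1 : ℝ)) (fun r => |cf ρ0 (EK A K) r|)
    simp only [one_mul, one_pow, sq_abs] at h2
    rw [cf_sq ρ0 _ dg2, Finset.sum_const, nsmul_eq_mul, mul_one, Int.card_Icc] at h2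
    have h3 := hCE K
    refine Real.le_sqrt_of_sq_le (h2.trans ?_)
    have e3 : (((((a + 2 * K : ℕ) : ℤ) + 1 - -((a + 2 * K : ℕ) : ℤ)).toNat : ℕ) : ℝ) =
        2 * (a + 2 * K : ℕ) + 1 := by
      have : (((a + 2 * K : ℕ) : ℤ) + 1 - -((a + 2 * K : ℕ) : ℤ)).toNat =
          2 * (a + 2 * K) + 1 := by omega
      rw [this]; push_cast; ring
    rw [e3]
    exact mul_le_mul_of_nonneg_left h3 (by positivity)
  -- the summed identity
  have t1 : Tendsto (fun n => 2 * Mn n - (2 * K + 1) * (YY ρ0 J n (EK A K) +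
      2 * K * YY ρ0 J n A)) atTop (𝓝 0) := by
    have h2 : Tendsto (fun n => ∑ d ∈ Finset.Icc (-(K : ℤ)) K, ∑ j ∈ Finset.range K,
        (2 * EE J (mn (d + j) (d - j) (-d) (-d) * yy ρ0 (A * tt j)) n -
          YY ρ0 J n (A * tt j * tt j))) atTop (𝓝 0) := by
      have : Tendsto (fun n => ∑ d ∈ Finset.Icc (-(K : ℤ)) K, ∑ j ∈ Finset.range K,
          (2 * EE J (mn (d + j) (d - j) (-d) (-d) * yy ρ0 (A * tt j)) n -
            YY ρ0 J n (A * tt j * tt j))) atTop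
          (𝓝 (∑ _d ∈ Finset.Icc (-(K : ℤ)) K, ∑ _j ∈ Finset.range K, (0 : ℂ))) := by
        refine tendsto_finsetSum _ fun d _ => tendsto_finsetSum _ fun j _ => ?_
        have h3 := I2 d j ((Polynomial.C (4 * ρ0 ^ 2) - Polynomial.X) * A2 * tt j)
        have e1 : Polynomial.X * ((Polynomial.C (4 * ρ0 ^ 2) - Polynomial.X) * A2 * tt j) =
            A * tt j := by rw [hA]; unfold Ap; ring
        rw [e1] at h3
        refine h3.congr fun n => ?_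
        rw [← EE_mn_swap H (A * tt j) (d + j) (d - j)]
        unfold YY; ring
      simpa using this
    refine h2.congr fun n => ?_
    rw [hMn]
    simp only [Finset.sum_sub_distrib, Finset.mul_sum]
    congr 1
    rw [Finset.sum_const, Int.card_Icc]
    have e3 : ((K : ℤ) + 1 - -(K : ℤ)).toNat = 2 * K + 1 := by omega
    rw [e3, nsmul_eq_mul]
    push_cast
    congr 1
    unfold EK
    rw [YY_sub, YY_sum, YY_C]
    push_cast
    ring
  -- the first identity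
  have t2 := I1 p
  have b3 := hC2 (aeval (rr (kst ρ0)) p) ?_ (ε / 16) (by positivity)
  · filter_upwards [b1, b2, b3, t1.norm.eventually (gt_mem_nhds (show ‖(0 : ℂ)‖ < 1 by simp)),
      t2.norm.eventually (gt_mem_nhds (show ‖(0 : ℂ)‖ < ε / 8 by simp; positivity))]
      with n g1 g2 g3 g4 g5
    rw [N2_rrp] at g3
    obtain ⟨P, hP⟩ : ∃ P, P = EE J (io (dir 1 0 (-1) 0) (aeval (rr (kst ρ0)) p) *
      io (dir 0 (-1) 0 1) (aeval (rr (kst ρ0)) p)) n := ⟨_, rfl⟩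
    rw [← hP] at g3 g5
    have e1 : J (0, 0, 0, 0) n = YY ρ0 J n A + 1 / 2 * YY ρ0 J n (Sp ρ0 p) := by
      rw [← hA', YY_sub, YY_one, YY_C]
      push_cast; ring
    have e2 : EE J (yy ρ0 (Sp ρ0 p)) n = YY ρ0 J n (Sp ρ0 p) := rfl
    rw [e2] at g5
    obtain ⟨Y1, hY1⟩ : ∃ Y1, Y1 = YY ρ0 J n A := ⟨_, rfl⟩
    obtain ⟨Y2, hY2⟩ : ∃ Y2, Y2 = YY ρ0 J n (Sp ρ0 p) := ⟨_, rfl⟩
    obtain ⟨Y3, hY3⟩ : ∃ Y3, Y3 = YY ρ0 J n (EK A K) := ⟨_, rfl⟩
    rw [← hY1, ← hY3] at g4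
    rw [← hY2] at g5
    rw [← hY3] at g2
    rw [e1, ← hY1, ← hY2]
    -- the bound for Y2
    have c1 : ‖P‖ ≤ ε / 8 + ε / 16 := by
      have : C2 * ms (fun θ => p.eval (Rf ρ0 θ)) ≤ ε / 8 := by
        have h3 : C2 * ms (fun θ => p.eval (Rf ρ0 θ)) ≤ C2 * (ε / (8 * (C2 + 1))) :=
          mul_le_mul_of_nonneg_left hp1.le C20
        have h4 : C2 * (ε / (8 * (C2 + 1))) ≤ ε / 8 := by
          rw [mul_div_assoc', div_le_div_iff₀ (by positivity) (by norm_num)]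
          nlinarith
        linarith
      linarith
    have c2 : ‖Y2‖ ≤ 2 * ‖P‖ + ε / 8 := by
      have h3 := norm_sub_norm_le Y2 (2 * P)
      rw [norm_sub_rev, norm_mul, Complex.norm_ofNat] at h3
      linarith
    -- the bound for Y1
    have sK : √(K : ℝ) ^ 2 = K := Real.sq_sqrt (by positivity)
    obtain ⟨s, hs⟩ : ∃ s, s = √(K : ℝ) := ⟨_, rfl⟩
    rw [← hs] at sK hK
    have s1 : 1 ≤ s := by rw [hs]; exact Real.one_le_sqrt.2 K1
    have c3 : ‖Mn n‖ ≤ C3 * (√(Λ * q) * q) * (s * K) := by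
      refine g1.trans ?_
      have h3 : 2 * (2 * (K : ℝ) + (a + K : ℕ)) + 1 ≤ q * K := by
        rw [hq]; push_cast
        nlinarith [(Nat.cast_nonneg a : (0 : ℝ) ≤ a)]
      have h4 : √(Λ * (2 * (2 * K + (a + K : ℕ)) + 1)) ≤ √(Λ * q) * s := by
        rw [hs, ← Real.sqrt_mul (by positivity)]
        refine Real.sqrt_le_sqrt ?_
        rw [mul_assoc]
        exact mul_le_mul_of_nonneg_left h3 Λ0
      have h5 : √(Λ * (2 * (2 * K + (a + K : ℕ)) + 1)) * (2 * (2 * K + (a + K : ℕ)) + 1) ≤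
          (√(Λ * q) * s) * (q * K) :=
        mul_le_mul h4 h3 (by positivity) (by positivity)
      calc _ ≤ C3 * ((√(Λ * q) * s) * (q * K)) := mul_le_mul_of_nonneg_left h5 C30
        _ = _ := by ring
    have c4 : ‖Y3‖ ≤ C1 * √(q * CE) * s := by
      refine g2.trans ?_
      have h3 : 2 * ((a + 2 * K : ℕ) : ℝ) + 1 ≤ q * K := by
        rw [hq]; push_cast
        nlinarith [(Nat.cast_nonneg a : (0 : ℝ) ≤ a)]
      have h4 : √((2 * ((a + 2 * K : ℕ) : ℝ) + 1) * CE) ≤ √(q * CE) * s := by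
        rw [hs, ← Real.sqrt_mul (by positivity)]
        refine Real.sqrt_le_sqrt ?_
        calc _ ≤ q * K * CE := mul_le_mul_of_nonneg_right h3 CE0
          _ = _ := by ring
      calc _ ≤ C1 * (√(q * CE) * s) := mul_le_mul_of_nonneg_left h4 C10
        _ = _ := by ring
    have c5 : (2 * K + 1) * (2 * K) * ‖Y1‖ ≤ 2 * ‖Mn n‖ + (2 * K + 1) * ‖Y3‖ + 1 := by
      have e3 : (2 * (K : ℂ) + 1) * (2 * K) * Y1 = 2 * Mn n - (2 * K + 1) * Y3 -
          (2 * Mn n - (2 * K + 1) * (Y3 + 2 * K * Y1)) := by ring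
      have n1 : ‖(2 * (K : ℂ) + 1)‖ = 2 * K + 1 := by
        have : (2 * (K : ℂ) + 1) = ((2 * K + 1 : ℝ) : ℂ) := by push_cast; ring
        rw [this, Complex.norm_real, Real.norm_eq_abs, abs_of_pos (by positivity)]
      have n2 : ‖(2 * (K : ℂ))‖ = 2 * K := by
        have : (2 * (K : ℂ)) = ((2 * K : ℝ) : ℂ) := by push_cast; ring
        rw [this, Complex.norm_real, Real.norm_eq_abs, abs_of_pos (by positivity)]
      have h3 : (2 * K + 1) * (2 * K) * ‖Y1‖ = ‖(2 * (K : ℂ) + 1) * (2 * K) * Y1‖ := by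
        rw [norm_mul, norm_mul, n1, n2]
      rw [h3, e3]
      refine (norm_sub_le _ _).trans (add_le_add ((norm_sub_le _ _).trans ?_) g4.le)
      rw [norm_mul, norm_mul, n1, Complex.norm_ofNat]
    have c6 : ‖Y1‖ ≤ D / s := by
      have s0 : 0 < s := by linarith
      rw [le_div_iff₀ s0]
      have W0 : (0 : ℝ) < (2 * K + 1) * (2 * K) := by positivity
      refine le_of_mul_le_mul_left ?_ W0
      have c7 : (2 * K + 1) * (2 * K) * (‖Y1‖ * s) ≤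
          (2 * ‖Mn n‖ + (2 * K + 1) * ‖Y3‖ + 1) * s := by
        have := mul_le_mul_of_nonneg_right c5 s0.le
        linarith
      refine c7.trans ?_
      -- `2 M + (2K+1) E + 1 ≤ D s (2K+1)`
      have c8 : 2 * ‖Mn n‖ + (2 * K + 1) * ‖Y3‖ + 1 ≤ D * (s * (2 * K + 1)) := by
        have a1 : 2 * ‖Mn n‖ ≤ 2 * (C3 * (√(Λ * q) * q)) * (s * (2 * K + 1)) := by
          have : C3 * (√(Λ * q) * q) * (s * K) ≤ C3 * (√(Λ * q) * q) * (s * (2 * K + 1)) := by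
            refine mul_le_mul_of_nonneg_left ?_ (by positivity)
            refine mul_le_mul_of_nonneg_left ?_ s0.le
            linarith
          linarith
        have a2 : (2 * K + 1) * ‖Y3‖ ≤ C1 * √(q * CE) * (s * (2 * K + 1)) := by
          have := mul_le_mul_of_nonneg_left c4 (show (0 : ℝ) ≤ 2 * K + 1 by positivity)
          linarith
        have a3 : (1 : ℝ) ≤ 1 * (s * (2 * K + 1)) := by nlinarith
        have e4 : D * (s * (2 * K + 1)) = 2 * (C3 * (√(Λ * q) * q)) * (s * (2 * K + 1)) +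
            C1 * √(q * CE) * (s * (2 * K + 1)) + 1 * (s * (2 * K + 1)) := by rw [hD]; ring
        rw [e4]; linarith
      calc (2 * ‖Mn n‖ + (2 * K + 1) * ‖Y3‖ + 1) * s ≤ D * (s * (2 * K + 1)) * s :=
            mul_le_mul_of_nonneg_right c8 s0.le
        _ = D * (2 * K + 1) * s ^ 2 := by ring
        _ = D * (2 * K + 1) * K := by rw [sK]
        _ ≤ (2 * K + 1) * (2 * K) * D := by
            have : 0 ≤ D * (2 * K + 1) * K := by positivity
            nlinarith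
    have c9 : ‖Y1 + 1 / 2 * Y2‖ ≤ ‖Y1‖ + 1 / 2 * ‖Y2‖ := by
      refine (norm_add_le _ _).trans ?_
      rw [norm_mul]
      norm_num
    linarith
  · have hrr : Kc (rr (kst ρ0)) := by
      have h1 : Kc ((cs (kst ρ0) : AA ℤ) ^ 2) := by
        rw [sq]
        exact Kc_mul (Kc_single 0 ρ0) (Kc_single 0 ρ0)
      refine Kc_add (Kc_add ?_ h1) (Kc_mul (Kc_single 0 ρ0) (Kc_add (Kc_single 1 1)
        (Kc_single (-1) 1)))
      have : (1 : AA ℤ) = algebraMap ℝ (AA ℤ) 1 := by rw [map_one]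
      rw [this]; exact Kc_const 1
    exact Kc_aeval hrr p

end

end Pool.Agent.J4H76.AP
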