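import Pool.Agent.J4H76.AP.Mk
import Pool.Agent.J4H76.AP.Fin

/-! Domination of the averages. -/
set_option autoImplicit false
open MeasureTheory Filter Topology Complex Set
open scoped ContDiff Real Manifold

namespace Pool.Agent.J4H76.AP

noncomputable section

open Pool.Agent.W745.RW Pool.Agent.TH294.RS Pool.Agent.Y265.HY
open Pool.Agent.J4H76.TP
open AddMonoidAlgebra (single)

/-- almost orthonormal families -/
lemma quadr {F : Finset ℕ} {s : Finset ℤ} {X : ℤ → ℕ → ℂ} {η : ℝ} (hη : 0 ≤ η)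
    (h : ∀ k ∈ s, ∀ l ∈ s, ‖(∑ i ∈ F, X k i * (starRingEnd ℂ) (X l i)) / (F.card : ℂ) -
      (if k = l then 1 else 0)‖ ≤ η) (c : ℤ → ℂ) :
    (∑ i ∈ F, ‖∑ k ∈ s, c k * X k i‖ ^ 2) / F.card ≤
      (1 + η * s.card) * ∑ k ∈ s, ‖c k‖ ^ 2 := by
  obtain ⟨w, hw⟩ : ∃ w : ℤ → ℤ → ℂ, w = fun k l =>
    (∑ i ∈ F, X k i * (starRingEnd ℂ) (X l i)) / (F.card : ℂ) := ⟨_, rfl⟩
  have hw' : ∀ k ∈ s, ∀ l ∈ s, ‖w k l - (if k = l then 1 else 0)‖ ≤ η := by rw [hw]; exact h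
  have e1 : (((∑ i ∈ F, ‖∑ k ∈ s, c k * X k i‖ ^ 2) / F.card : ℝ) : ℂ) =
      ∑ k ∈ s, ∑ l ∈ s, c k * (starRingEnd ℂ) (c l) * w k l := by
    rw [hw]
    push_cast
    have e2 : ∀ i, ((‖∑ k ∈ s, c k * X k i‖ : ℝ) : ℂ) ^ 2 =
        ∑ k ∈ s, ∑ l ∈ s, c k * (starRingEnd ℂ) (c l) * (X k i * (starRingEnd ℂ) (X l i)) := by
      intro i
      rw [← Complex.mul_conj', map_sum, Finset.sum_mul_sum]
      refine Finset.sum_congr rfl fun k _ => Finset.sum_congr rfl fun l _ => ?_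
      rw [map_mul]; ring
    simp only [e2]
    rw [Finset.sum_comm, Finset.sum_div]
    refine Finset.sum_congr rfl fun k _ => ?_
    rw [Finset.sum_comm, Finset.sum_div]
    refine Finset.sum_congr rfl fun l _ => ?_
    rw [mul_div_assoc', Finset.mul_sum]
  have e3 : ∑ k ∈ s, ∑ l ∈ s, c k * (starRingEnd ℂ) (c l) * w k l =
      ((∑ k ∈ s, ‖c k‖ ^ 2 : ℝ) : ℂ) + ∑ k ∈ s, ∑ l ∈ s, c k * (starRingEnd ℂ) (c l) *
        (w k l - (if k = l then 1 else 0)) := by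
    have e4 : ((∑ k ∈ s, ‖c k‖ ^ 2 : ℝ) : ℂ) = ∑ k ∈ s, ∑ l ∈ s, c k * (starRingEnd ℂ) (c l) *
        (if k = l then 1 else 0) := by
      push_cast
      refine Finset.sum_congr rfl fun k hk => ?_
      rw [Finset.sum_eq_single k]
      · rw [if_pos rfl, mul_one, Complex.mul_conj']
      · intro l _ hl; rw [if_neg (Ne.symm hl), mul_zero]
      · intro h; exact absurd hk h
    rw [e4, ← Finset.sum_add_distrib]
    refine Finset.sum_congr rfl fun k _ => ?_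
    rw [← Finset.sum_add_distrib]
    refine Finset.sum_congr rfl fun l _ => ?_
    ring
  have n1 : ‖∑ k ∈ s, ∑ l ∈ s, c k * (starRingEnd ℂ) (c l) * (w k l -
      (if k = l then 1 else 0))‖ ≤ η * s.card * ∑ k ∈ s, ‖c k‖ ^ 2 := by
    have a1 : ‖∑ k ∈ s, ∑ l ∈ s, c k * (starRingEnd ℂ) (c l) * (w k l -
        (if k = l then 1 else 0))‖ ≤ ∑ k ∈ s, ∑ l ∈ s, ‖c k‖ * ‖c l‖ * η := by
      refine (norm_sum_le _ _).trans (Finset.sum_le_sum fun k hk => ?_)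
      refine (norm_sum_le _ _).trans (Finset.sum_le_sum fun l hl => ?_)
      rw [norm_mul, norm_mul, Complex.norm_conj]
      exact mul_le_mul_of_nonneg_left (hw' k hk l hl) (by positivity)
    have a2 : ∑ k ∈ s, ∑ l ∈ s, ‖c k‖ * ‖c l‖ * η = η * (∑ k ∈ s, ‖c k‖) ^ 2 := by
      rw [sq, Finset.sum_mul_sum, Finset.mul_sum]
      refine Finset.sum_congr rfl fun k _ => ?_
      rw [Finset.mul_sum]
      exact Finset.sum_congr rfl fun l _ => by ring
    have a3 := Finset.sum_mul_sq_le_sq_mul_sq s (fun _ => (1 : ℝ)) (fun k => ‖c k‖)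
    simp only [one_mul, one_pow, Finset.sum_const, nsmul_eq_mul, mul_one] at a3
    rw [a2] at a1
    have a4 := mul_le_mul_of_nonneg_left a3 hη
    linarith
  have n2 := congrArg norm e1
  rw [Complex.norm_real, Real.norm_eq_abs, abs_of_nonneg (by positivity), e3] at n2
  rw [n2]
  refine (norm_add_le _ _).trans ?_
  rw [Complex.norm_real, Real.norm_eq_abs, abs_of_nonneg (by positivity)]
  linarith

variable {B : Set ℂ} {h κ : ℕ → ℝ} {W V : ℤ → ℕ → ℂ → ℂ} {F : ℕ → Finset ℕ} {e : ℕ → ℕ → ℝ}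

/-- the averaged quadratic expressions -/
def bb (W : ℤ → ℕ → ℂ → ℂ) (F : ℕ → Finset ℕ) (e : ℕ → ℕ → ℝ) (k l : ℤ) (n : ℕ) (z : ℂ) : ℂ :=
  av F e (fun i _ => W k i z * W l i z) n

/-- the local Weyl law for the sets `F n` -/
def WY (K : Set ℂ) (W : ℤ → ℕ → ℂ → ℂ) (F : ℕ → Finset ℕ) : Prop :=
  ∀ k l : ℤ, ∀ η : ℝ, 0 < η → ∀ᶠ n in atTop, ∀ z ∈ K,
    ‖(∑ i ∈ F n, W k i z * (starRingEnd ℂ) (W l i z)) / ((F n).card : ℂ) -
      (if k = l then 1 else 0)‖ ≤ η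

lemma WY.fin {K : Set ℂ} (hW : WY K W F) (s : Finset ℤ) {η : ℝ} (hη : 0 < η) :
    ∀ᶠ n in atTop, ∀ z ∈ K, ∀ k ∈ s, ∀ l ∈ s,
      ‖(∑ i ∈ F n, W k i z * (starRingEnd ℂ) (W l i z)) / ((F n).card : ℂ) -
        (if k = l then 1 else 0)‖ ≤ η := by
  have : ∀ᶠ n in atTop, ∀ k ∈ s, ∀ l ∈ s, ∀ z ∈ K,
      ‖(∑ i ∈ F n, W k i z * (starRingEnd ℂ) (W l i z)) / ((F n).card : ℂ) -
        (if k = l then 1 else 0)‖ ≤ η := by
    rw [Filter.eventually_all_finset]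
    intro k _
    rw [Filter.eventually_all_finset]
    intro l _
    exact hW k l η hη
  filter_upwards [this] with n hn z hz k hk l hl
  exact hn k hk l hl z hz

/-- the rows -/
lemma row (he : ∀ n i, |e n i| ≤ 1) {K : Set ℂ} (hW : WY K W F) (s : Finset ℤ) :
    ∀ᶠ n in atTop, ∀ z ∈ K, ∀ k ∈ s, ∑ l ∈ s, ‖bb W F e k l n z‖ ^ 2 ≤ 4 := by
  filter_upwards [hW.fin s (η := 1 / (s.card + 1)) (by positivity)] with n hn z hz k hk
  have hz' := hn z hz
  have η1 : (1 : ℝ) / (s.card + 1) * s.card ≤ 1 := by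
    rw [div_mul_eq_mul_div, div_le_one (by positivity)]; linarith
  have η2 : (1 : ℝ) / (s.card + 1) ≤ 1 := by
    rw [div_le_one (by positivity)]
    have : (0 : ℝ) ≤ s.card := Nat.cast_nonneg _
    linarith
  obtain ⟨S, hS⟩ : ∃ S, S = ∑ l ∈ s, ‖bb W F e k l n z‖ ^ 2 := ⟨_, rfl⟩
  have S0 : 0 ≤ S := by rw [hS]; exact Finset.sum_nonneg fun _ _ => sq_nonneg _
  obtain ⟨c, hc⟩ : ∃ c : ℤ → ℂ, c = fun l => (starRingEnd ℂ) (bb W F e k l n z) := ⟨_, rfl⟩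
  have cS : ∑ l ∈ s, ‖c l‖ ^ 2 = S := by
    rw [hS, hc]; simp only [Complex.norm_conj]
  -- `S` as an average
  have e1 : (S : ℂ) = av F e (fun i _ => W k i z * ∑ l ∈ s, c l * W l i z) n := by
    rw [hS]
    push_cast
    have e2 : ∀ l, ((‖bb W F e k l n z‖ : ℝ) : ℂ) ^ 2 = bb W F e k l n z * c l := by
      intro l; rw [hc, Complex.mul_conj']
    simp only [e2]
    unfold bb av
    simp only [div_mul_eq_mul_div]
    rw [← Finset.sum_div]
    congr 1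
    simp only [Finset.sum_mul, Finset.mul_sum]
    rw [Finset.sum_comm]
    refine Finset.sum_congr rfl fun i _ => Finset.sum_congr rfl fun l _ => ?_
    ring
  have q1 := quadr (F := F n) (s := s) (X := fun l i => W l i z) (η := 1 / (s.card + 1))
    (by positivity) hz' c
  rw [cS] at q1
  have q1' : (∑ i ∈ F n, ‖∑ l ∈ s, c l * W l i z‖ ^ 2) / (F n).card ≤ 2 * S :=
    q1.trans (mul_le_mul_of_nonneg_right (by linarith) S0)
  have q2 := quadr (F := F n) (s := {k}) (X := fun l i => W l i z) (η := 1 / (s.card + 1))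
    (by positivity) (fun a ha b hb => by
      rw [Finset.mem_singleton] at ha hb
      rw [ha, hb]; exact hz' k hk k hk) (fun _ => 1)
  simp only [Finset.sum_singleton, one_mul, norm_one, one_pow, mul_one, Finset.card_singleton,
    Nat.cast_one] at q2
  have q2' : (∑ i ∈ F n, ‖W k i z‖ ^ 2) / (F n).card ≤ 2 := q2.trans (by linarith)
  have n1 : S ≤ (∑ i ∈ F n, ‖W k i z‖ * ‖∑ l ∈ s, c l * W l i z‖) / (F n).card := by
    have a1 := congrArg norm e1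
    rw [Complex.norm_real, Real.norm_eq_abs, abs_of_nonneg S0] at a1
    rw [a1]
    refine (av_norm he _ n).trans (le_of_eq ?_)
    congr 1
    exact Finset.sum_congr rfl fun i _ => norm_mul _ _
  have n2 := Finset.sum_mul_sq_le_sq_mul_sq (F n) (fun i => ‖W k i z‖)
    (fun i => ‖∑ l ∈ s, c l * W l i z‖)
  have n3 : S ^ 2 ≤ 2 * (2 * S) := by
    have a1 : S ^ 2 ≤ ((∑ i ∈ F n, ‖W k i z‖ * ‖∑ l ∈ s, c l * W l i z‖) / (F n).card) ^ 2 :=
      pow_le_pow_left₀ S0 n1 2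
    have a2 : ((∑ i ∈ F n, ‖W k i z‖ * ‖∑ l ∈ s, c l * W l i z‖) / (F n).card) ^ 2 ≤
        ((∑ i ∈ F n, ‖W k i z‖ ^ 2) / (F n).card) *
          ((∑ i ∈ F n, ‖∑ l ∈ s, c l * W l i z‖ ^ 2) / (F n).card) := by
      rw [div_pow, div_mul_div_comm, ← sq]
      exact div_le_div_of_nonneg_right n2 (sq_nonneg _)
    exact a1.trans (a2.trans (mul_le_mul q2' q1' (by positivity) (by norm_num)))
  rw [← hS]
  rcases S0.eq_or_lt with h4 | h4
  · rw [← h4]; norm_num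
  · nlinarith

/-- monomials -/
def MI (W V : ℤ → ℕ → ℂ → ℂ) (φ : ℂ → ℝ) (i n : ℕ) (a : Z4) : ℂ :=
  ∫ z, (φ z : ℂ) * (W a.1 i z * W a.2.1 i z * (V a.2.2.1 n z * V a.2.2.2 n z))

/-- centred monomials -/
def JI (W V : ℤ → ℕ → ℂ → ℂ) (φ : ℂ → ℝ) (i n : ℕ) (a : Z4) : ℂ :=
  MI W V φ i n a - CC a.1 a.2.1 * CC a.2.2.1 a.2.2.2 * ((∫ z, φ z : ℝ) : ℂ)

/-- the average -/
def JA (W V : ℤ → ℕ → ℂ → ℂ) (φ : ℂ → ℝ) (F : ℕ → Finset ℕ) (e : ℕ → ℕ → ℝ) (a : Z4) (n : ℕ) :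
    ℂ := av F e (fun i n => JI W V φ i n a) n

lemma MI_int (H : SY B Complex.im h W) (H' : SY B Complex.im κ V) {φ : ℂ → ℝ} (hφ : TF B φ)
    (a : Z4) (i n : ℕ) :
    Integrable (fun z => (φ z : ℂ) *
      (W a.1 i z * W a.2.1 i z * (V a.2.2.1 n z * V a.2.2.2 n z))) :=
  TF.cint hφ ((((H.bd a.1).sm i).continuousOn.mul ((H.bd a.2.1).sm i).continuousOn).mul
    (((H'.bd a.2.2.1).sm n).continuousOn.mul ((H'.bd a.2.2.2).sm n).continuousOn))

/-- the average sign -/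
def E1 (F : ℕ → Finset ℕ) (e : ℕ → ℕ → ℝ) (n : ℕ) : ℂ := av F e (fun _ _ => 1) n

lemma E1_le (hF : ∀ n, (F n).Nonempty) (he : ∀ n i, |e n i| ≤ 1) (n : ℕ) : ‖E1 F e n‖ ≤ 1 := by
  refine (av_norm he _ n).trans ?_
  have cp : (0 : ℝ) < (F n).card := by exact_mod_cast (hF n).card_pos
  simp only [norm_one, Finset.sum_const, nsmul_eq_mul, mul_one]
  rw [div_self cp.ne']

lemma JA_eq (H : SY B Complex.im h W) (H' : SY B Complex.im κ V) {φ : ℂ → ℝ} (hφ : TF B φ)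
    (a : Z4) (n : ℕ) : JA W V φ F e a n =
      (∫ z, (φ z : ℂ) * (bb W F e a.1 a.2.1 n z * (V a.2.2.1 n z * V a.2.2.2 n z))) -
      E1 F e n * (CC a.1 a.2.1 * CC a.2.2.1 a.2.2.2 * ((∫ z, φ z : ℝ) : ℂ)) := by
  obtain ⟨m, hm⟩ : ∃ m : ℂ, m = ((∫ z, φ z : ℝ) : ℂ) := ⟨_, rfl⟩
  unfold JA JI
  rw [← hm]
  have e1 : av F e (fun i n => MI W V φ i n a - CC a.1 a.2.1 * CC a.2.2.1 a.2.2.2 * m) n =
      av F e (fun i n => MI W V φ i n a) n -
        av F e (fun _ _ => CC a.1 a.2.1 * CC a.2.2.1 a.2.2.2 * m) n := av_sub _ _ n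
  rw [e1]
  congr 1
  · have e2 : ∀ z, (φ z : ℂ) * (bb W F e a.1 a.2.1 n z * (V a.2.2.1 n z * V a.2.2.2 n z)) =
        (∑ i ∈ F n, ((e n i : ℝ) : ℂ) * ((φ z : ℂ) *
          (W a.1 i z * W a.2.1 i z * (V a.2.2.1 n z * V a.2.2.2 n z)))) / ((F n).card : ℂ) := by
      intro z
      unfold bb av
      rw [div_mul_eq_mul_div, mul_div_assoc', Finset.sum_mul, Finset.mul_sum]
      congr 1
      refine Finset.sum_congr rfl fun i _ => ?_
      ring
    simp only [e2]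
    rw [integral_div, integral_finsetSum _ fun i _ => (MI_int H H' hφ a i n).const_mul _]
    unfold av
    congr 1
    refine Finset.sum_congr rfl fun i _ => ?_
    rw [integral_const_mul]; rfl
  · have := av_mul (F := F) (e := e) (CC a.1 a.2.1 * CC a.2.2.1 a.2.2.2 * m) (fun _ _ => 1) n
    simp only [mul_one] at this
    rw [this]
    unfold E1; ring

lemma bb_cont (H : SY B Complex.im h W) (k l : ℤ) (n : ℕ) :
    ContinuousOn (bb W F e k l n) B := by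
  unfold bb av
  refine ContinuousOn.div_const (continuousOn_finsetSum _ fun i _ => continuousOn_const.mul
    (((H.bd k).sm i).continuousOn.mul ((H.bd l).sm i).continuousOn)) _

lemma bb_int (H : SY B Complex.im h W) (H' : SY B Complex.im κ V) {φ : ℂ → ℝ} (hφ : TF B φ)
    (a : Z4) (n : ℕ) :
    Integrable (fun z => (φ z : ℂ) *
      (bb W F e a.1 a.2.1 n z * (V a.2.2.1 n z * V a.2.2.2 n z))) :=
  TF.cint hφ ((bb_cont H _ _ n).mul
    (((H'.bd a.2.2.1).sm n).continuousOn.mul ((H'.bd a.2.2.2).sm n).continuousOn))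

/-- linear combinations -/
lemma JA_sum (H : SY B Complex.im h W) (H' : SY B Complex.im κ V) {φ : ℂ → ℝ} (hφ : TF B φ)
    {ι : Type} (X : Finset ι) (t : ι → ℂ) (q : ι → Z4) (n : ℕ) :
    ∑ x ∈ X, t x * JA W V φ F e (q x) n =
      (∫ z, (φ z : ℂ) * ∑ x ∈ X, t x * (bb W F e (q x).1 (q x).2.1 n z *
        (V (q x).2.2.1 n z * V (q x).2.2.2 n z))) -
      E1 F e n * ((∑ x ∈ X, t x * (CC (q x).1 (q x).2.1 * CC (q x).2.2.1 (q x).2.2.2)) *
        ((∫ z, φ z : ℝ) : ℂ)) := by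
  have e1 : ∀ z, (φ z : ℂ) * ∑ x ∈ X, t x * (bb W F e (q x).1 (q x).2.1 n z *
      (V (q x).2.2.1 n z * V (q x).2.2.2 n z)) = ∑ x ∈ X, t x * ((φ z : ℂ) *
        (bb W F e (q x).1 (q x).2.1 n z * (V (q x).2.2.1 n z * V (q x).2.2.2 n z))) := by
    intro z
    rw [Finset.mul_sum]
    exact Finset.sum_congr rfl fun x _ => by ring
  simp only [e1]
  rw [integral_finsetSum _ fun x _ => (bb_int H H' hφ (q x) n).const_mul _, Finset.sum_mul,
    Finset.mul_sum, ← Finset.sum_sub_distrib]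
  refine Finset.sum_congr rfl fun x _ => ?_
  rw [JA_eq H H' hφ, integral_const_mul]; ring

/-- mean squares -/
lemma V_lim (H' : SY B Complex.im κ V) {φ : ℂ → ℝ} (hφ : TF B φ) (k : ℤ) :
    Tendsto (fun n => ∫ z, φ z * ‖V k n z‖ ^ 2) atTop (𝓝 (∫ z, φ z)) := by
  have h1 := (H'.two k (-k)).nul φ hφ
  have h2 : Tendsto (fun n => ∫ z, (φ z : ℂ) * (V k n z * V (-k) n z - CC k (-k))) atTop
      (𝓝 0) := h1
  have h3 := h2.const_mul ((-1) ^ k.natAbs)
  rw [mul_zero] at h3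
  have h4 := (Complex.continuous_re.tendsto _).comp h3
  rw [Complex.zero_re] at h4
  have h5 := h4.add_const (∫ z, φ z)
  rw [zero_add] at h5
  refine h5.congr fun n => ?_
  have i1 : Integrable (fun z => (φ z : ℂ) * (V k n z * V (-k) n z)) :=
    TF.cint hφ (((H'.bd k).sm n).continuousOn.mul ((H'.bd (-k)).sm n).continuousOn)
  have i0 : Integrable (fun z => (φ z : ℂ)) :=
    (hφ.1.continuous.integrable_of_hasCompactSupport hφ.2.1).ofReal
  have e1 : ∫ z, (φ z : ℂ) * (V k n z * V (-k) n z - CC k (-k)) =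
      (∫ z, (φ z : ℂ) * (V k n z * V (-k) n z)) - CC k (-k) * ((∫ z, φ z : ℝ) : ℂ) := by
    rw [← integral_complex_ofReal, ← integral_const_mul, ← integral_sub i1 (i0.const_mul _)]
    congr 1; funext z; ring
  have e2 : (-1 : ℂ) ^ k.natAbs * (∫ z, (φ z : ℂ) * (V k n z * V (-k) n z)) =
      ((∫ z, φ z * ‖V k n z‖ ^ 2 : ℝ) : ℂ) := by
    rw [← integral_complex_ofReal, ← integral_const_mul]
    congr 1; funext z
    by_cases hz : z ∈ B
    · push_cast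
      rw [← Complex.mul_conj', H'.cj k n z hz]; ring
    · rw [TF.zero hφ hz]; simp
  have e3 : CC k (-k) = (-1) ^ k.natAbs := by unfold CC; rw [if_pos (by ring)]
  simp only [Function.comp_apply]
  rw [e1, mul_sub, e2, e3]
  have e4 : ((∫ z, φ z * ‖V k n z‖ ^ 2 : ℝ) : ℂ) - (-1) ^ k.natAbs *
      ((-1) ^ k.natAbs * ((∫ z, φ z : ℝ) : ℂ)) =
      (((∫ z, φ z * ‖V k n z‖ ^ 2) - ∫ z, φ z : ℝ) : ℂ) := by
    rw [← mul_assoc, sgn2]; push_cast; ring
  rw [e4, Complex.ofReal_re]; ring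

/-- integrals bounded by mean squares -/
lemma int_bd (H' : SY B Complex.im κ V) {φ : ℂ → ℝ} (hφ : TF B φ) (hφ0 : ∀ z, 0 ≤ φ z)
    (s : Finset ℤ) : ∀ᶠ n in atTop, ∀ (x : ℤ → ℝ) (G : ℂ → ℂ), (∀ k ∈ s, 0 ≤ x k) →
      (∀ z ∈ tsupport φ, ‖G z‖ ≤ ∑ k ∈ s, x k * ‖V k n z‖ ^ 2) →
      ‖∫ z, (φ z : ℂ) * G z‖ ≤ (∑ k ∈ s, x k) * ((∫ z, φ z) + 1) := by
  have h1 : ∀ᶠ n in atTop, ∀ k ∈ s, ∫ z, φ z * ‖V k n z‖ ^ 2 ≤ (∫ z, φ z) + 1 := by
    rw [Filter.eventually_all_finset]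
    intro k _
    filter_upwards [(V_lim H' hφ k).eventually (gt_mem_nhds (lt_add_one _))] with n hn
    exact hn.le
  filter_upwards [h1] with n hn x G hx hG
  have r : ∀ k, Integrable (fun z => φ z * ‖V k n z‖ ^ 2) := by
    intro k
    have g1 := TF.cint hφ ((continuous_ofReal.comp_continuousOn
      ((H'.bd k).sm n).continuousOn.norm).pow 2)
    have g2 := g1.re
    refine g2.congr (Eventually.of_forall fun z => ?_)
    simp only [Pi.pow_apply, Function.comp_apply, RCLike.re_eq_complex_re]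
    rw [← ofReal_pow, ← ofReal_mul, ofReal_re]
  have b1 : ‖∫ z, (φ z : ℂ) * G z‖ ≤ ∫ z, ∑ k ∈ s, x k * (φ z * ‖V k n z‖ ^ 2) := by
    refine norm_integral_le_of_norm_le (integrable_finsetSum _ fun k _ => (r k).const_mul _)
      (Eventually.of_forall fun z => ?_)
    rw [norm_mul, Complex.norm_real, Real.norm_eq_abs, abs_of_nonneg (hφ0 z)]
    by_cases hz : z ∈ tsupport φ
    · have := mul_le_mul_of_nonneg_left (hG z hz) (hφ0 z)
      refine this.trans (le_of_eq ?_)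
      rw [Finset.mul_sum]
      exact Finset.sum_congr rfl fun k _ => by ring
    · rw [image_eq_zero_of_notMem_tsupport hz]; simp
  refine b1.trans ?_
  rw [integral_finsetSum _ fun k _ => (r k).const_mul _, Finset.sum_mul]
  refine Finset.sum_le_sum fun k hk => ?_
  rw [integral_const_mul]
  exact mul_le_mul_of_nonneg_left (hn k hk) (hx k hk)

section
variable (H : SY B Complex.im h W) (H' : SY B Complex.im κ V) {φ : ℂ → ℝ} (hφ : TF B φ)
  (hφ0 : ∀ z, 0 ≤ φ z) (hF : ∀ n, (F n).Nonempty) (he : ∀ n i, |e n i| ≤ 1)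
  (hW : WY (tsupport φ) W F)
include H H' hφ hφ0 hF he hW

/-- the monomials are bounded -/
lemma JA_d1 (a : Z4) : ∀ᶠ n in atTop, ‖JA W V φ F e a n‖ ≤ 3 * ((∫ z, φ z) + 1) := by
  classical
  have m0 : 0 ≤ ∫ z, φ z := integral_nonneg hφ0
  filter_upwards [row he hW {a.1, a.2.1}, int_bd H' hφ hφ0 {a.2.2.1, a.2.2.2}] with n g1 g2
  rw [JA_eq H H' hφ]
  have b1 : ‖∫ z, (φ z : ℂ) * (bb W F e a.1 a.2.1 n z * (V a.2.2.1 n z * V a.2.2.2 n z))‖ ≤
      2 * ((∫ z, φ z) + 1) := by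
    have g3 := g2 (fun k => (if k = a.2.2.1 then 1 else 0) + (if k = a.2.2.2 then 1 else 0))
      (fun z => bb W F e a.1 a.2.1 n z * (V a.2.2.1 n z * V a.2.2.2 n z))
      (fun k _ => by positivity) ?_
    · refine g3.trans (mul_le_mul_of_nonneg_right ?_ (by positivity))
      rw [Finset.sum_add_distrib, Finset.sum_ite_eq', Finset.sum_ite_eq', if_pos (by simp),
        if_pos (by simp)]
      norm_num
    · intro z hz
      have e1 : ∑ k ∈ ({a.2.2.1, a.2.2.2} : Finset ℤ), ((if k = a.2.2.1 then (1 : ℝ) else 0) +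
          (if k = a.2.2.2 then 1 else 0)) * ‖V k n z‖ ^ 2 =
          ‖V a.2.2.1 n z‖ ^ 2 + ‖V a.2.2.2 n z‖ ^ 2 := by
        simp only [add_mul, ite_mul, one_mul, zero_mul]
        rw [Finset.sum_add_distrib, Finset.sum_ite_eq', Finset.sum_ite_eq', if_pos (by simp),
          if_pos (by simp)]
      rw [e1, norm_mul, norm_mul]
      have g4 := g1 z hz a.1 (by simp)
      have g5 : ‖bb W F e a.1 a.2.1 n z‖ ^ 2 ≤ 4 :=
        (Finset.single_le_sum (f := fun l => ‖bb W F e a.1 l n z‖ ^ 2)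
          (fun _ _ => sq_nonneg _) (by simp : a.2.1 ∈ ({a.1, a.2.1} : Finset ℤ))).trans g4
      have g6 : ‖bb W F e a.1 a.2.1 n z‖ ≤ 2 := by
        nlinarith [norm_nonneg (bb W F e a.1 a.2.1 n z)]
      obtain ⟨p, hp⟩ : ∃ p, p = ‖V a.2.2.1 n z‖ := ⟨_, rfl⟩
      obtain ⟨q, hq⟩ : ∃ q, q = ‖V a.2.2.2 n z‖ := ⟨_, rfl⟩
      have p0 : 0 ≤ p := by rw [hp]; exact norm_nonneg _
      have q0 : 0 ≤ q := by rw [hq]; exact norm_nonneg _
      rw [← hp, ← hq]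
      calc _ ≤ 2 * (p * q) := mul_le_mul_of_nonneg_right g6 (by positivity)
        _ ≤ p ^ 2 + q ^ 2 := by nlinarith [sq_nonneg (p - q)]
  have b2 : ‖E1 F e n * (CC a.1 a.2.1 * CC a.2.2.1 a.2.2.2 * ((∫ z, φ z : ℝ) : ℂ))‖ ≤
      ∫ z, φ z := by
    have cc : ∀ j k : ℤ, ‖CC j k‖ ≤ 1 := by
      intro j k
      unfold CC
      split_ifs
      · simp
      · simp
    rw [norm_mul, norm_mul, norm_mul, Complex.norm_real, Real.norm_eq_abs, abs_of_nonneg m0]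
    have c1 : ‖CC a.1 a.2.1‖ * ‖CC a.2.2.1 a.2.2.2‖ ≤ 1 * 1 :=
      mul_le_mul (cc _ _) (cc _ _) (norm_nonneg _) zero_le_one
    have c2 : ‖CC a.1 a.2.1‖ * ‖CC a.2.2.1 a.2.2.2‖ * (∫ z, φ z) ≤ 1 * 1 * ∫ z, φ z :=
      mul_le_mul_of_nonneg_right c1 m0
    calc _ ≤ 1 * (1 * 1 * ∫ z, φ z) := mul_le_mul (E1_le hF he n) c2 (by positivity) zero_le_one
      _ = _ := by ring
  refine (norm_sub_le _ _).trans ?_
  linarith

/-- the mixed quadratic expressions -/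
lemma JA_d2 (σ : ℤ) (hσ : σ = 1 ∨ σ = -1) (s : Finset ℤ) (c : ℤ → ℝ) : ∀ᶠ n in atTop,
    ‖∑ k ∈ s, ∑ l ∈ s, ((c k : ℝ) : ℂ) * (((c l : ℝ) : ℂ) *
      JA W V φ F e (σ * k, -(σ * l), -(σ * k), σ * l) n)‖ ≤
      3 * ((∫ z, φ z) + 1) * ∑ k ∈ s, c k ^ 2 := by
  classical
  have m0 : 0 ≤ ∫ z, φ z := integral_nonneg hφ0
  have inj : ∀ k l : ℤ, σ * k = σ * l ↔ k = l := by
    intro k l; rcases hσ with h | h <;> rw [h] <;> omega
  have tB : tsupport φ ⊆ B := hφ.2.2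
  filter_upwards [hW.fin (s.image fun k => σ * k) (η := 1 / (s.card + 1)) (by positivity),
    int_bd H' hφ hφ0 (s.image fun k => -(σ * k))] with n g1 g2
  obtain ⟨N2', hN2⟩ : ∃ x, x = ∑ k ∈ s, c k ^ 2 := ⟨_, rfl⟩
  have N20 : 0 ≤ N2' := by rw [hN2]; exact Finset.sum_nonneg fun _ _ => sq_nonneg _
  rw [← hN2]
  have e0 : ∑ k ∈ s, ∑ l ∈ s, ((c k : ℝ) : ℂ) * (((c l : ℝ) : ℂ) *
      JA W V φ F e (σ * k, -(σ * l), -(σ * k), σ * l) n) =
      ∑ x ∈ s ×ˢ s, (((c x.1 : ℝ) : ℂ) * ((c x.2 : ℝ) : ℂ)) *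
        JA W V φ F e (σ * x.1, -(σ * x.2), -(σ * x.1), σ * x.2) n := by
    rw [Finset.sum_product]
    refine Finset.sum_congr rfl fun k _ => Finset.sum_congr rfl fun l _ => ?_
    ring
  rw [e0, JA_sum H H' hφ]
  have b2 : ‖E1 F e n * ((∑ x ∈ s ×ˢ s, (((c x.1 : ℝ) : ℂ) * ((c x.2 : ℝ) : ℂ)) *
      (CC (σ * x.1) (-(σ * x.2)) * CC (-(σ * x.1)) (σ * x.2))) * ((∫ z, φ z : ℝ) : ℂ))‖ ≤
      N2' * ∫ z, φ z := by
    have e1 : ∑ x ∈ s ×ˢ s, (((c x.1 : ℝ) : ℂ) * ((c x.2 : ℝ) : ℂ)) *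
        (CC (σ * x.1) (-(σ * x.2)) * CC (-(σ * x.1)) (σ * x.2)) = ((N2' : ℝ) : ℂ) := by
      rw [Finset.sum_product, hN2]
      push_cast
      refine Finset.sum_congr rfl fun k hk => ?_
      rw [Finset.sum_eq_single k]
      · unfold CC
        rw [if_pos (by ring), if_pos (by ring), Int.natAbs_neg, sgn2]; ring
      · intro l _ hl
        unfold CC
        have : ¬ (σ * k + -(σ * l) = 0) := by
          intro h
          exact hl ((inj k l).1 (by linarith)).symm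
        rw [if_neg this]; ring
      · intro h; exact absurd hk h
    rw [e1, norm_mul, norm_mul, Complex.norm_real, Complex.norm_real, Real.norm_eq_abs,
      Real.norm_eq_abs, abs_of_nonneg m0, abs_of_nonneg N20]
    have := mul_le_mul_of_nonneg_right (E1_le hF he n) (by positivity : 0 ≤ N2' * ∫ z, φ z)
    linarith
  have b1 := g2 (fun k => 2 * c (σ * (-k)) ^ 2) (fun z => ∑ x ∈ s ×ˢ s,
    (((c x.1 : ℝ) : ℂ) * ((c x.2 : ℝ) : ℂ)) * (bb W F e (σ * x.1) (-(σ * x.2)) n z *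
      (V (-(σ * x.1)) n z * V (σ * x.2) n z))) (fun k _ => by positivity) ?_
  · have e2 : ∑ k ∈ s.image (fun k => -(σ * k)), 2 * c (σ * (-k)) ^ 2 = 2 * N2' := by
      rw [Finset.sum_image (fun a _ b _ hab => (inj a b).1 (by linarith)), hN2, Finset.mul_sum]
      refine Finset.sum_congr rfl fun k _ => ?_
      have : σ * (- -(σ * k)) = k := by rcases hσ with h | h <;> rw [h] <;> ring
      rw [this]
    rw [e2] at b1
    refine (norm_sub_le _ _).trans ?_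
    have b3 := add_le_add b1 b2
    refine b3.trans ?_
    nlinarith
  · intro z hz
    have hzB := tB hz
    obtain ⟨U, hU⟩ : ∃ U : ℕ → ℂ, U = fun i => ∑ k ∈ s, (((c k : ℝ) : ℂ) * V (-(σ * k)) n z) *
      W (σ * k) i z := ⟨_, rfl⟩
    have e3 : ∑ x ∈ s ×ˢ s, (((c x.1 : ℝ) : ℂ) * ((c x.2 : ℝ) : ℂ)) *
        (bb W F e (σ * x.1) (-(σ * x.2)) n z * (V (-(σ * x.1)) n z * V (σ * x.2) n z)) =
        av F e (fun i _ => U i * (starRingEnd ℂ) (U i)) n := by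
      have cu : ∀ i, (starRingEnd ℂ) (U i) = ∑ l ∈ s, (((c l : ℝ) : ℂ) * V (σ * l) n z) *
          W (-(σ * l)) i z := by
        intro i
        rw [hU, map_sum]
        refine Finset.sum_congr rfl fun l _ => ?_
        rw [map_mul, map_mul, H.cj (σ * l) i z hzB, H'.cj (-(σ * l)) n z hzB, neg_neg,
          Int.natAbs_neg, conj_ofReal]
        linear_combination (((c l : ℝ) : ℂ) * V (σ * l) n z * W (-(σ * l)) i z) * sgn2 (σ * l)
      have ex : ∀ i, ((e n i : ℝ) : ℂ) * (U i * (starRingEnd ℂ) (U i)) = ∑ k ∈ s, ∑ l ∈ s,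
          ((e n i : ℝ) : ℂ) * (((((c k : ℝ) : ℂ) * V (-(σ * k)) n z) * W (σ * k) i z) *
            ((((c l : ℝ) : ℂ) * V (σ * l) n z) * W (-(σ * l)) i z)) := by
        intro i
        rw [cu, hU, Finset.sum_mul_sum, Finset.mul_sum]
        refine Finset.sum_congr rfl fun k _ => ?_
        rw [Finset.mul_sum]
      unfold av
      simp only [ex]
      rw [Finset.sum_comm, Finset.sum_product, Finset.sum_div]
      refine Finset.sum_congr rfl fun k _ => ?_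
      rw [Finset.sum_comm, Finset.sum_div]
      refine Finset.sum_congr rfl fun l _ => ?_
      unfold bb av
      rw [div_mul_eq_mul_div, mul_div_assoc', Finset.sum_mul, Finset.mul_sum]
      congr 1
      refine Finset.sum_congr rfl fun i _ => ?_
      ring
    show ‖∑ x ∈ s ×ˢ s, (((c x.1 : ℝ) : ℂ) * ((c x.2 : ℝ) : ℂ)) *
        (bb W F e (σ * x.1) (-(σ * x.2)) n z * (V (-(σ * x.1)) n z * V (σ * x.2) n z))‖ ≤ _
    rw [e3]
    have q1 := quadr (F := F n) (s := s) (X := fun k i => W (σ * k) i z)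
      (η := 1 / (s.card + 1)) (by positivity) (fun k hk l hl => by
        have := g1 z hz (σ * k) (Finset.mem_image_of_mem _ hk) (σ * l)
          (Finset.mem_image_of_mem _ hl)
        simp only [inj] at this
        exact this) (fun k => ((c k : ℝ) : ℂ) * V (-(σ * k)) n z)
    have η1 : (1 : ℝ) / (s.card + 1) * s.card ≤ 1 := by
      rw [div_mul_eq_mul_div, div_le_one (by positivity)]; linarith
    refine (av_norm he _ n).trans ?_
    have e4 : ∀ i, ‖U i * (starRingEnd ℂ) (U i)‖ = ‖U i‖ ^ 2 := by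
      intro i; rw [norm_mul, Complex.norm_conj, sq]
    simp only [e4]
    have q2 : (∑ i ∈ F n, ‖U i‖ ^ 2) / (F n).card ≤
        (1 + 1 / (s.card + 1) * s.card) *
          ∑ k ∈ s, ‖((c k : ℝ) : ℂ) * V (-(σ * k)) n z‖ ^ 2 := by
      rw [hU]; exact q1
    refine q2.trans ?_
    have e5 : ∑ k ∈ s.image (fun k => -(σ * k)), 2 * c (σ * (-k)) ^ 2 * ‖V k n z‖ ^ 2 =
        2 * ∑ k ∈ s, ‖((c k : ℝ) : ℂ) * V (-(σ * k)) n z‖ ^ 2 := by
      rw [Finset.sum_image (fun a _ b _ hab => (inj a b).1 (by linarith)), Finset.mul_sum]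
      refine Finset.sum_congr rfl fun k _ => ?_
      have : σ * (- -(σ * k)) = k := by rcases hσ with h | h <;> rw [h] <;> ring
      rw [this, norm_mul, Complex.norm_real, Real.norm_eq_abs, mul_pow, sq_abs]; ring
    rw [e5]
    exact mul_le_mul_of_nonneg_right (by linarith) (Finset.sum_nonneg fun _ _ => sq_nonneg _)

end

end

end Pool.Agent.J4H76.AP
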