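import Pool.Agent.J4H76.AP.Dom

/-! The Hilbert-Schmidt bound. -/
set_option autoImplicit false
open MeasureTheory Filter Topology Complex Set
open scoped ContDiff Real Manifold

namespace Pool.Agent.J4H76.AP

noncomputable section

open Pool.Agent.W745.RW Pool.Agent.TH294.RS Pool.Agent.Y265.HY
open Pool.Agent.J4H76.TP
open AddMonoidAlgebra (single)

lemma inj_sum {ι : Type} [DecidableEq ι] (X : Finset ι) (g : ι → ℤ × ℤ) (s : Finset ℤ)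
    (hi : ∀ x ∈ X, ∀ y ∈ X, g x = g y → x = y) (hs : ∀ x ∈ X, g x ∈ s ×ˢ s) (f : ℤ × ℤ → ℝ)
    (hf : ∀ p, 0 ≤ f p) : ∑ x ∈ X, f (g x) ≤ ∑ k ∈ s, ∑ l ∈ s, f (k, l) := by
  have e : ∑ k ∈ s, ∑ l ∈ s, f (k, l) = ∑ p ∈ s ×ˢ s, f p := by rw [Finset.sum_product]
  rw [e, ← Finset.sum_image (f := f) (g := g) (s := X) (fun x hx y hy h => hi x hx y hy h)]
  refine Finset.sum_le_sum_of_subset_of_nonneg ?_ fun p _ _ => hf p
  intro p hp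
  obtain ⟨x, hx, rfl⟩ := Finset.mem_image.1 hp
  exact hs x hx

/-- the pointwise bound -/
lemma ptw {K R : ℕ} {t : ℕ → ℤ → ℝ} {Λ : ℝ} (hΛ0 : 0 ≤ Λ)
    (hΛ : ∀ y : ℤ → ℝ, ∑ j ∈ Finset.range K, (∑ r ∈ Finset.Icc (-(R : ℤ)) R, t j r * y r) ^ 2 ≤
      Λ * ∑ r ∈ Finset.Icc (-(R : ℤ)) R, y r ^ 2) (s : Finset ℤ)
    (hs : s = Finset.Icc (-((2 * K + R : ℕ) : ℤ)) (2 * K + R : ℕ)) (α β : ℤ → ℤ → ℂ) :
    ‖∑ x ∈ Finset.Icc (-(K : ℤ)) K ×ˢ (Finset.range K ×ˢ Finset.Icc (-(R : ℤ)) R),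
      ((t x.2.1 x.2.2 : ℝ) : ℂ) * (α (x.1 + x.2.1) (x.1 - x.2.1) *
        β (-x.1 + x.2.2) (-x.1 - x.2.2))‖ ≤
      √(∑ k ∈ s, ∑ l ∈ s, ‖α k l‖ ^ 2) * √(Λ * ∑ k ∈ s, ∑ l ∈ s, ‖β k l‖ ^ 2) := by
  classical
  obtain ⟨Y, hY⟩ : ∃ Y : ℤ → ℕ → ℂ, Y = fun d j => ∑ r ∈ Finset.Icc (-(R : ℤ)) R,
    ((t j r : ℝ) : ℂ) * β (-d + r) (-d - r) := ⟨_, rfl⟩
  have e1 : ∑ x ∈ Finset.Icc (-(K : ℤ)) K ×ˢ (Finset.range K ×ˢ Finset.Icc (-(R : ℤ)) R),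
      ((t x.2.1 x.2.2 : ℝ) : ℂ) * (α (x.1 + x.2.1) (x.1 - x.2.1) *
        β (-x.1 + x.2.2) (-x.1 - x.2.2)) =
      ∑ x ∈ Finset.Icc (-(K : ℤ)) K ×ˢ Finset.range K, α (x.1 + x.2) (x.1 - x.2) * Y x.1 x.2 := by
    rw [Finset.sum_product, Finset.sum_product]
    refine Finset.sum_congr rfl fun d _ => ?_
    rw [Finset.sum_product]
    refine Finset.sum_congr rfl fun j _ => ?_
    rw [hY]
    simp only
    rw [Finset.mul_sum]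
    refine Finset.sum_congr rfl fun r _ => ?_
    ring
  rw [e1]
  have b1 : ∑ x ∈ Finset.Icc (-(K : ℤ)) K ×ˢ Finset.range K,
      ‖α (x.1 + x.2) (x.1 - x.2)‖ ^ 2 ≤ ∑ k ∈ s, ∑ l ∈ s, ‖α k l‖ ^ 2 := by
    refine inj_sum (Finset.Icc (-(K : ℤ)) K ×ˢ Finset.range K)
      (fun x => (x.1 + (x.2 : ℤ), x.1 - (x.2 : ℤ))) s ?_ ?_ (fun p => ‖α p.1 p.2‖ ^ 2)
      (fun p => sq_nonneg _)
    · intro x _ y _ hxy
      simp only [Prod.mk.injEq] at hxy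
      refine Prod.ext ?_ ?_ <;> omega
    · intro x hx
      rw [Finset.mem_product, Finset.mem_Icc, Finset.mem_range] at hx
      rw [hs, Finset.mem_product, Finset.mem_Icc, Finset.mem_Icc]
      push_cast
      refine ⟨⟨?_, ?_⟩, ?_, ?_⟩ <;> omega
  have b2 : ∀ d, ∑ j ∈ Finset.range K, ‖Y d j‖ ^ 2 ≤
      Λ * ∑ r ∈ Finset.Icc (-(R : ℤ)) R, ‖β (-d + r) (-d - r)‖ ^ 2 := by
    intro d
    have h1 := hΛ (fun r => (β (-d + r) (-d - r)).re)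
    have h2 := hΛ (fun r => (β (-d + r) (-d - r)).im)
    have e2 : ∀ j, ‖Y d j‖ ^ 2 = (∑ r ∈ Finset.Icc (-(R : ℤ)) R, t j r *
        (β (-d + r) (-d - r)).re) ^ 2 + (∑ r ∈ Finset.Icc (-(R : ℤ)) R, t j r *
        (β (-d + r) (-d - r)).im) ^ 2 := by
      intro j
      rw [← Complex.normSq_eq_norm_sq, Complex.normSq_apply, hY]
      simp only [Complex.re_sum, Complex.im_sum, Complex.re_ofReal_mul, Complex.im_ofReal_mul]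
      ring
    have e3 : ∀ r, ‖β (-d + r) (-d - r)‖ ^ 2 = (β (-d + r) (-d - r)).re ^ 2 +
        (β (-d + r) (-d - r)).im ^ 2 := by
      intro r
      rw [← Complex.normSq_eq_norm_sq, Complex.normSq_apply]; ring
    simp only [e2, e3]
    rw [Finset.sum_add_distrib, Finset.sum_add_distrib, mul_add]
    exact add_le_add h1 h2
  have b3 : ∑ x ∈ Finset.Icc (-(K : ℤ)) K ×ˢ Finset.range K, ‖Y x.1 x.2‖ ^ 2 ≤
      Λ * ∑ k ∈ s, ∑ l ∈ s, ‖β k l‖ ^ 2 := by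
    rw [Finset.sum_product]
    refine (Finset.sum_le_sum fun d _ => b2 d).trans ?_
    rw [← Finset.mul_sum]
    refine mul_le_mul_of_nonneg_left ?_ hΛ0
    rw [← Finset.sum_product (f := fun x : ℤ × ℤ => ‖β (-x.1 + x.2) (-x.1 - x.2)‖ ^ 2)]
    refine inj_sum (Finset.Icc (-(K : ℤ)) K ×ˢ Finset.Icc (-(R : ℤ)) R)
      (fun x => (-x.1 + x.2, -x.1 - x.2)) s ?_ ?_ (fun p => ‖β p.1 p.2‖ ^ 2)
      (fun p => sq_nonneg _)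
    · intro x _ y _ hxy
      simp only [Prod.mk.injEq] at hxy
      refine Prod.ext ?_ ?_ <;> omega
    · intro x hx
      rw [Finset.mem_product, Finset.mem_Icc, Finset.mem_Icc] at hx
      rw [hs, Finset.mem_product, Finset.mem_Icc, Finset.mem_Icc]
      push_cast
      refine ⟨⟨?_, ?_⟩, ?_, ?_⟩ <;> omega
  have b4 : ‖∑ x ∈ Finset.Icc (-(K : ℤ)) K ×ˢ Finset.range K,
      α (x.1 + x.2) (x.1 - x.2) * Y x.1 x.2‖ ≤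
      ∑ x ∈ Finset.Icc (-(K : ℤ)) K ×ˢ Finset.range K,
        ‖α (x.1 + x.2) (x.1 - x.2)‖ * ‖Y x.1 x.2‖ := by
    refine (norm_sum_le _ _).trans (le_of_eq ?_)
    exact Finset.sum_congr rfl fun x _ => norm_mul _ _
  refine b4.trans ?_
  have b5 := Finset.sum_mul_sq_le_sq_mul_sq (Finset.Icc (-(K : ℤ)) K ×ˢ Finset.range K)
    (fun x => ‖α (x.1 + x.2) (x.1 - x.2)‖) (fun x => ‖Y x.1 x.2‖)
  rw [← Real.sqrt_mul (Finset.sum_nonneg fun _ _ => Finset.sum_nonneg fun _ _ => sq_nonneg _)]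
  refine Real.le_sqrt_of_sq_le (b5.trans ?_)
  exact mul_le_mul b1 b3 (Finset.sum_nonneg fun _ _ => sq_nonneg _)
    (Finset.sum_nonneg fun _ _ => Finset.sum_nonneg fun _ _ => sq_nonneg _)

variable {B : Set ℂ} {h κ : ℕ → ℝ} {W V : ℤ → ℕ → ℂ → ℂ} {F : ℕ → Finset ℕ} {e : ℕ → ℕ → ℝ}

/-- the Gaussian part vanishes -/
lemma gauss0 {K R : ℕ} {t : ℕ → ℤ → ℝ}
    (h0 : ∀ j, j < K → ∑ r ∈ Finset.Icc (-(R : ℤ)) R, t j r * (-1) ^ r.natAbs = 0) :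
    ∑ x ∈ Finset.Icc (-(K : ℤ)) K ×ˢ (Finset.range K ×ˢ Finset.Icc (-(R : ℤ)) R),
      ((t x.2.1 x.2.2 : ℝ) : ℂ) * (CC (x.1 + x.2.1) (x.1 - x.2.1) *
        CC (-x.1 + x.2.2) (-x.1 - x.2.2)) = 0 := by
  rw [Finset.sum_product]
  refine Finset.sum_eq_zero fun d _ => ?_
  rw [Finset.sum_product]
  refine Finset.sum_eq_zero fun j hj => ?_
  rw [Finset.mem_range] at hj
  simp only
  by_cases hd : d = 0
  · subst hd
    have e1 : ∀ r : ℤ, ((t j r : ℝ) : ℂ) * (CC (0 + (j : ℤ)) (0 - (j : ℤ)) *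
        CC (-0 + r) (-0 - r)) = CC (0 + (j : ℤ)) (0 - (j : ℤ)) *
          (((t j r * (-1) ^ r.natAbs : ℝ)) : ℂ) := by
      intro r
      have : CC (-0 + r) (-0 - r) = (-1) ^ r.natAbs := by
        unfold CC; rw [if_pos (by ring)]; simp
      rw [this]; push_cast; ring
    simp only [e1]
    rw [← Finset.mul_sum, ← Complex.ofReal_sum, h0 j hj]; simp
  · refine Finset.sum_eq_zero fun r _ => ?_
    have : CC (d + (j : ℤ)) (d - (j : ℤ)) = 0 := by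
      unfold CC; rw [if_neg (by omega)]
    rw [this]; ring

section
variable (H : SY B Complex.im h W) (H' : SY B Complex.im κ V) {φ : ℂ → ℝ} (hφ : TF B φ)
  (hφ0 : ∀ z, 0 ≤ φ z) (hF : ∀ n, (F n).Nonempty) (he : ∀ n i, |e n i| ≤ 1)
  (hW : WY (tsupport φ) W F)
include H H' hφ hφ0 hF he hW

/-- the two bounds -/
lemma JA_d3 {K R : ℕ} {t : ℕ → ℤ → ℝ} {Λ : ℝ} (hΛ0 : 0 ≤ Λ)
    (hΛ : ∀ y : ℤ → ℝ, ∑ j ∈ Finset.range K, (∑ r ∈ Finset.Icc (-(R : ℤ)) R, t j r * y r) ^ 2 ≤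
      Λ * ∑ r ∈ Finset.Icc (-(R : ℤ)) R, y r ^ 2)
    (h0 : ∀ j, j < K → ∑ r ∈ Finset.Icc (-(R : ℤ)) R, t j r * (-1) ^ r.natAbs = 0) :
    ∀ᶠ n in atTop,
      ‖∑ x ∈ Finset.Icc (-(K : ℤ)) K ×ˢ (Finset.range K ×ˢ Finset.Icc (-(R : ℤ)) R),
        ((t x.2.1 x.2.2 : ℝ) : ℂ) * JA W V φ F e (x.1 + x.2.1, x.1 - x.2.1,
          -x.1 + x.2.2, -x.1 - x.2.2) n‖ ≤
        2 * ((∫ z, φ z) + 1) * (√(Λ * (2 * (2 * K + R) + 1)) * (2 * (2 * K + R) + 1)) ∧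
      ‖∑ x ∈ Finset.Icc (-(K : ℤ)) K ×ˢ (Finset.range K ×ˢ Finset.Icc (-(R : ℤ)) R),
        ((t x.2.1 x.2.2 : ℝ) : ℂ) * JA W V φ F e (-x.1 + x.2.2, -x.1 - x.2.2,
          x.1 + x.2.1, x.1 - x.2.1) n‖ ≤
        2 * ((∫ z, φ z) + 1) * (√(Λ * (2 * (2 * K + R) + 1)) * (2 * (2 * K + R) + 1)) := by
  classical
  have m0 : 0 ≤ ∫ z, φ z := integral_nonneg hφ0
  obtain ⟨s, hs⟩ : ∃ s, s = Finset.Icc (-((2 * K + R : ℕ) : ℤ)) (2 * K + R : ℕ) := ⟨_, rfl⟩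
  obtain ⟨N, hN⟩ : ∃ N : ℝ, N = 2 * (2 * K + R) + 1 := ⟨_, rfl⟩
  have N0 : 0 < N := by rw [hN]; positivity
  have cs' : (s.card : ℝ) = N := by
    rw [hs, Int.card_Icc, hN]
    have : (((2 * K + R : ℕ) : ℤ) + 1 - -((2 * K + R : ℕ) : ℤ)).toNat = 2 * (2 * K + R) + 1 := by
      omega
    rw [this]; push_cast; ring
  rw [← hN]
  have fin : ∀ n : ℕ, (∀ (x : ℤ → ℝ) (G : ℂ → ℂ), (∀ k ∈ s, 0 ≤ x k) →
      (∀ z ∈ tsupport φ, ‖G z‖ ≤ ∑ k ∈ s, x k * ‖V k n z‖ ^ 2) →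
      ‖∫ z, (φ z : ℂ) * G z‖ ≤ (∑ k ∈ s, x k) * ((∫ z, φ z) + 1)) → ∀ G : ℂ → ℂ,
      (∀ z ∈ tsupport φ, ‖G z‖ ≤ √(4 * Λ * N) * ∑ k ∈ s, ‖V k n z‖ ^ 2) →
      ‖∫ z, (φ z : ℂ) * G z‖ ≤ 2 * ((∫ z, φ z) + 1) * (√(Λ * N) * N) := by
    intro n g G hG
    have g1 := g (fun _ => √(4 * Λ * N)) G (fun _ _ => Real.sqrt_nonneg _)
      (fun z hz => by rw [← Finset.mul_sum]; exact hG z hz)
    rw [Finset.sum_const, nsmul_eq_mul, cs'] at g1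
    refine g1.trans (le_of_eq ?_)
    have : √(4 * Λ * N) = 2 * √(Λ * N) := by
      have e4 : 4 * Λ * N = 2 ^ 2 * (Λ * N) := by ring
      rw [e4, Real.sqrt_mul (by norm_num), Real.sqrt_sq (by norm_num)]
    rw [this]; ring
  filter_upwards [row he hW s, int_bd H' hφ hφ0 s] with n g1 g2
  have vv : ∀ z, ∑ k ∈ s, ∑ l ∈ s, ‖V k n z * V l n z‖ ^ 2 = (∑ k ∈ s, ‖V k n z‖ ^ 2) ^ 2 := by
    intro z
    rw [sq, Finset.sum_mul_sum]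
    refine Finset.sum_congr rfl fun k _ => Finset.sum_congr rfl fun l _ => ?_
    rw [norm_mul, mul_pow]
  have bs : ∀ z ∈ tsupport φ, ∑ k ∈ s, ∑ l ∈ s, ‖bb W F e k l n z‖ ^ 2 ≤ 4 * N := by
    intro z hz
    refine (Finset.sum_le_sum (g1 z hz)).trans (le_of_eq ?_)
    rw [Finset.sum_const, nsmul_eq_mul, cs']; ring
  have v0 : ∀ z, 0 ≤ ∑ k ∈ s, ‖V k n z‖ ^ 2 := fun z => Finset.sum_nonneg fun _ _ => sq_nonneg _
  constructor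
  · rw [JA_sum H H' hφ]
    simp only
    rw [gauss0 h0, zero_mul, mul_zero, sub_zero]
    refine fin n g2 _ fun z hz => ?_
    refine (ptw hΛ0 hΛ s hs (fun k l => bb W F e k l n z) (fun k l => V k n z * V l n z)).trans ?_
    rw [vv z, ← Real.sqrt_mul (Finset.sum_nonneg fun _ _ => Finset.sum_nonneg fun _ _ =>
      sq_nonneg _)]
    have e5 : √(4 * Λ * N) * ∑ k ∈ s, ‖V k n z‖ ^ 2 =
        √(4 * N * (Λ * (∑ k ∈ s, ‖V k n z‖ ^ 2) ^ 2)) := by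
      have e6 : 4 * N * (Λ * (∑ k ∈ s, ‖V k n z‖ ^ 2) ^ 2) =
          (4 * Λ * N) * (∑ k ∈ s, ‖V k n z‖ ^ 2) ^ 2 := by ring
      rw [e6, Real.sqrt_mul (show 0 ≤ 4 * Λ * N by positivity) ((∑ k ∈ s, ‖V k n z‖ ^ 2) ^ 2),
        Real.sqrt_sq (v0 z)]
    rw [e5]
    exact Real.sqrt_le_sqrt (mul_le_mul_of_nonneg_right (bs z hz) (by positivity))
  · have ge : ∑ x ∈ Finset.Icc (-(K : ℤ)) K ×ˢ (Finset.range K ×ˢ Finset.Icc (-(R : ℤ)) R),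
        ((t x.2.1 x.2.2 : ℝ) : ℂ) * (CC (-x.1 + x.2.2) (-x.1 - x.2.2) *
          CC (x.1 + x.2.1) (x.1 - x.2.1)) = 0 := by
      rw [← gauss0 h0]
      exact Finset.sum_congr rfl fun x _ => by ring
    rw [JA_sum H H' hφ]
    simp only
    rw [ge, zero_mul, mul_zero, sub_zero]
    refine fin n g2 _ fun z hz => ?_
    have p := ptw hΛ0 hΛ s hs (fun k l => V k n z * V l n z) (fun k l => bb W F e k l n z)
    have e7 : ∑ x ∈ Finset.Icc (-(K : ℤ)) K ×ˢ (Finset.range K ×ˢ Finset.Icc (-(R : ℤ)) R),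
        ((t x.2.1 x.2.2 : ℝ) : ℂ) * (bb W F e (-x.1 + x.2.2) (-x.1 - x.2.2) n z *
          (V (x.1 + x.2.1) n z * V (x.1 - x.2.1) n z)) =
        ∑ x ∈ Finset.Icc (-(K : ℤ)) K ×ˢ (Finset.range K ×ˢ Finset.Icc (-(R : ℤ)) R),
        ((t x.2.1 x.2.2 : ℝ) : ℂ) * (V (x.1 + x.2.1) n z * V (x.1 - x.2.1) n z *
          bb W F e (-x.1 + x.2.2) (-x.1 - x.2.2) n z) :=
      Finset.sum_congr rfl fun x _ => by ring
    rw [e7]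
    refine p.trans ?_
    rw [vv z, Real.sqrt_sq (v0 z), mul_comm]
    refine mul_le_mul_of_nonneg_right ?_ (v0 z)
    refine Real.sqrt_le_sqrt ?_
    have := mul_le_mul_of_nonneg_left (bs z hz) hΛ0
    linarith

end

end

end Pool.Agent.J4H76.AP
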