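import Pool.Agent.J4H76.AP.Alg

/-! Averages of quartic functionals. -/
set_option autoImplicit false
open Filter Topology

namespace Pool.Agent.J4H76.AP

noncomputable section

open Pool.Agent.J4H76.TP
open AddMonoidAlgebra (single)

lemma mkQS {ρ : BS} {J : Z4 → ℕ → ℂ}
    (ht : ∀ a b c d : ℤ, Tendsto (fun n => J (1 + a, b, c, d) n + J (a, 1 + b, c, d) n +
      ((ρ.1 n : ℝ) : ℂ) * (J (a, b, 1 + c, d) n + J (a, b, c, 1 + d) n)) atTop (𝓝 0))
    (ht' : ∀ a b c d : ℤ, Tendsto (fun n => J (-1 + a, b, c, d) n + J (a, -1 + b, c, d) n +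
      ((ρ.1 n : ℝ) : ℂ) * (J (a, b, -1 + c, d) n + J (a, b, c, -1 + d) n)) atTop (𝓝 0))
    (hn : ∀ a b c d : ℤ, Tendsto (fun n => J (1 + a, 1 + b, -1 + c, -1 + d) n +
      J (-1 + a, -1 + b, 1 + c, 1 + d) n - (J (a, b, c, d) n + J (a, b, c, d) n)) atTop (𝓝 0))
    (sw : ∀ a b c d n, J (a, b, c, d) n = J (a, b, d, c) n) : QS ρ J where
  t := by
    refine mem_NI fun g => ?_
    obtain ⟨a, b, c, d⟩ := g
    refine (ht a b c d).congr fun n => ?_
    rw [TT, add_mul, add_mul, mul_assoc, add_mul, EE_add, EE_add, EE_cs, EE_add, EE_mn, EE_mn,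
      EE_mn, EE_mn]
    simp only [zero_add]
  t' := by
    refine mem_NI fun g => ?_
    obtain ⟨a, b, c, d⟩ := g
    refine (ht' a b c d).congr fun n => ?_
    rw [TT', add_mul, add_mul, mul_assoc, add_mul, EE_add, EE_add, EE_cs, EE_add, EE_mn, EE_mn,
      EE_mn, EE_mn]
    simp only [zero_add]
  nf := by
    refine mem_NI fun g => ?_
    obtain ⟨a, b, c, d⟩ := g
    refine (hn a b c d).congr fun n => ?_
    have e2 : NF * single (a, b, c, d) (1 : BS) = mn 1 1 (-1) (-1) * single (a, b, c, d) 1 +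
        mn (-1) (-1) 1 1 * single (a, b, c, d) 1 -
        (mn 0 0 0 0 * single (a, b, c, d) 1 + mn 0 0 0 0 * single (a, b, c, d) 1) := by
      rw [NF, mn_one]; ring
    rw [e2, EE_sub, EE_add, EE_add, EE_mn, EE_mn, EE_mn]
    simp only [zero_add]
  sw := sw

/-- the average with signs -/
def av (F : ℕ → Finset ℕ) (e : ℕ → ℕ → ℝ) (G : ℕ → ℕ → ℂ) (n : ℕ) : ℂ :=
  (∑ i ∈ F n, ((e n i : ℝ) : ℂ) * G i n) / ((F n).card : ℂ)

section
variable {F : ℕ → Finset ℕ} {e : ℕ → ℕ → ℝ}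

lemma av_norm (he : ∀ n i, |e n i| ≤ 1) (G : ℕ → ℕ → ℂ) (n : ℕ) :
    ‖av F e G n‖ ≤ (∑ i ∈ F n, ‖G i n‖) / (F n).card := by
  unfold av
  rw [norm_div, Complex.norm_natCast]
  refine div_le_div_of_nonneg_right ((norm_sum_le _ _).trans (Finset.sum_le_sum fun i _ => ?_))
    (Nat.cast_nonneg _)
  rw [norm_mul, Complex.norm_real, Real.norm_eq_abs]
  have := mul_le_mul_of_nonneg_right (he n i) (norm_nonneg (G i n))
  linarith

lemma av_add (G G' : ℕ → ℕ → ℂ) (n : ℕ) :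
    av F e (fun i n => G i n + G' i n) n = av F e G n + av F e G' n := by
  unfold av
  rw [← add_div, ← Finset.sum_add_distrib]
  congr 1
  exact Finset.sum_congr rfl fun i _ => by ring

lemma av_sub (G G' : ℕ → ℕ → ℂ) (n : ℕ) :
    av F e (fun i n => G i n - G' i n) n = av F e G n - av F e G' n := by
  unfold av
  rw [← sub_div, ← Finset.sum_sub_distrib]
  congr 1
  exact Finset.sum_congr rfl fun i _ => by ring

lemma av_mul (c : ℂ) (G : ℕ → ℕ → ℂ) (n : ℕ) :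
    av F e (fun i n => c * G i n) n = c * av F e G n := by
  unfold av
  rw [mul_div_assoc', Finset.mul_sum]
  congr 1
  exact Finset.sum_congr rfl fun i _ => by ring

lemma av_small (he : ∀ n i, |e n i| ≤ 1) {G : ℕ → ℕ → ℂ}
    (h : ∀ η : ℝ, 0 < η → ∀ᶠ n in atTop, ∀ i ∈ F n, ‖G i n‖ ≤ η) :
    Tendsto (av F e G) atTop (𝓝 0) := by
  rw [Metric.tendsto_nhds]
  intro ε hε
  filter_upwards [h (ε / 2) (by positivity)] with n hn
  rw [dist_zero_right]
  refine (av_norm he G n).trans_lt ?_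
  rcases (F n).eq_empty_or_nonempty with h0 | h0
  · rw [h0]; simp; exact hε
  · have cp : (0 : ℝ) < (F n).card := by exact_mod_cast h0.card_pos
    rw [div_lt_iff₀ cp]
    have := Finset.sum_le_sum hn
    rw [Finset.sum_const, nsmul_eq_mul] at this
    nlinarith

/-- **averages of functionals with the relations** -/
theorem avQS (he : ∀ n i, |e n i| ≤ 1) {Ji : ℕ → ℕ → Z4 → ℂ} {ρi : ℕ → ℕ → ℝ} {ρ0 : ℝ}
    (h1 : ∀ a b c d : ℤ, ∀ η : ℝ, 0 < η → ∀ᶠ n in atTop, ∀ i ∈ F n,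
      ‖Ji i n (1 + a, b, c, d) + Ji i n (a, 1 + b, c, d) +
        ((ρi i n : ℝ) : ℂ) * (Ji i n (a, b, 1 + c, d) + Ji i n (a, b, c, 1 + d))‖ ≤ η)
    (h2 : ∀ a b c d : ℤ, ∀ η : ℝ, 0 < η → ∀ᶠ n in atTop, ∀ i ∈ F n,
      ‖Ji i n (-1 + a, b, c, d) + Ji i n (a, -1 + b, c, d) +
        ((ρi i n : ℝ) : ℂ) * (Ji i n (a, b, -1 + c, d) + Ji i n (a, b, c, -1 + d))‖ ≤ η)
    (h3 : ∀ a b c d : ℤ, ∀ η : ℝ, 0 < η → ∀ᶠ n in atTop, ∀ i ∈ F n,
      ‖Ji i n (1 + a, 1 + b, -1 + c, -1 + d) + Ji i n (-1 + a, -1 + b, 1 + c, 1 + d) -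
        (Ji i n (a, b, c, d) + Ji i n (a, b, c, d))‖ ≤ η)
    (hb : ∀ a : Z4, ∃ C : ℝ, ∀ᶠ n in atTop, (∑ i ∈ F n, ‖Ji i n a‖) / (F n).card ≤ C)
    (hρ : ∀ η : ℝ, 0 < η → ∀ᶠ n in atTop, ∀ i ∈ F n, |ρi i n - ρ0| ≤ η)
    (sw : ∀ i n a b c d, Ji i n (a, b, c, d) = Ji i n (a, b, d, c)) :
    QS (kst ρ0) (fun a n => av F e (fun i n => Ji i n a) n) := by
  have dif : ∀ a : Z4, Tendsto (av F e (fun i n => ((ρi i n - ρ0 : ℝ) : ℂ) * Ji i n a)) atTop
      (𝓝 0) := by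
    intro a
    obtain ⟨C, hC⟩ := hb a
    rw [Metric.tendsto_nhds]
    intro ε hε
    filter_upwards [hρ (ε / (2 * (|C| + 1))) (by positivity), hC] with n g1 g2
    rw [dist_zero_right]
    refine (av_norm he _ n).trans_lt ?_
    have g3 : (∑ i ∈ F n, ‖((ρi i n - ρ0 : ℝ) : ℂ) * Ji i n a‖) / (F n).card ≤
        ε / (2 * (|C| + 1)) * ((∑ i ∈ F n, ‖Ji i n a‖) / (F n).card) := by
      rw [mul_div_assoc', Finset.mul_sum]
      refine div_le_div_of_nonneg_right (Finset.sum_le_sum fun i hi => ?_) (Nat.cast_nonneg _)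
      rw [norm_mul, Complex.norm_real, Real.norm_eq_abs]
      exact mul_le_mul_of_nonneg_right (g1 i hi) (norm_nonneg _)
    have g4 : ε / (2 * (|C| + 1)) * ((∑ i ∈ F n, ‖Ji i n a‖) / (F n).card) ≤
        ε / (2 * (|C| + 1)) * (|C| + 1) := by
      refine mul_le_mul_of_nonneg_left ?_ (by positivity)
      have := le_abs_self C
      linarith
    have g5 : ε / (2 * (|C| + 1)) * (|C| + 1) = ε / 2 := by field_simp
    linarith
  refine mkQS (fun a b c d => ?_) (fun a b c d => ?_) (fun a b c d => ?_)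
    (fun a b c d n => by simp only [sw _ _ a b c d])
  · have g := (av_small he (h1 a b c d)).sub ((dif (a, b, 1 + c, d)).add (dif (a, b, c, 1 + d)))
    simp only [add_zero, sub_zero] at g
    refine g.congr fun n => ?_
    simp only [kst_ap]
    rw [← av_add, ← av_sub, ← av_add, ← av_add, ← av_mul, ← av_add]
    congr 1
    funext i n
    push_cast; ring
  · have g := (av_small he (h2 a b c d)).sub ((dif (a, b, -1 + c, d)).add (dif (a, b, c, -1 + d)))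
    simp only [add_zero, sub_zero] at g
    refine g.congr fun n => ?_
    simp only [kst_ap]
    rw [← av_add, ← av_sub, ← av_add, ← av_add, ← av_mul, ← av_add]
    congr 1
    funext i n
    push_cast; ring
  · refine (av_small he (h3 a b c d)).congr fun n => ?_
    rw [av_sub, av_add, av_add]

/-- the worst index -/
lemma worst (hF : ∀ n, (F n).Nonempty) {G : ℕ → ℕ → ℂ}
    (h : ∀ θ : ℕ → ℕ, (∀ n, θ n ∈ F n) → Tendsto (fun n => G (θ n) n) atTop (𝓝 0)) (η : ℝ)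
    (hη : 0 < η) : ∀ᶠ n in atTop, ∀ i ∈ F n, ‖G i n‖ ≤ η := by
  have h1 : ∀ n, ∃ i ∈ F n, ∀ j ∈ F n, ‖G j n‖ ≤ ‖G i n‖ := fun n =>
    Finset.exists_max_image (F n) (fun i => ‖G i n‖) (hF n)
  choose θ hθ1 hθ2 using h1
  filter_upwards [(h θ hθ1).norm.eventually (gt_mem_nhds (show ‖(0 : ℂ)‖ < η by simpa using hη))]
    with n hn i hi
  exact (hθ2 n i hi).trans hn.le

end

end

end Pool.Agent.J4H76.AP
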