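import Pool.Agent.J4H76.AP.Sup

/-! Averaged functionals for the ratio one. -/
set_option autoImplicit false
open Filter Topology

namespace Pool.Agent.J4H76.AP

noncomputable section

open Pool.Agent.J4H76.TP
open AddMonoidAlgebra (single)
open Polynomial (aeval)

/-- the Dirichlet polynomial -/
def p0 (K : ℕ) : Polynomial ℝ :=
  1 + ∑ j ∈ Finset.range K, Polynomial.C ((-1) ^ (j + 1)) * tt (j + 1)

lemma icc_split {M : Type} [AddCommMonoid M] (f : ℤ → M) (K : ℕ) :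
    ∑ k ∈ Finset.Icc (-(K : ℤ)) K, f k =
      f 0 + ∑ j ∈ Finset.range K, (f ((j : ℤ) + 1) + f (-((j : ℤ) + 1))) := by
  induction K with
  | zero => simp
  | succ K ih =>
    have e : Finset.Icc (-((K + 1 : ℕ) : ℤ)) ((K + 1 : ℕ) : ℤ) =
        insert ((K : ℤ) + 1) (insert (-((K : ℤ) + 1)) (Finset.Icc (-(K : ℤ)) K)) := by
      ext k
      simp only [Finset.mem_Icc, Finset.mem_insert]
      push_cast
      omega
    rw [e, Finset.sum_insert, Finset.sum_insert, ih, Finset.sum_range_succ]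
    · abel
    · simp only [Finset.mem_Icc]; omega
    · simp only [Finset.mem_insert, Finset.mem_Icc]; omega

section root
variable {A : Type} [CommRing A] [Algebra ℝ A]

lemma zp1 {r1 r2 : A} (h : r1 * r2 = 0) (P : Polynomial ℝ) :
    aeval (r1 + r2) P = aeval r1 P + aeval r2 P - algebraMap ℝ A (P.eval 0) := by
  have pw : ∀ n : ℕ, (r1 + r2) ^ (n + 1) = r1 ^ (n + 1) + r2 ^ (n + 1) := by
    intro n
    induction n with
    | zero => ring
    | succ n ih =>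
      rw [pow_succ, ih]
      linear_combination (r1 ^ n + r2 ^ n) * h
  induction P using Polynomial.induction_on' with
  | add p q hp hq => rw [map_add, hp, hq, map_add, map_add, Polynomial.eval_add, map_add]; ring
  | monomial n a =>
    rw [Polynomial.aeval_monomial, Polynomial.aeval_monomial, Polynomial.aeval_monomial,
      Polynomial.eval_monomial]
    cases n with
    | zero => simp
    | succ n => rw [pw, zero_pow (Nat.succ_ne_zero n), mul_zero, map_zero]; ring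

lemma zp2 {r1 r2 : A} (h : r1 * r2 = 0) (P : Polynomial ℝ) :
    (aeval r1 P - algebraMap ℝ A (P.eval 0)) * (aeval r2 P - algebraMap ℝ A (P.eval 0)) = 0 := by
  obtain ⟨P', hP'⟩ := Polynomial.X_dvd_sub_C (p := P)
  have e : ∀ r : A, aeval r P - algebraMap ℝ A (P.eval 0) = r * aeval r P' := by
    intro r
    have := congrArg (aeval r) hP'
    rw [map_sub, map_mul, Polynomial.aeval_X, Polynomial.aeval_C] at this
    rw [← this, Polynomial.coeff_zero_eq_eval_zero]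
  rw [e, e]
  linear_combination (aeval r1 P' * aeval r2 P') * h

/-- the identity -/
lemma key_id {r1 r2 : A} (h : r1 * r2 = 0) (P : Polynomial ℝ) (N : ℝ) (hN : P.eval 0 = N) :
    algebraMap ℝ A N * (aeval r1 P * aeval r1 P + aeval r2 P * aeval r2 P) -
      aeval r2 P * aeval r1 P * aeval (r1 + r2) P = algebraMap ℝ A (N ^ 3) := by
  have h1 := zp1 h P
  have h2 := zp2 h P
  rw [hN] at h1 h2
  rw [h1, map_pow]
  obtain ⟨a, ha⟩ : ∃ a, a = aeval r1 P := ⟨_, rfl⟩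
  obtain ⟨b, hb⟩ : ∃ b, b = aeval r2 P := ⟨_, rfl⟩
  obtain ⟨c, hc⟩ : ∃ c, c = algebraMap ℝ A N := ⟨_, rfl⟩
  rw [← ha, ← hb, ← hc] at h2 ⊢
  linear_combination (-(a + b + c)) * h2

lemma p0_D {a a' : A} (h : a * a' = 1) (K : ℕ) : aeval (2 + a + a') (p0 K) =
    1 + ∑ j ∈ Finset.range K, (-1) ^ (j + 1) * (a ^ (j + 1) + a' ^ (j + 1)) := by
  unfold p0
  rw [map_add, map_one, map_sum]
  congr 1
  refine Finset.sum_congr rfl fun j _ => ?_
  rw [map_mul, Polynomial.aeval_C, tt_eq (r1 := a) (r2 := a') (by ring) h]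
  simp

lemma p0_D' {a a' : A} (h : a * a' = 1) (K : ℕ) : aeval (2 - a - a') (p0 K) =
    1 + ∑ j ∈ Finset.range K, (a ^ (j + 1) + a' ^ (j + 1)) := by
  have h' : (-a) * (-a') = 1 := by rw [neg_mul_neg, h]
  have e : (2 - a - a' : A) = 2 + (-a) + (-a') := by ring
  rw [e, p0_D h' K]
  congr 1
  refine Finset.sum_congr rfl fun j _ => ?_
  rw [neg_pow a, neg_pow a', ← mul_add, ← mul_assoc, ← mul_pow]
  simp

end root

lemma p0_zero (K : ℕ) : (p0 K).eval 0 = 2 * K + 1 := by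
  have h := p0_D (A := ℝ) (a := -1) (a' := -1) (by norm_num) K
  have e : (2 + -1 + -1 : ℝ) = 0 := by norm_num
  rw [e] at h
  rw [← Polynomial.coe_aeval_eq_eval, h]
  have : ∀ j ∈ Finset.range K, ((-1 : ℝ) ^ (j + 1) * ((-1) ^ (j + 1) + (-1) ^ (j + 1))) = 2 := by
    intro j _
    have : ((-1 : ℝ) ^ (j + 1)) * (-1) ^ (j + 1) = 1 := by rw [← mul_pow]; norm_num
    linarith
  rw [Finset.sum_congr rfl this, Finset.sum_const, Finset.card_range, nsmul_eq_mul]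
  ring

/-- the Dirichlet kernels -/
def Sa (K : ℕ) : AA ℤ := ∑ k ∈ Finset.Icc (-(K : ℤ)) K, single k (kst ((-1) ^ k.natAbs))
def Sb (K : ℕ) : AA ℤ := ∑ k ∈ Finset.Icc (-(K : ℤ)) K, single k (kst 1)

section hom
variable {A : Type} [CommRing A] [Algebra ℝ A] (f : AA ℤ →ₐ[ℝ] A)

lemma f_pos (j : ℕ) : f (single (j : ℤ) 1) = f (single 1 1) ^ j := by
  induction j with
  | zero => rw [pow_zero]; exact map_one f
  | succ j ih =>
    rw [pow_succ, ← ih, ← map_mul, AddMonoidAlgebra.single_mul_single, one_mul]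
    push_cast; rfl

lemma f_neg (j : ℕ) : f (single (-(j : ℤ)) 1) = f (single (-1) 1) ^ j := by
  induction j with
  | zero => rw [pow_zero, Nat.cast_zero, neg_zero]; exact map_one f
  | succ j ih =>
    rw [pow_succ, ← ih, ← map_mul, AddMonoidAlgebra.single_mul_single, one_mul]
    congr 2; push_cast; ring

lemma f_inv : f (single 1 1) * f (single (-1) 1) = 1 := by
  rw [← map_mul, AddMonoidAlgebra.single_mul_single, one_mul]
  exact map_one f

lemma f_c (k : ℤ) (c : ℝ) : f (single k (kst c)) = algebraMap ℝ A c * f (single k 1) := by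
  have : (single k (kst c) : AA ℤ) = algebraMap ℝ (AA ℤ) c * single k 1 := by
    have e : (algebraMap ℝ (AA ℤ) c) = single 0 (kst c) := rfl
    rw [e, AddMonoidAlgebra.single_mul_single, zero_add, mul_one]
  rw [this, map_mul, AlgHom.commutes]

lemma f_Sa (K : ℕ) : f (Sa K) = aeval (2 + f (single 1 1) + f (single (-1) 1)) (p0 K) := by
  rw [p0_D (f_inv f) K, Sa, map_sum, icc_split]
  congr 1
  · rw [f_c]
    simp only [Int.natAbs_zero, pow_zero, map_one, one_mul]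
    exact map_one f
  · refine Finset.sum_congr rfl fun j _ => ?_
    have n1 : ((j : ℤ) + 1).natAbs = j + 1 := by omega
    have n2 : (-((j : ℤ) + 1)).natAbs = j + 1 := by omega
    rw [f_c, f_c, n1, n2]
    have h1 := f_pos f (j + 1)
    have h2 := f_neg f (j + 1)
    push_cast at h1 h2
    rw [h1, h2, map_pow, map_neg, map_one, mul_add]

lemma f_Sb (K : ℕ) : f (Sb K) = aeval (2 - f (single 1 1) - f (single (-1) 1)) (p0 K) := by
  rw [p0_D' (f_inv f) K, Sb, map_sum, icc_split]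
  congr 1
  · rw [f_c]
    simp only [map_one, one_mul]
    exact map_one f
  · refine Finset.sum_congr rfl fun j _ => ?_
    rw [f_c, f_c]
    have h1 := f_pos f (j + 1)
    have h2 := f_neg f (j + 1)
    push_cast at h1 h2
    rw [h1, h2, map_one, one_mul, one_mul]

end hom

lemma EE_sum (J : Z4 → ℕ → ℂ) {ι : Type} (X : Finset ι) (g : ι → AA Z4) (n : ℕ) :
    EE J (∑ x ∈ X, g x) n = ∑ x ∈ X, EE J (g x) n := map_sum (EEh J n) g X

/-- **the identity** -/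
theorem one_id {J : Z4 → ℕ → ℂ} (H : QS (kst 1) J) (K : ℕ) : Tendsto (fun n =>
    (2 * K + 1 : ℂ) * (2 * ∑ k ∈ Finset.Icc (-(K : ℤ)) K, ∑ l ∈ Finset.Icc (-(K : ℤ)) K,
      (((-1) ^ k.natAbs : ℝ) : ℂ) * ((((-1) ^ l.natAbs : ℝ) : ℂ) * J (k, -l, -k, l) n)) -
    (∑ k ∈ Finset.Icc (-(K : ℤ)) K, ∑ l ∈ Finset.Icc (-(K : ℤ)) K,
      ∑ m ∈ Finset.Icc (-(K : ℤ)) K,
        (((-1) ^ k.natAbs * (-1) ^ l.natAbs : ℝ) : ℂ) * J (k, -l, m, -k + l - m) n) -
    (2 * K + 1 : ℂ) ^ 3 * J (0, 0, 0, 0) n) atTop (𝓝 0) := by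
  have qt : Ideal.Quotient.mkₐ ℝ (NI J) (TT (kst 1)) = 0 := Ideal.Quotient.eq_zero_iff_mem.2 H.t
  have qt' : Ideal.Quotient.mkₐ ℝ (NI J) (TT' (kst 1)) = 0 :=
    Ideal.Quotient.eq_zero_iff_mem.2 H.t'
  have qn : Ideal.Quotient.mkₐ ℝ (NI J) NF = 0 := Ideal.Quotient.eq_zero_iff_mem.2 H.nf
  have mq : ∀ f : AA Z4, Ideal.Quotient.mkₐ ℝ (NI J) f = 0 → Tendsto (EE J f) atTop (𝓝 0) :=
    fun f h => mem_of_quot h
  obtain ⟨Q, hQ⟩ : ∃ Q : AA Z4 →ₐ[ℝ] (AA Z4 ⧸ NI J), Q = Ideal.Quotient.mkₐ ℝ (NI J) := ⟨_, rfl⟩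
  rw [← hQ] at qt qt' qn mq
  obtain ⟨c, hc⟩ : ∃ c, c = Q (cs (kst 1)) := ⟨_, rfl⟩
  have hcc : c = 1 := by
    rw [hc, cs_kst, AlgHom.commutes, map_one]
  obtain ⟨z1, hz1⟩ : ∃ c, c = Q (mn 1 0 0 0) := ⟨_, rfl⟩
  obtain ⟨z2, hz2⟩ : ∃ c, c = Q (mn 0 1 0 0) := ⟨_, rfl⟩
  obtain ⟨w1, hw1⟩ : ∃ c, c = Q (mn 0 0 1 0) := ⟨_, rfl⟩
  obtain ⟨w2, hw2⟩ : ∃ c, c = Q (mn 0 0 0 1) := ⟨_, rfl⟩
  obtain ⟨z1', hz1'⟩ : ∃ c, c = Q (mn (-1) 0 0 0) := ⟨_, rfl⟩
  obtain ⟨z2', hz2'⟩ : ∃ c, c = Q (mn 0 (-1) 0 0) := ⟨_, rfl⟩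
  obtain ⟨w1', hw1'⟩ : ∃ c, c = Q (mn 0 0 (-1) 0) := ⟨_, rfl⟩
  obtain ⟨w2', hw2'⟩ : ∃ c, c = Q (mn 0 0 0 (-1)) := ⟨_, rfl⟩
  have i1 : z1 * z1' = 1 := by rw [hz1, hz1', ← map_mul, mn_mul]; exact map_one Q
  have i2 : z2 * z2' = 1 := by rw [hz2, hz2', ← map_mul, mn_mul]; exact map_one Q
  have i3 : w1 * w1' = 1 := by rw [hw1, hw1', ← map_mul, mn_mul]; exact map_one Q
  have i4 : w2 * w2' = 1 := by rw [hw2, hw2', ← map_mul, mn_mul]; exact map_one Q
  have t : z1 + z2 + c * (w1 + w2) = 0 := by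
    rw [← qt, TT, hz1, hz2, hw1, hw2, hc]; simp only [map_add, map_mul]
  have t' : z1' + z2' + c * (w1' + w2') = 0 := by
    rw [← qt', TT', hz1', hz2', hw1', hw2', hc]; simp only [map_add, map_mul]
  have nf : z1 * z2 * (w1' * w2') + z1' * z2' * (w1 * w2) - 2 = 0 := by
    rw [← qn, NF, hz1, hz2, hw1, hw2, hz1', hz2', hw1', hw2']
    simp only [map_add, map_sub, ← map_mul, mn_mul, map_ofNat]
    rfl
  obtain ⟨r1, hr1⟩ : ∃ r, r = (z1 + c * w1) * (z1' + c * w1') := ⟨_, rfl⟩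
  obtain ⟨r2, hr2⟩ : ∃ r, r = (z1 + c * w2) * (z1' + c * w2') := ⟨_, rfl⟩
  obtain ⟨x, hx⟩ : ∃ r, r = (z1 + z2) * (z1' + z2') := ⟨_, rfl⟩
  have hs : r1 + r2 = 2 * (1 + c ^ 2) - x := by
    have := id_sum (ρ := c) i1 i2 i3 i4
    rw [t, t', mul_zero, mul_zero, add_zero, ← hr1, ← hr2, ← hx, sub_eq_zero] at this
    exact this
  have hp : r1 * r2 = (1 - c ^ 2) ^ 2 := by
    have := id_prod (ρ := c) i1 i2 i3 i4
    rw [t, t', nf, zero_mul, zero_mul, zero_mul, add_zero, sub_zero, ← hr1, ← hr2,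
      sub_eq_zero] at this
    exact this
  have hr : (z2 + c * w2) * (z2' + c * w2') = r1 := by
    have := id_r (ρ := c) (z1 := z1) (z2 := z2) (w1 := w1) (w2 := w2) (z1' := z1') (z2' := z2')
      (w1' := w1') (w2' := w2') trivial
    rw [t, t', zero_mul, zero_mul, sub_zero, ← hr1, sub_eq_zero] at this
    exact this.symm
  have hr' : (z2 + c * w1) * (z2' + c * w1') = r2 := by
    have := id_r (ρ := c) (z1 := z1) (z2 := z2) (w1 := w2) (w2 := w1) (z1' := z1') (z2' := z2')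
      (w1' := w2') (w2' := w1') trivial
    rw [add_comm w2 w1, add_comm w2' w1', t, t', zero_mul, zero_mul, sub_zero, ← hr2,
      sub_eq_zero] at this
    exact this.symm
  have hxw : c ^ 2 * ((w1 + w2) * (w1' + w2')) = x := by
    have := id_x (ρ := c) (z1 := z1) (z2 := z2) (w1 := w1) (w2 := w2) (z1' := z1') (z2' := z2')
      (w1' := w1') (w2' := w2') trivial
    rw [t, t', zero_mul, zero_mul, sub_zero, ← hx, sub_eq_zero] at this
    exact this.symm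
  rw [hcc] at hr1 hr2 hs hp hr hr' hxw
  have hp0 : r1 * r2 = 0 := by rw [hp]; ring
  have gen : ∀ (a b c' d : ℤ), Q (io (dir a b c' d) (Sa K)) =
      aeval (2 + Q (mn a b c' d) + Q (mn (-a) (-b) (-c') (-d))) (p0 K) := by
    intro a b c' d
    have := f_Sa (Q.comp (io (dir a b c' d))) K
    simp only [AlgHom.comp_apply, io_xx, io_xx'] at this
    exact this
  have genb : ∀ (a b c' d : ℤ), Q (io (dir a b c' d) (Sb K)) =
      aeval (2 - Q (mn a b c' d) - Q (mn (-a) (-b) (-c') (-d))) (p0 K) := by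
    intro a b c' d
    have := f_Sb (Q.comp (io (dir a b c' d))) K
    simp only [AlgHom.comp_apply, io_xx, io_xx'] at this
    exact this
  have e13 : Q (io (dir 1 0 (-1) 0) (Sa K)) = aeval r1 (p0 K) := by
    have h1 : Q (mn 1 0 (-1) 0) = z1 * w1' := by rw [hz1, hw1', ← map_mul, mn_mul]; rfl
    have h2 : Q (mn (-1) (-0) (- -1) (-0)) = z1' * w1 := by rw [hz1', hw1, ← map_mul, mn_mul]; rfl
    have h3 : 2 + z1 * w1' + z1' * w1 = r1 := by linear_combination -hr1 - i1 - i3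
    rw [gen, h1, h2, h3]
  have e14 : Q (io (dir 1 0 0 (-1)) (Sa K)) = aeval r2 (p0 K) := by
    have h1 : Q (mn 1 0 0 (-1)) = z1 * w2' := by rw [hz1, hw2', ← map_mul, mn_mul]; rfl
    have h2 : Q (mn (-1) (-0) (-0) (- -1)) = z1' * w2 := by rw [hz1', hw2, ← map_mul, mn_mul]; rfl
    have h3 : 2 + z1 * w2' + z1' * w2 = r2 := by linear_combination -hr2 - i1 - i4
    rw [gen, h1, h2, h3]
  have e24 : Q (io (dir 0 (-1) 0 1) (Sa K)) = aeval r1 (p0 K) := by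
    have h1 : Q (mn 0 (-1) 0 1) = z2' * w2 := by rw [hz2', hw2, ← map_mul, mn_mul]; rfl
    have h2 : Q (mn (-0) (- -1) (-0) (-1)) = z2 * w2' := by rw [hz2, hw2', ← map_mul, mn_mul]; rfl
    have h3 : 2 + z2' * w2 + z2 * w2' = r1 := by linear_combination hr - i2 - i4
    rw [gen, h1, h2, h3]
  have e23 : Q (io (dir 0 (-1) 1 0) (Sa K)) = aeval r2 (p0 K) := by
    have h1 : Q (mn 0 (-1) 1 0) = z2' * w1 := by rw [hz2', hw1, ← map_mul, mn_mul]; rfl
    have h2 : Q (mn (-0) (- -1) (-1) (-0)) = z2 * w1' := by rw [hz2, hw1', ← map_mul, mn_mul]; rfl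
    have h3 : 2 + z2' * w1 + z2 * w1' = r2 := by linear_combination hr' - i2 - i3
    rw [gen, h1, h2, h3]
  have eX : Q (io (dir 0 0 1 (-1)) (Sb K)) = aeval (r1 + r2) (p0 K) := by
    have h1 : Q (mn 0 0 1 (-1)) = w1 * w2' := by rw [hw1, hw2', ← map_mul, mn_mul]; rfl
    have h2 : Q (mn (-0) (-0) (-1) (- -1)) = w1' * w2 := by rw [hw1', hw2, ← map_mul, mn_mul]; rfl
    have h3 : 2 - w1 * w2' - w1' * w2 = r1 + r2 := by
      linear_combination i3 + i4 - hs - hxw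
    rw [genb, h1, h2, h3]
  have main := key_id hp0 (p0 K) (2 * K + 1) (p0_zero K)
  have fin : Tendsto (EE J (algebraMap ℝ (AA Z4) (2 * K + 1) *
      (io (dir 1 0 (-1) 0) (Sa K) * io (dir 0 (-1) 0 1) (Sa K) +
        io (dir 1 0 0 (-1)) (Sa K) * io (dir 0 (-1) 1 0) (Sa K)) -
      io (dir 1 0 0 (-1)) (Sa K) * io (dir 0 (-1) 0 1) (Sa K) * io (dir 0 0 1 (-1)) (Sb K) -
      algebraMap ℝ (AA Z4) ((2 * K + 1) ^ 3))) atTop (𝓝 0) := by
    refine mq _ ?_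
    obtain ⟨N, hN⟩ : ∃ N : ℝ, N = 2 * K + 1 := ⟨_, rfl⟩
    rw [← hN] at main ⊢
    simp only [map_sub, map_mul, map_add Q, AlgHom.commutes]
    rw [e13, e14, e24, e23, eX]
    linear_combination main
  have cst : ∀ (r : ℝ) (g : AA Z4) (n : ℕ), EE J (algebraMap ℝ (AA Z4) r * g) n =
      (r : ℂ) * EE J g n := by
    intro r g n
    have e : (algebraMap ℝ (AA Z4) r) = single 0 (kst r) := rfl
    rw [e, EE_smul, kst_ap]
  refine fin.congr fun n => ?_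
  rw [EE_sub, EE_sub, cst, EE_add]
  have c3 : EE J (algebraMap ℝ (AA Z4) ((2 * K + 1) ^ 3)) n = (2 * K + 1 : ℂ) ^ 3 * J (0, 0, 0, 0) n := by
    have e : (algebraMap ℝ (AA Z4) ((2 * K + 1) ^ 3)) = single 0 (kst ((2 * K + 1) ^ 3)) := rfl
    rw [e, EE_single, kst_ap]
    push_cast; rfl
  have two : ∀ (α β : ℤ →+ Z4) , EE J (io α (Sa K) * io β (Sa K)) n =
      ∑ k ∈ Finset.Icc (-(K : ℤ)) K, ∑ l ∈ Finset.Icc (-(K : ℤ)) K,
      (((-1) ^ k.natAbs : ℝ) : ℂ) * ((((-1) ^ l.natAbs : ℝ) : ℂ) * J (α k + β l) n) := by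
    intro α β
    unfold Sa
    rw [map_sum, map_sum, Finset.sum_mul_sum, EE_sum]
    refine Finset.sum_congr rfl fun k _ => ?_
    rw [EE_sum]
    refine Finset.sum_congr rfl fun l _ => ?_
    rw [io_single, io_single, AddMonoidAlgebra.single_mul_single, EE_single, BS.mul_ap, kst_ap,
      kst_ap]
    push_cast; ring
  have three : EE J (io (dir 1 0 0 (-1)) (Sa K) * io (dir 0 (-1) 0 1) (Sa K) *
      io (dir 0 0 1 (-1)) (Sb K)) n = ∑ k ∈ Finset.Icc (-(K : ℤ)) K,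
      ∑ l ∈ Finset.Icc (-(K : ℤ)) K, ∑ m ∈ Finset.Icc (-(K : ℤ)) K,
        (((-1) ^ k.natAbs * (-1) ^ l.natAbs : ℝ) : ℂ) * J (k, -l, m, -k + l - m) n := by
    unfold Sa Sb
    rw [map_sum, map_sum, map_sum, Finset.sum_mul_sum, Finset.sum_mul, EE_sum]
    refine Finset.sum_congr rfl fun k _ => ?_
    rw [Finset.sum_mul, EE_sum]
    refine Finset.sum_congr rfl fun l _ => ?_
    rw [Finset.mul_sum, EE_sum]
    refine Finset.sum_congr rfl fun m _ => ?_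
    rw [io_single, io_single, io_single, AddMonoidAlgebra.single_mul_single,
      AddMonoidAlgebra.single_mul_single, EE_single, BS.mul_ap, BS.mul_ap, kst_ap, kst_ap, kst_ap]
    have e : dir 1 0 0 (-1) k + dir 0 (-1) 0 1 l + dir 0 0 1 (-1) m = (k, -l, m, -k + l - m) := by
      simp [dir, sub_eq_add_neg]
    rw [e, mul_one]
  rw [two, two, three, c3]
  have s1 : ∑ k ∈ Finset.Icc (-(K : ℤ)) K, ∑ l ∈ Finset.Icc (-(K : ℤ)) K,
      (((-1) ^ k.natAbs : ℝ) : ℂ) * ((((-1) ^ l.natAbs : ℝ) : ℂ) *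
        J (dir 1 0 (-1) 0 k + dir 0 (-1) 0 1 l) n) =
      ∑ k ∈ Finset.Icc (-(K : ℤ)) K, ∑ l ∈ Finset.Icc (-(K : ℤ)) K,
      (((-1) ^ k.natAbs : ℝ) : ℂ) * ((((-1) ^ l.natAbs : ℝ) : ℂ) * J (k, -l, -k, l) n) := by
    refine Finset.sum_congr rfl fun k _ => Finset.sum_congr rfl fun l _ => ?_
    congr 3
    simp [dir]
  have s2 : ∑ k ∈ Finset.Icc (-(K : ℤ)) K, ∑ l ∈ Finset.Icc (-(K : ℤ)) K,
      (((-1) ^ k.natAbs : ℝ) : ℂ) * ((((-1) ^ l.natAbs : ℝ) : ℂ) *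
        J (dir 1 0 0 (-1) k + dir 0 (-1) 1 0 l) n) =
      ∑ k ∈ Finset.Icc (-(K : ℤ)) K, ∑ l ∈ Finset.Icc (-(K : ℤ)) K,
      (((-1) ^ k.natAbs : ℝ) : ℂ) * ((((-1) ^ l.natAbs : ℝ) : ℂ) * J (k, -l, -k, l) n) := by
    refine Finset.sum_congr rfl fun k _ => Finset.sum_congr rfl fun l _ => ?_
    rw [H.sw]
    congr 3
    simp [dir]
  rw [s1, s2]
  push_cast
  ring

end

end Pool.Agent.J4H76.AP
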