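import Pool.Agent.J4H76.AP.Av
import Pool.Agent.J4H76.AP.One

/-! Averages of the deviations for the ratio one. -/
set_option autoImplicit false
open MeasureTheory Filter Topology Complex Set
open scoped ContDiff Real Manifold

namespace Pool.Agent.J4H76.AP

noncomputable section

open Pool.Agent.W745.RW Pool.Agent.TH294.RS Pool.Agent.Y265.HY Pool.Agent.R314.JN
open Pool.Agent.J4H76.TP

/-- the pointwise bound -/
lemma ptw1 {K : ℕ} {s I : Finset ℤ} (hs : s = Finset.Icc (-((3 * K : ℕ) : ℤ)) ((3 * K : ℕ) : ℤ))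
    (hI : I = Finset.Icc (-(K : ℤ)) K) {N : ℝ} (hN : N = 2 * K + 1) (α : ℤ → ℤ → ℂ) (v : ℤ → ℂ)
    (hα : ∀ k ∈ s, ∑ l ∈ s, ‖α k l‖ ^ 2 ≤ 4) :
    ‖∑ k ∈ I, ∑ l ∈ I, ∑ m ∈ I, (((-1) ^ k.natAbs * (-1) ^ l.natAbs : ℝ) : ℂ) *
      (α k (-l) * (v m * v (-k + l - m)))‖ ≤ 2 * √N * N * ∑ j ∈ s, ‖v j‖ ^ 2 := by
  classical
  have cI : (I.card : ℝ) = N := by
    rw [hI, Int.card_Icc, hN]
    have : ((K : ℤ) + 1 - -(K : ℤ)).toNat = 2 * K + 1 := by omega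
    rw [this]; push_cast; ring
  have N0 : 0 < N := by rw [hN]; positivity
  have mI : ∀ k, k ∈ I → -(K : ℤ) ≤ k ∧ k ≤ K := by
    intro k hk; rw [hI, Finset.mem_Icc] at hk; exact hk
  have ms : ∀ k : ℤ, -(3 * K : ℤ) ≤ k → k ≤ 3 * K → k ∈ s := by
    intro k h1 h2; rw [hs, Finset.mem_Icc]; push_cast; exact ⟨h1, h2⟩
  obtain ⟨S, hS⟩ : ∃ S, S = ∑ j ∈ s, ‖v j‖ ^ 2 := ⟨_, rfl⟩
  have S0 : 0 ≤ S := by rw [hS]; exact Finset.sum_nonneg fun _ _ => sq_nonneg _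
  rw [← hS]
  have sub : ∀ (g : ℤ → ℤ), Function.Injective g → (∀ k ∈ I, g k ∈ s) → ∀ f : ℤ → ℝ,
      (∀ k, 0 ≤ f k) → ∑ k ∈ I, f (g k) ≤ ∑ k ∈ s, f k := by
    intro g hg hm f hf
    rw [← Finset.sum_image (f := f) (g := g) (s := I) (fun x _ y _ h => hg h)]
    refine Finset.sum_le_sum_of_subset_of_nonneg ?_ fun p _ _ => hf p
    intro p hp
    obtain ⟨x, hx, rfl⟩ := Finset.mem_image.1 hp
    exact hm x hx
  have y1 : ∀ k ∈ I, ∀ l ∈ I, ‖∑ m ∈ I, v m * v (-k + l - m)‖ ≤ S := by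
    intro k hk l hl
    have hk' := mI k hk
    have hl' := mI l hl
    have a1 : ‖∑ m ∈ I, v m * v (-k + l - m)‖ ≤ ∑ m ∈ I, ‖v m‖ * ‖v (-k + l - m)‖ :=
      (norm_sum_le _ _).trans (le_of_eq (Finset.sum_congr rfl fun m _ => norm_mul _ _))
    have a2 := Finset.sum_mul_sq_le_sq_mul_sq I (fun m => ‖v m‖) (fun m => ‖v (-k + l - m)‖)
    have a3 : ∑ m ∈ I, ‖v m‖ ^ 2 ≤ S := by
      rw [hS]
      refine sub (fun m => m) (fun _ _ h => h) (fun m hm => ?_) (fun m => ‖v m‖ ^ 2)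
        (fun _ => sq_nonneg _)
      have hm' := mI m hm
      exact ms _ (by omega) (by omega)
    have a4 : ∑ m ∈ I, ‖v (-k + l - m)‖ ^ 2 ≤ S := by
      rw [hS]
      refine sub (fun m => -k + l - m) (fun _ _ h => by simpa using h) (fun m hm => ?_)
        (fun m => ‖v m‖ ^ 2) (fun _ => sq_nonneg _)
      have hm' := mI m hm
      exact ms _ (by omega) (by omega)
    have a5 : (∑ m ∈ I, ‖v m‖ * ‖v (-k + l - m)‖) ^ 2 ≤ S ^ 2 := by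
      refine a2.trans ?_
      rw [sq]
      exact mul_le_mul a3 a4 (Finset.sum_nonneg fun _ _ => sq_nonneg _) S0
    exact a1.trans (abs_le_of_sq_le_sq' a5 S0).2
  have r1 : ∀ k ∈ I, ∑ l ∈ I, ‖α k (-l)‖ ≤ 2 * √N := by
    intro k hk
    have hk' := mI k hk
    have a2 := Finset.sum_mul_sq_le_sq_mul_sq I (fun _ => (1 : ℝ)) (fun l => ‖α k (-l)‖)
    simp only [one_mul, one_pow, Finset.sum_const, nsmul_eq_mul, mul_one] at a2
    rw [cI] at a2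
    have a3 : ∑ l ∈ I, ‖α k (-l)‖ ^ 2 ≤ 4 := by
      refine (sub (fun m => -m) (fun _ _ h => by simpa using h) (fun m hm => ?_)
        (fun m => ‖α k m‖ ^ 2) (fun _ => sq_nonneg _)).trans
        (hα k (ms _ (by omega) (by omega)))
      have hm' := mI m hm
      exact ms _ (by omega) (by omega)
    have a4 : (∑ l ∈ I, ‖α k (-l)‖) ^ 2 ≤ (2 * √N) ^ 2 := by
      rw [mul_pow, Real.sq_sqrt N0.le]
      have := mul_le_mul_of_nonneg_left a3 N0.le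
      linarith
    exact (abs_le_of_sq_le_sq' a4 (by positivity)).2
  have e1 : ∀ k l : ℤ, ∑ m ∈ I, (((-1) ^ k.natAbs * (-1) ^ l.natAbs : ℝ) : ℂ) *
      (α k (-l) * (v m * v (-k + l - m))) = (((-1) ^ k.natAbs * (-1) ^ l.natAbs : ℝ) : ℂ) *
      (α k (-l) * ∑ m ∈ I, v m * v (-k + l - m)) := by
    intro k l
    rw [Finset.mul_sum, Finset.mul_sum]
  have sg : ∀ k l : ℤ, ‖(((-1) ^ k.natAbs * (-1) ^ l.natAbs : ℝ) : ℂ)‖ = 1 := by
    intro k l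
    rw [Complex.norm_real, Real.norm_eq_abs, abs_mul, abs_pow, abs_pow, abs_neg, abs_one, one_pow,
      one_pow, mul_one]
  simp only [e1]
  have b1 : ‖∑ k ∈ I, ∑ l ∈ I, (((-1) ^ k.natAbs * (-1) ^ l.natAbs : ℝ) : ℂ) *
      (α k (-l) * ∑ m ∈ I, v m * v (-k + l - m))‖ ≤ ∑ k ∈ I, ∑ l ∈ I, ‖α k (-l)‖ * S := by
    refine (norm_sum_le _ _).trans (Finset.sum_le_sum fun k hk => ?_)
    refine (norm_sum_le _ _).trans (Finset.sum_le_sum fun l hl => ?_)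
    rw [norm_mul, sg, one_mul, norm_mul]
    exact mul_le_mul_of_nonneg_left (y1 k hk l hl) (norm_nonneg _)
  refine b1.trans ?_
  have b2 : ∑ k ∈ I, ∑ l ∈ I, ‖α k (-l)‖ * S ≤ ∑ k ∈ I, 2 * √N * S := by
    refine Finset.sum_le_sum fun k hk => ?_
    rw [← Finset.sum_mul]
    exact mul_le_mul_of_nonneg_right (r1 k hk) S0
  refine b2.trans (le_of_eq ?_)
  rw [Finset.sum_const, nsmul_eq_mul, cI]; ring

variable {B : Set ℂ} {h κ : ℕ → ℝ} {W V : ℤ → ℕ → ℂ → ℂ} {F : ℕ → Finset ℕ} {e : ℕ → ℕ → ℝ}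

section
variable (H : SY B Complex.im h W) (H' : SY B Complex.im κ V) {φ : ℂ → ℝ} (hφ : TF B φ)
  (hφ0 : ∀ z, 0 ≤ φ z) (hF : ∀ n, (F n).Nonempty) (he : ∀ n i, |e n i| ≤ 1)
  (hW : WY (tsupport φ) W F)
include H H' hφ hφ0 hF he hW

/-- the triple sums -/
lemma JA_d5 (K : ℕ) : ∀ᶠ n in atTop,
    ‖∑ k ∈ Finset.Icc (-(K : ℤ)) K, ∑ l ∈ Finset.Icc (-(K : ℤ)) K,
      ∑ m ∈ Finset.Icc (-(K : ℤ)) K, (((-1) ^ k.natAbs * (-1) ^ l.natAbs : ℝ) : ℂ) *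
        JA W V φ F e (k, -l, m, -k + l - m) n‖ ≤
      7 * ((∫ z, φ z) + 1) * (√(2 * K + 1) * (2 * K + 1) ^ 2) := by
  classical
  have m0 : 0 ≤ ∫ z, φ z := integral_nonneg hφ0
  obtain ⟨s, hs⟩ : ∃ s, s = Finset.Icc (-((3 * K : ℕ) : ℤ)) ((3 * K : ℕ) : ℤ) := ⟨_, rfl⟩
  obtain ⟨I, hI⟩ : ∃ s, s = Finset.Icc (-(K : ℤ)) K := ⟨_, rfl⟩
  obtain ⟨N, hN⟩ : ∃ N : ℝ, N = 2 * K + 1 := ⟨_, rfl⟩
  have N1 : 1 ≤ N := by rw [hN]; have : (0 : ℝ) ≤ K := Nat.cast_nonneg _; linarith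
  have N0 : 0 < N := by linarith
  have sN : 1 ≤ √N := Real.one_le_sqrt.2 N1
  have cI : (I.card : ℝ) = N := by
    rw [hI, Int.card_Icc, hN]
    have : ((K : ℤ) + 1 - -(K : ℤ)).toNat = 2 * K + 1 := by omega
    rw [this]; push_cast; ring
  have cs' : (s.card : ℝ) ≤ 3 * N := by
    rw [hs, Int.card_Icc, hN]
    have : (((3 * K : ℕ) : ℤ) + 1 - -((3 * K : ℕ) : ℤ)).toNat = 2 * (3 * K) + 1 := by omega
    rw [this]; push_cast; linarith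
  rw [← hI, ← hN]
  filter_upwards [row he hW s, int_bd H' hφ hφ0 s] with n g1 g2
  have e0 : ∑ k ∈ I, ∑ l ∈ I, ∑ m ∈ I, (((-1) ^ k.natAbs * (-1) ^ l.natAbs : ℝ) : ℂ) *
        JA W V φ F e (k, -l, m, -k + l - m) n =
      ∑ x ∈ I ×ˢ (I ×ˢ I), (((-1) ^ x.1.natAbs * (-1) ^ x.2.1.natAbs : ℝ) : ℂ) *
        JA W V φ F e (x.1, -x.2.1, x.2.2, -x.1 + x.2.1 - x.2.2) n := by
    rw [Finset.sum_product]
    refine Finset.sum_congr rfl fun k _ => ?_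
    rw [Finset.sum_product]
  rw [e0, JA_sum H H' hφ]
  have sg : ∀ k l : ℤ, ‖(((-1) ^ k.natAbs * (-1) ^ l.natAbs : ℝ) : ℂ)‖ = 1 := by
    intro k l
    rw [Complex.norm_real, Real.norm_eq_abs, abs_mul, abs_pow, abs_pow, abs_neg, abs_one, one_pow,
      one_pow, mul_one]
  have cc : ∀ j k : ℤ, ‖CC j k‖ ≤ 1 := by
    intro j k
    unfold CC
    split_ifs
    · simp
    · simp
  have b2 : ‖E1 F e n * ((∑ x ∈ I ×ˢ (I ×ˢ I),
      (((-1) ^ x.1.natAbs * (-1) ^ x.2.1.natAbs : ℝ) : ℂ) * (CC x.1 (-x.2.1) *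
        CC x.2.2 (-x.1 + x.2.1 - x.2.2))) * ((∫ z, φ z : ℝ) : ℂ))‖ ≤ N ^ 2 * ∫ z, φ z := by
    have c1 : ‖∑ x ∈ I ×ˢ (I ×ˢ I), (((-1) ^ x.1.natAbs * (-1) ^ x.2.1.natAbs : ℝ) : ℂ) *
        (CC x.1 (-x.2.1) * CC x.2.2 (-x.1 + x.2.1 - x.2.2))‖ ≤ N ^ 2 := by
      have c2 : ‖∑ x ∈ I ×ˢ (I ×ˢ I), (((-1) ^ x.1.natAbs * (-1) ^ x.2.1.natAbs : ℝ) : ℂ) *
          (CC x.1 (-x.2.1) * CC x.2.2 (-x.1 + x.2.1 - x.2.2))‖ ≤
          ∑ x ∈ I ×ˢ (I ×ˢ I), (if x.2.1 = x.1 then (1 : ℝ) else 0) := by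
        refine (norm_sum_le _ _).trans (Finset.sum_le_sum fun x _ => ?_)
        rw [norm_mul, sg, one_mul, norm_mul]
        split_ifs with h
        · exact mul_le_one₀ (cc _ _) (norm_nonneg _) (cc _ _)
        · have : CC x.1 (-x.2.1) = 0 := by
            unfold CC
            rw [if_neg]
            intro h'; exact h (by linarith)
          rw [this]; simp
      refine c2.trans (le_of_eq ?_)
      rw [Finset.sum_product]
      have c3 : ∀ k ∈ I, ∑ y ∈ I ×ˢ I, (if y.1 = k then (1 : ℝ) else 0) = N := by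
        intro k hk
        rw [Finset.sum_product, Finset.sum_comm]
        simp only [Finset.sum_ite_eq', if_pos hk]
        rw [Finset.sum_const, nsmul_eq_mul, cI, mul_one]
      rw [Finset.sum_congr rfl c3, Finset.sum_const, nsmul_eq_mul, cI, sq]
    rw [norm_mul, norm_mul, Complex.norm_real, Real.norm_eq_abs, abs_of_nonneg m0]
    have c4 := mul_le_mul_of_nonneg_right c1 m0
    calc _ ≤ 1 * (N ^ 2 * ∫ z, φ z) := mul_le_mul (E1_le hF he n) c4 (by positivity) zero_le_one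
      _ = _ := one_mul _
  have b1 := g2 (fun _ => 2 * √N * N) (fun z => ∑ x ∈ I ×ˢ (I ×ˢ I),
    (((-1) ^ x.1.natAbs * (-1) ^ x.2.1.natAbs : ℝ) : ℂ) * (bb W F e x.1 (-x.2.1) n z *
      (V x.2.2 n z * V (-x.1 + x.2.1 - x.2.2) n z))) (fun k _ => by positivity) ?_
  · rw [Finset.sum_const, nsmul_eq_mul] at b1
    have b3 : (s.card : ℝ) * (2 * √N * N) ≤ 3 * N * (2 * √N * N) :=
      mul_le_mul_of_nonneg_right cs' (by positivity)
    have b4 := mul_le_mul_of_nonneg_right b3 (show 0 ≤ (∫ z, φ z) + 1 by linarith)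
    have b5 : N ^ 2 * (∫ z, φ z) ≤ ((∫ z, φ z) + 1) * (√N * N ^ 2) := by
      have : N ^ 2 * (∫ z, φ z) ≤ (√N * N ^ 2) * ((∫ z, φ z) + 1) := by
        refine mul_le_mul ?_ (by linarith) m0 (by positivity)
        nlinarith [sq_nonneg N]
      linarith
    refine (norm_sub_le _ _).trans ((add_le_add b1 b2).trans ?_)
    nlinarith
  · intro z hz
    rw [← Finset.mul_sum]
    refine le_trans (le_of_eq ?_) (ptw1 hs hI hN (fun k l => bb W F e k l n z)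
      (fun k => V k n z) (g1 z hz))
    congr 1
    rw [Finset.sum_product]
    refine Finset.sum_congr rfl fun k _ => ?_
    rw [Finset.sum_product]

/-- **the limit** -/
theorem JA_one (HQ : QS (kst 1) (JA W V φ F e)) :
    Tendsto (fun n => JA W V φ F e (0, 0, 0, 0) n) atTop (𝓝 0) := by
  have m0 : 0 ≤ ∫ z, φ z := integral_nonneg hφ0
  obtain ⟨m, hm⟩ : ∃ m, m = (∫ z, φ z) + 1 := ⟨_, rfl⟩
  have hm1 : 1 ≤ m := by rw [hm]; linarith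
  rw [Metric.tendsto_nhds]
  intro ε hε
  simp only [dist_zero_right]
  obtain ⟨K, hK⟩ : ∃ K : ℕ, 14 * m / √(2 * K + 1 : ℝ) < ε := by
    obtain ⟨K, hK⟩ := exists_nat_gt ((14 * m / ε) ^ 2)
    refine ⟨K, ?_⟩
    have h1 : 14 * m / ε < √(2 * K + 1 : ℝ) := by
      refine Real.lt_sqrt_of_sq_lt (hK.trans ?_)
      have : (0 : ℝ) ≤ K := Nat.cast_nonneg _
      linarith
    have h2 : 0 < √(2 * K + 1 : ℝ) := Real.sqrt_pos.2 (by positivity)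
    rw [div_lt_iff₀ h2]
    rw [div_lt_iff₀ hε] at h1
    linarith
  have t1 := (one_id HQ K).norm.eventually (gt_mem_nhds (show ‖(0 : ℂ)‖ < 1 by simp))
  filter_upwards [t1, JA_d5 H H' hφ hφ0 hF he hW K, JA_d2 H H' hφ hφ0 hF he hW 1 (Or.inl rfl)
    (Finset.Icc (-(K : ℤ)) K) (fun k => (-1) ^ k.natAbs)] with n g1 g2 g3
  rw [← hm] at g2 g3
  simp only [one_mul] at g3
  have cI : ((Finset.Icc (-(K : ℤ)) (K : ℤ)).card : ℝ) = 2 * K + 1 := by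
    rw [Int.card_Icc]
    have : ((K : ℤ) + 1 - -(K : ℤ)).toNat = 2 * K + 1 := by omega
    rw [this]; push_cast; ring
  have e1 : ∑ k ∈ Finset.Icc (-(K : ℤ)) K, (((-1 : ℝ) ^ k.natAbs) ^ 2) = 2 * K + 1 := by
    have : ∀ k ∈ Finset.Icc (-(K : ℤ)) K, (((-1 : ℝ) ^ k.natAbs) ^ 2) = 1 := by
      intro k _
      rw [← pow_mul, mul_comm, pow_mul]; norm_num
    rw [Finset.sum_congr rfl this, Finset.sum_const, nsmul_eq_mul, cI, mul_one]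
  rw [e1] at g3
  obtain ⟨P, hP⟩ : ∃ P, P = ∑ k ∈ Finset.Icc (-(K : ℤ)) K, ∑ l ∈ Finset.Icc (-(K : ℤ)) K,
      (((-1) ^ k.natAbs : ℝ) : ℂ) * ((((-1) ^ l.natAbs : ℝ) : ℂ) *
        JA W V φ F e (k, -l, -k, l) n) := ⟨_, rfl⟩
  obtain ⟨R, hR⟩ : ∃ R, R = ∑ k ∈ Finset.Icc (-(K : ℤ)) K, ∑ l ∈ Finset.Icc (-(K : ℤ)) K,
      ∑ m ∈ Finset.Icc (-(K : ℤ)) K, (((-1) ^ k.natAbs * (-1) ^ l.natAbs : ℝ) : ℂ) *
        JA W V φ F e (k, -l, m, -k + l - m) n := ⟨_, rfl⟩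
  obtain ⟨J0, hJ0⟩ : ∃ J0, J0 = JA W V φ F e (0, 0, 0, 0) n := ⟨_, rfl⟩
  rw [← hP] at g1 g3
  rw [← hR] at g1 g2
  rw [← hJ0] at g1 ⊢
  obtain ⟨N, hN⟩ : ∃ N : ℝ, N = 2 * K + 1 := ⟨_, rfl⟩
  have hNc : (2 * K + 1 : ℂ) = (N : ℂ) := by rw [hN]; push_cast; ring
  rw [hNc] at g1
  rw [← hN] at g2 g3 hK
  have N1 : 1 ≤ N := by rw [hN]; have : (0 : ℝ) ≤ K := Nat.cast_nonneg _; linarith
  have N0 : 0 < N := by linarith
  obtain ⟨q, hq⟩ : ∃ q, q = √N := ⟨_, rfl⟩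
  have q1 : 1 ≤ q := by rw [hq]; exact Real.one_le_sqrt.2 N1
  have qq : q ^ 2 = N := by rw [hq]; exact Real.sq_sqrt N0.le
  rw [← hq] at g2 hK
  have c1 : N ^ 3 * ‖J0‖ ≤ N * (2 * ‖P‖) + ‖R‖ + 1 := by
    have e2 : (N : ℂ) ^ 3 * J0 = (N : ℂ) * (2 * P) - R -
        ((N : ℂ) * (2 * P) - R - (N : ℂ) ^ 3 * J0) := by ring
    have e3 : N ^ 3 * ‖J0‖ = ‖(N : ℂ) ^ 3 * J0‖ := by
      rw [norm_mul, norm_pow, Complex.norm_real, Real.norm_eq_abs, abs_of_pos N0]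
    rw [e3, e2]
    refine (norm_sub_le _ _).trans (add_le_add ((norm_sub_le _ _).trans ?_) g1.le)
    rw [norm_mul, norm_mul, Complex.norm_real, Real.norm_eq_abs, abs_of_pos N0,
      Complex.norm_ofNat]
  have c2 : N * (2 * ‖P‖) ≤ N * (2 * (3 * m * N)) :=
    mul_le_mul_of_nonneg_left (by linarith) N0.le
  have c3 : N ^ 3 * ‖J0‖ ≤ 14 * m * (q * N ^ 2) := by
    have a1 : N * (2 * (3 * m * N)) ≤ 6 * m * (q * N ^ 2) := by
      have : N ^ 2 ≤ q * N ^ 2 := by nlinarith [sq_nonneg N]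
      nlinarith
    have a2 : (1 : ℝ) ≤ m * (q * N ^ 2) := by
      have b1 : 1 ≤ N ^ 2 := one_le_pow₀ N1
      have b2 : 1 ≤ q * N ^ 2 := one_le_mul_of_one_le_of_one_le q1 b1
      exact one_le_mul_of_one_le_of_one_le hm1 b2
    linarith
  have q0 : 0 < q := by linarith
  refine lt_of_le_of_lt ?_ hK
  rw [le_div_iff₀ q0]
  refine le_of_mul_le_mul_left ?_ (show 0 < q * N ^ 2 by positivity)
  calc q * N ^ 2 * (‖J0‖ * q) = q ^ 2 * N ^ 2 * ‖J0‖ := by ring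
    _ = N ^ 3 * ‖J0‖ := by rw [qq]; ring
    _ ≤ 14 * m * (q * N ^ 2) := c3
    _ = _ := by ring

end

section
variable (H : SY B Complex.im h W) (H' : SY B Complex.im κ V) (k0 : EX B κ V (V 0))
  (hBU : B ⊆ UH) {φ : ℂ → ℝ} (hφ : TF B φ)
  (hφ0 : ∀ z, 0 ≤ φ z) (hF : ∀ n, (F n).Nonempty)
  (hW : WY (tsupport φ) W F) {C : ℝ} (hC : ∀ n, ∀ i ∈ F n, h i ≤ C * κ n ∧ κ n ≤ C * h i)
  (hθ : ∀ θ : ℕ → ℕ, (∀ n, θ n ∈ F n) →
    SY B Complex.im (fun n => h (θ n)) (fun k n => W k (θ n)) ∧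
    EX B (fun n => h (θ n)) (fun k n => W k (θ n)) (fun n => W 0 (θ n)))
include H H' k0 hBU hφ hφ0 hF hW hC hθ

/-- **the averages of the deviations tend to zero**, ratio one -/
theorem avg_one (hρ : ∀ η : ℝ, 0 < η → ∀ᶠ n in atTop, ∀ i ∈ F n, |h i / κ n - 1| ≤ η) :
    Tendsto (fun n => (∑ i ∈ F n, |(JI W V φ i n (0, 0, 0, 0)).re|) / (F n).card) atTop
      (𝓝 0) := by
  have sg : ∀ x : ℝ, |Real.sign x| ≤ 1 := by
    intro x
    rcases Real.sign_apply_eq x with h | h | h <;> rw [h] <;> norm_num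
  have sm : ∀ x : ℝ, Real.sign x * x = |x| := by
    intro x
    rcases lt_trichotomy x 0 with h | h | h
    · rw [Real.sign_of_neg h, abs_of_neg h]; ring
    · rw [h]; simp
    · rw [Real.sign_of_pos h, abs_of_pos h]; ring
  obtain ⟨e, he'⟩ : ∃ e : ℕ → ℕ → ℝ, e = fun n i => Real.sign (JI W V φ i n (0, 0, 0, 0)).re :=
    ⟨_, rfl⟩
  have he : ∀ n i, |e n i| ≤ 1 := by intro n i; rw [he']; exact sg _
  have key : Tendsto (fun n => JA W V φ F e (0, 0, 0, 0) n) atTop (𝓝 0) :=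
    JA_one H H' hφ hφ0 hF he hW (avA H H' k0 hBU hφ hφ0 hF hW hC hθ he hρ).qs
  have k2 := (Complex.continuous_re.tendsto _).comp key
  rw [Complex.zero_re] at k2
  refine k2.congr fun n => ?_
  simp only [Function.comp_apply]
  unfold JA av
  rw [Complex.div_natCast_re, Complex.re_sum]
  congr 1
  refine Finset.sum_congr rfl fun i _ => ?_
  rw [Complex.re_ofReal_mul, he', sm]

end

end

end Pool.Agent.J4H76.AP
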