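import Pool.Agent.J4H76.AP.Alg

/-! Supports and mean squares of the symbols. -/
set_option autoImplicit false
open Filter Topology

namespace Pool.Agent.J4H76.AP

noncomputable section

open Pool.Agent.J4H76.TP
open AddMonoidAlgebra (single)
open Polynomial (aeval)

/-- degree at most `D` -/
def Dg (D : ℕ) (f : AA ℤ) : Prop := ∀ k ∈ f.coeff.support, |k| ≤ D

lemma Dg_mono {D D' : ℕ} (h : D ≤ D') {f : AA ℤ} (hf : Dg D f) : Dg D' f :=
  fun k hk => (hf k hk).trans (by exact_mod_cast h)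

lemma Dg_single {k : ℤ} {D : ℕ} (h : |k| ≤ D) (r : BS) : Dg D (single k r) := by
  intro l hl
  rw [AddMonoidAlgebra.coeff_single] at hl
  have := Finsupp.support_single_subset hl
  rw [Finset.mem_singleton] at this
  rw [this]; exact h

lemma Dg_add {D : ℕ} {f g : AA ℤ} (hf : Dg D f) (hg : Dg D g) : Dg D (f + g) := by
  classical
  intro k hk
  rw [AddMonoidAlgebra.coeff_add] at hk
  rcases Finset.mem_union.1 (Finsupp.support_add hk) with h | h
  · exact hf k h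
  · exact hg k h

lemma Dg_mul {D D' : ℕ} {f g : AA ℤ} (hf : Dg D f) (hg : Dg D' g) : Dg (D + D') (f * g) := by
  classical
  intro k hk
  by_contra hcon
  push Not at hcon
  rw [Finsupp.mem_support_iff] at hk
  apply hk
  rw [AddMonoidAlgebra.coeff_mul, Finsupp.sum]
  refine Finset.sum_eq_zero fun a ha => ?_
  rw [Finsupp.sum]
  refine Finset.sum_eq_zero fun b hb => ?_
  rw [if_neg]
  rintro rfl
  have h1 := hf a ha
  have h2 := hg b hb
  have h3 := abs_add_le a b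
  push_cast at hcon
  linarith

lemma Dg_const (D : ℕ) (r : ℝ) : Dg D (algebraMap ℝ (AA ℤ) r) :=
  Dg_single (by simp) _

lemma Dg_xw (ρ : BS) : Dg 1 (xw ρ) := by
  have h1 : Dg 0 ((cs ρ : AA ℤ) ^ 2) := by
    rw [sq]
    exact Dg_mul (D := 0) (D' := 0) (Dg_single (by simp) _) (Dg_single (by simp) _)
  have h2 : Dg 1 (2 + single 1 1 + single (-1) 1 : AA ℤ) := by
    refine Dg_add (Dg_add ?_ (Dg_single (by simp) _)) (Dg_single (by simp) _)
    have : (2 : AA ℤ) = algebraMap ℝ (AA ℤ) 2 := by rw [map_ofNat]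
    rw [this]
    exact Dg_const 1 2
  have := Dg_mul h1 h2
  rw [zero_add] at this
  exact this

lemma Dg_pow {f : AA ℤ} (hf : Dg 1 f) (n : ℕ) : Dg n (f ^ n) := by
  induction n with
  | zero =>
    rw [pow_zero]
    have : (1 : AA ℤ) = algebraMap ℝ (AA ℤ) 1 := by rw [map_one]
    rw [this]; exact Dg_const 0 1
  | succ i ih =>
    rw [pow_succ]; exact Dg_mul ih hf

/-- degrees of polynomials of `xw` -/
lemma Dg_aeval (ρ : BS) (P : Polynomial ℝ) {D : ℕ} (h : P.natDegree ≤ D) :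
    Dg D (aeval (xw ρ) P) := by
  rw [Polynomial.aeval_eq_sum_range' (Nat.lt_succ_of_le h)]
  have : ∀ s : Finset ℕ, s ⊆ Finset.range (D + 1) →
      Dg D (∑ i ∈ s, P.coeff i • (xw ρ) ^ i) := by
    intro s
    induction s using Finset.induction_on with
    | empty => intro _ k hk; simp at hk
    | insert a s ha ih =>
      intro hs
      rw [Finset.sum_insert ha]
      refine Dg_add ?_ (ih fun i hi => hs (Finset.mem_insert_of_mem hi))
      have h1 : a ≤ D := by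
        have := hs (Finset.mem_insert_self a s)
        rw [Finset.mem_range] at this
        omega
      rw [Algebra.smul_def]
      have := Dg_mul (Dg_const 0 (P.coeff a)) (Dg_pow (Dg_xw ρ) a)
      rw [zero_add] at this
      exact Dg_mono h1 this
  exact this _ (Finset.Subset.refl _)

/-- values -/
lemma ez_aeval (ρ0 : ℝ) (P : Polynomial ℝ) (θ : ℝ) (n : ℕ) :
    ez (ex θ) n (aeval (xw (kst ρ0)) P) = ((P.eval (Xf ρ0 θ) : ℝ) : ℂ) := by
  rw [← Polynomial.aeval_algHom_apply, ez_xw, kst_ap]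
  have h2 := Polynomial.aeval_algHom_apply Complex.ofRealAm (Xf ρ0 θ) P
  simp only [Complex.ofRealAm_coe] at h2
  rw [h2, Polynomial.coe_aeval_eq_eval]

lemma N2_aeval (ρ0 : ℝ) (P : Polynomial ℝ) (n : ℕ) :
    N2 (aeval (xw (kst ρ0)) P) n = ms (fun θ => P.eval (Xf ρ0 θ)) :=
  N2_real (fun θ => ez_aeval ρ0 P θ n) fun θ => by unfold Xf; rw [Real.cos_neg]

lemma ez_rrp (ρ0 : ℝ) (P : Polynomial ℝ) (θ : ℝ) (n : ℕ) :
    ez (ex θ) n (aeval (rr (kst ρ0)) P) = ((P.eval (Rf ρ0 θ) : ℝ) : ℂ) := by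
  rw [← Polynomial.aeval_algHom_apply, ez_rr, kst_ap]
  have h2 := Polynomial.aeval_algHom_apply Complex.ofRealAm (Rf ρ0 θ) P
  simp only [Complex.ofRealAm_coe] at h2
  rw [h2, Polynomial.coe_aeval_eq_eval]

lemma N2_rrp (ρ0 : ℝ) (P : Polynomial ℝ) (n : ℕ) :
    N2 (aeval (rr (kst ρ0)) P) n = ms (fun θ => P.eval (Rf ρ0 θ)) :=
  N2_real (fun θ => ez_rrp ρ0 P θ n) fun θ => by unfold Rf; rw [Real.cos_neg]

/-- the coefficients of `P(xw)`, real numbers -/
def cf (ρ0 : ℝ) (P : Polynomial ℝ) (r : ℤ) : ℝ := ((aeval (xw (kst ρ0)) P).coeff r).1 0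

/-- constant coefficients -/
def Kc (f : AA ℤ) : Prop := ∀ k n, (f.coeff k).1 n = (f.coeff k).1 0

lemma Kc_add {f g : AA ℤ} (hf : Kc f) (hg : Kc g) : Kc (f + g) := by
  intro k n
  rw [AddMonoidAlgebra.coeff_add]
  show ((f.coeff k + g.coeff k).1 n) = ((f.coeff k + g.coeff k).1 0)
  rw [BS.add_ap, BS.add_ap, hf, hg]

lemma Kc_single (k : ℤ) (c : ℝ) : Kc (single k (kst c)) := by
  classical
  intro l n
  rw [AddMonoidAlgebra.coeff_single, Finsupp.single_apply]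
  split_ifs
  · rfl
  · rfl

lemma BS_sum_ap {ι : Type} (s : Finset ι) (f : ι → BS) (n : ℕ) :
    (∑ i ∈ s, f i).1 n = ∑ i ∈ s, (f i).1 n := by
  have h : ∀ r : BS, Pool.Agent.J4H76.LB.vh n r = r.1 n := fun r => rfl
  rw [← h, map_sum]; rfl

lemma Kc_mul {f g : AA ℤ} (hf : Kc f) (hg : Kc g) : Kc (f * g) := by
  classical
  intro k n
  have e : ∀ n, ((f * g).coeff k).1 n = ∑ a ∈ f.coeff.support, ∑ b ∈ g.coeff.support,
      if a + b = k then (f.coeff a).1 n * (g.coeff b).1 n else 0 := by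
    intro n
    rw [AddMonoidAlgebra.coeff_mul, Finsupp.sum, BS_sum_ap]
    refine Finset.sum_congr rfl fun a _ => ?_
    rw [Finsupp.sum, BS_sum_ap]
    refine Finset.sum_congr rfl fun b _ => ?_
    split_ifs
    · rfl
    · rfl
  rw [e, e]
  refine Finset.sum_congr rfl fun a _ => Finset.sum_congr rfl fun b _ => ?_
  rw [hf, hg]

lemma Kc_const (r : ℝ) : Kc (algebraMap ℝ (AA ℤ) r) := Kc_single 0 r

lemma Kc_xw (ρ0 : ℝ) : Kc (xw (kst ρ0)) := by
  have h1 : Kc ((cs (kst ρ0) : AA ℤ) ^ 2) := by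
    rw [sq]
    exact Kc_mul (Kc_single 0 ρ0) (Kc_single 0 ρ0)
  refine Kc_mul h1 (Kc_add (Kc_add ?_ (Kc_single 1 1)) (Kc_single (-1) 1))
  have : (2 : AA ℤ) = algebraMap ℝ (AA ℤ) 2 := by rw [map_ofNat]
  rw [this]; exact Kc_const 2

lemma Kc_aeval {f : AA ℤ} (hf : Kc f) (P : Polynomial ℝ) : Kc (aeval f P) := by
  induction P using Polynomial.induction_on with
  | C a => rw [Polynomial.aeval_C]; exact Kc_const a
  | add p q hp hq => rw [map_add]; exact Kc_add hp hq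
  | monomial n a h =>
    rw [pow_succ, ← mul_assoc, map_mul, Polynomial.aeval_X]
    exact Kc_mul h hf

lemma cf_eq (ρ0 : ℝ) (P : Polynomial ℝ) (r : ℤ) (n : ℕ) :
    ((aeval (xw (kst ρ0)) P).coeff r).1 n = cf ρ0 P r := Kc_aeval (Kc_xw ρ0) P r n

/-- the functional on products with a monomial -/
lemma EE_mn_yy (J : Z4 → ℕ → ℂ) (ρ0 : ℝ) (P : Polynomial ℝ) {R : ℕ} (hR : P.natDegree ≤ R)
    (a b c d : ℤ) (n : ℕ) : EE J (mn a b c d * yy ρ0 P) n =
      ∑ r ∈ Finset.Icc (-(R : ℤ)) R, ((cf ρ0 P r : ℝ) : ℂ) * J (a, b, c + r, d - r) n := by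
  have e1 : EE J (mn a b c d * yy ρ0 P) n =
      EE (fun k => J ((a, b, c, d) + dir 0 0 1 (-1) k)) (aeval (xw (kst ρ0)) P) n := by
    unfold yy
    obtain ⟨f, hf⟩ : ∃ f, f = aeval (xw (kst ρ0)) P := ⟨_, rfl⟩
    rw [← hf]
    clear hf
    induction f using AddMonoidAlgebra.induction_linear with
    | zero => rw [map_zero, mul_zero, EE_zero, EE_zero]
    | add f g hf hg => rw [map_add, mul_add, EE_add, EE_add, hf, hg]
    | single b s =>
      rw [io_single, mn, AddMonoidAlgebra.single_mul_single, one_mul, EE_single, EE_single]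
  rw [e1, EE, Finsupp.sum]
  have hs : (aeval (xw (kst ρ0)) P).coeff.support ⊆ Finset.Icc (-(R : ℤ)) R := by
    intro k hk
    have := Dg_aeval (kst ρ0) P hR k hk
    rw [Finset.mem_Icc]
    exact abs_le.1 this
  rw [Finset.sum_subset hs]
  · refine Finset.sum_congr rfl fun r _ => ?_
    rw [cf_eq]
    congr 3
    simp [dir, sub_eq_add_neg]
  · intro r _ hr
    rw [Finsupp.notMem_support_iff.1 hr, BS.zero_ap, Complex.ofReal_zero, zero_mul]

/-- Parseval for the coefficients -/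
lemma cf_sq (ρ0 : ℝ) (P : Polynomial ℝ) {R : ℕ} (hR : P.natDegree ≤ R) :
    ∑ r ∈ Finset.Icc (-(R : ℤ)) R, cf ρ0 P r ^ 2 = ms (fun θ => P.eval (Xf ρ0 θ)) := by
  rw [← N2_aeval ρ0 P 0, N2]
  have hs : (aeval (xw (kst ρ0)) P).coeff.support ⊆ Finset.Icc (-(R : ℤ)) R := by
    intro k hk
    have := Dg_aeval (kst ρ0) P hR k hk
    rw [Finset.mem_Icc]
    exact abs_le.1 this
  symm
  refine Finset.sum_subset hs fun r _ hr => ?_
  rw [Finsupp.notMem_support_iff.1 hr, BS.zero_ap]; ring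

lemma cf_pi (ρ0 : ℝ) (P : Polynomial ℝ) {R : ℕ} (hR : P.natDegree ≤ R) (h0 : P.eval 0 = 0) :
    ∑ r ∈ Finset.Icc (-(R : ℤ)) R, cf ρ0 P r * (-1) ^ r.natAbs = 0 := by
  have h1 := sum_pi (aeval (xw (kst ρ0)) P) 0
  rw [ez_aeval] at h1
  have e : Xf ρ0 Real.pi = 0 := by unfold Xf; rw [Real.cos_pi]; ring
  rw [e, h0] at h1
  have hs : (aeval (xw (kst ρ0)) P).coeff.support ⊆ Finset.Icc (-(R : ℤ)) R := by
    intro k hk
    have := Dg_aeval (kst ρ0) P hR k hk
    rw [Finset.mem_Icc]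
    exact abs_le.1 this
  have h2 : ∑ r ∈ Finset.Icc (-(R : ℤ)) R, cf ρ0 P r * (-1) ^ r.natAbs =
      ∑ r ∈ (aeval (xw (kst ρ0)) P).coeff.support, cf ρ0 P r * (-1) ^ r.natAbs := by
    symm
    refine Finset.sum_subset hs fun r _ hr => ?_
    unfold cf
    rw [Finsupp.notMem_support_iff.1 hr, BS.zero_ap]; ring
  rw [h2]
  have h3 : ((∑ r ∈ (aeval (xw (kst ρ0)) P).coeff.support, cf ρ0 P r * (-1) ^ r.natAbs : ℝ) : ℂ) =
      0 := by
    rw [Complex.ofReal_zero] at h1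
    rw [h1]
    push_cast
    rfl
  exact_mod_cast h3

/-- linearity in `P` -/
lemma cf_sum (ρ0 : ℝ) {K : ℕ} (c : ℕ → ℝ) (P : ℕ → Polynomial ℝ) (r : ℤ) :
    cf ρ0 (∑ j ∈ Finset.range K, Polynomial.C (c j) * P j) r =
      ∑ j ∈ Finset.range K, c j * cf ρ0 (P j) r := by
  have hadd : ∀ P Q, cf ρ0 (P + Q) r = cf ρ0 P r + cf ρ0 Q r := by
    intro P Q
    unfold cf
    rw [map_add, AddMonoidAlgebra.coeff_add]; rfl
  have hC : ∀ (a : ℝ) P, cf ρ0 (Polynomial.C a * P) r = a * cf ρ0 P r := by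
    intro a P
    unfold cf
    rw [map_mul, Polynomial.aeval_C, ← Algebra.smul_def, AddMonoidAlgebra.coeff_smul]
    rfl
  induction K with
  | zero =>
    simp only [Finset.range_zero, Finset.sum_empty]
    unfold cf
    rw [map_zero]; rfl
  | succ k ih => rw [Finset.sum_range_succ, Finset.sum_range_succ, hadd, hC, ih]

end

end Pool.Agent.J4H76.AP
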